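import Pool.Agent.H71.FUL.Fur
import Pool.Agent.H31.AVN.Vor

/-!
# The pair of places is full at almost every window

`aePG_vfp_gt`: `VfPQ 1` from `FulQ`, if the slope of the place `2` is at most the slope of the place
`1`, and the latter is less than the former plus `1`.
-/

set_option autoImplicit false

namespace Pool.FUL71

open Finset Real MvPolynomial MeasureTheory Filter
open Pool.Agent.H49.Ent Pool.Agent.H32.Dense Pool.STK Pool.KA Pool.KSAT Pool.K2S Pool.PB Pool.S6C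
open Pool.GEN Pool.CHT Pool.CHX Pool.ISO Pool.RCD Pool.LA91 Pool.AVG96 Pool.AVG50 Pool.CDX
open Pool.PKG Pool.OWN68 Pool.OWN83 Pool.D2F2 Pool.AVG57 Pool.FUL95
open Pool.TOP (TopS)

/-- **The pair of places is full**, as a property of the windows, from the fullness of the places
`1`, `2` behind their own paths. -/
theorem aePG_vfp_gt {n : ℕ} (hn4 : 4 ≤ n) {Φ : (ℕ → ℝ) → Prop} {C₁ : (ℕ → ℝ) → ℝ}
    (hC : ∀ Sl : ℕ → ℝ, Φ Sl → 1 / (Sl 2 + 1 - Sl 1) ≤ C₁ Sl)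
    (hful : AePG n (FulQ Φ : PropG n Unit)) :
    AePG n (VfPQ 1 (fun Sl => Φ Sl ∧ Sl 2 ≤ Sl 1 ∧ Sl 1 < Sl 2 + 1) C₁ : PropG n ℕ) := by
  intro hn S P r P' Λ PB PQ H hTop hF o G hG hGs
  obtain ⟨S₂, b1, b2, b3⟩ := asmC_all H.toPkT hTop hF hG hGs (v := 2) (by norm_num) (by omega)
  have H₂ := H.sub b1 b2
  obtain ⟨S₃, c1, c2, c3⟩ := hful hn S₂ P r P' Λ PB PQ H₂ hTop hF o G hG hGs
  have H₃ := H₂.sub c1 c2
  obtain ⟨S₄, d1, d2, d3⟩ := aePG_af n hn S₃ P r P' Λ PB PQ H₃ hTop hF o G hG hGs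
  refine ⟨S₄, d1, fun τ J F A h => b2 τ J F A (c2 τ J F A (d2 τ J F A h)), ?_⟩
  have hall : ∀ᵐ g : ℝ, ∀ x : ℕ × {x : ℚ × ℚ × ℚ // 0 ≤ x.1 ∧ 0 < x.2.2 ∧ x.2.1 + x.2.2 ≤ 1},
      (x.2.1.1 : ℝ) < g → g < x.2.1.2.1 → ∀ Sl : ℕ → ℝ,
      SlpG (fun w l => LvL hn P P' o l w w) 1 3 G g Sl → Sl 2 ≤ Sl 1 → Sl 1 < Sl 2 + 1 →
      ∀ C₁ : ℝ, 1 / (Sl 2 + 1 - Sl 1) ≤ C₁ →
      AfG S₄ (cc hn o.1.1) (fun w l => LvL hn P P' o l w w) G g 2 →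
      (Sl 1 < 2 ∨ AfG S₄ (cc hn o.1.1) (fun w l => LvL hn P P' o l w w) G g 1) →
      FulG S₄ (cc hn o.1.1) (fun w l => LvL hn P P' o l w w) G g →
      VfPG S₄ (cc hn o.1.1) 1 1 x.1 C₁ x.2.1.1 x.2.1.2.1 x.2.1.2.2
        (fun w l => LvL hn P P' o l w w) G g Sl := by
    rw [ae_all_iff]
    rintro ⟨K, ⟨⟨A, B, Λ'⟩, k1, k2, k3⟩⟩
    have k1' : (0 : ℝ) ≤ (A : ℝ) := by exact_mod_cast k1
    have k2' : (0 : ℝ) < (Λ' : ℝ) := by exact_mod_cast k2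
    have k3' : (B : ℝ) + Λ' ≤ 1 := by exact_mod_cast k3
    by_cases hAB : (A : ℝ) < B
    · exact vfPG_ful ((b3 A B Λ' k1' k2' k3' (by linarith) (by linarith)).sub d1
        fun τ J F A h => c2 τ J F A (d2 τ J F A h)) K
    · exact Eventually.of_forall fun g h1 h2 => absurd (h1.trans h2) hAB
  filter_upwards [hall, gap_ae hG, c3, d3] with g h1 h2 h3 h4 hg κ hκ K
  refine ⟨0, fun Sl hd hΦ hS A B Λ' hA hAg hgB hΛ hB => ?_⟩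
  obtain ⟨_, h5⟩ := h3 hg κ hκ ()
  obtain ⟨_, h6⟩ := h4 hg κ hκ ()
  have hslp : SlpG (fun w l => LvL hn P P' o l w w) 1 3 G g Sl :=
    slpG_of (fun l l0 l1 => by linarith [hS l l0 l1]) (fun l l0 l1 => hS l l0 (by omega))
      (fun l l0 l1 => (hd l l0 l1).hasDerivWithinAt) (h2 hg)
  obtain ⟨a1, a2⟩ := h6 (by omega) (by
    rw [(hd 1 le_rfl (by norm_num)).deriv]
    exact hS 1 le_rfl (by norm_num))
  exact h1 ⟨K, ⟨(A, B, Λ'), hA, hΛ, hB⟩⟩ hAg hgB Sl hslp hΦ.2.1 hΦ.2.2 (C₁ Sl) (hC Sl hΦ.1) a2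
    (Or.inr a1) ((h5 Sl hd hΦ.1 hS).sub d2)

end Pool.FUL71
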