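import Pool.Agent.H71.FUL.Fue
import Pool.Agent.H57.AVG.Cgp

/-!
# The moved place 2 is full at almost every window

`aePG_vful`: `VfQ 2` from `FulQ`, if the slope of the place `1` is at most the slope of the place `2`.
-/

set_option autoImplicit false

namespace Pool.FUL71

open Finset Real MvPolynomial MeasureTheory Filter
open Pool.Agent.H49.Ent Pool.Agent.H32.Dense Pool.STK Pool.KA Pool.KSAT Pool.K2S Pool.PB Pool.S6C
open Pool.GEN Pool.CHT Pool.CHX Pool.ISO Pool.RCD Pool.LA91 Pool.AVG96 Pool.AVG50 Pool.CDX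
open Pool.PKG Pool.OWN68 Pool.OWN83 Pool.D2F2 Pool.AVG57 Pool.FUL95
open Pool.TOP (TopS)

/-- **The moved place 2 is full**, as a property of the windows, from the fullness of the places
`1`, `2` behind their own paths. -/
theorem aePG_vful {n : ℕ} (hn4 : 4 ≤ n) {Φ : (ℕ → ℝ) → Prop}
    (hful : AePG n (FulQ Φ : PropG n Unit)) :
    AePG n (VfQ 2 (fun Sl => Φ Sl ∧ Sl 1 ≤ Sl 2) : PropG n Unit) := by
  intro hn S P r P' Λ PB PQ H hTop hF o G hG hGs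
  obtain ⟨S₂, b1, b2, b3⟩ := asmC_all H.toPkT hTop hF hG hGs (v := 2) (by norm_num) (by omega)
  have H₂ := H.sub b1 b2
  obtain ⟨S₃, c1, c2, c3⟩ := hful hn S₂ P r P' Λ PB PQ H₂ hTop hF o G hG hGs
  refine ⟨S₃, c1, fun τ J F A h => b2 τ J F A (c2 τ J F A h), ?_⟩
  have hall : ∀ᵐ g : ℝ, ∀ x : {x : ℚ × ℚ × ℚ // 0 ≤ x.1 ∧ 0 < x.2.2 ∧ x.2.1 + x.2.2 ≤ 1},
      (x.1.1 : ℝ) < g → g < x.1.2.1 → ∀ Sl : ℕ → ℝ,
      SlpG (fun w l => LvL hn P P' o l w w) 1 3 G g Sl → Sl 1 ≤ Sl 2 →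
      FulG S₃ (cc hn o.1.1) (fun w l => LvL hn P P' o l w w) G g →
      VfG S₃ (cc hn o.1.1) 1 2 x.1.1 x.1.2.1 x.1.2.2 (fun w l => LvL hn P P' o l w w) G g Sl := by
    rw [ae_all_iff]
    rintro ⟨⟨A, B, Λ'⟩, k1, k2, k3⟩
    have k1' : (0 : ℝ) ≤ (A : ℝ) := by exact_mod_cast k1
    have k2' : (0 : ℝ) < (Λ' : ℝ) := by exact_mod_cast k2
    have k3' : (B : ℝ) + Λ' ≤ 1 := by exact_mod_cast k3
    by_cases hAB : (A : ℝ) < B
    · exact vfG_ful ((b3 A B Λ' k1' k2' k3' (by linarith) (by linarith)).sub c1 c2)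
    · exact Eventually.of_forall fun g h1 h2 => absurd (h1.trans h2) hAB
  filter_upwards [hall, gap_ae hG, c3] with g h1 h2 h3 hg κ hκ p
  refine ⟨0, fun Sl hd hΦ hS A B Λ' hA hAg hgB hΛ hB => ?_⟩
  obtain ⟨_, h4⟩ := h3 hg κ hκ p
  have hslp : SlpG (fun w l => LvL hn P P' o l w w) 1 3 G g Sl :=
    slpG_of (fun l l0 l1 => by linarith [hS l l0 l1]) (fun l l0 l1 => hS l l0 (by omega))
      (fun l l0 l1 => (hd l l0 l1).hasDerivWithinAt) (h2 hg)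
  exact h1 ⟨(A, B, Λ'), hA, hΛ, hB⟩ hAg hgB Sl hslp hΦ.2 (h4 Sl hd hΦ.1 hS)

/-- The slope of the place `1` is less than the slope of the place `2`. -/
theorem aePG_vf_lt {n : ℕ} (hn4 : 4 ≤ n)
    (hful : AePG n (FulQ (fun Sl => Sl 1 ≠ Sl 2) : PropG n Unit)) :
    AePG n (VfQ 2 (fun Sl => Sl 1 < Sl 2) : PropG n Unit) := by
  intro hn S P r P' Λ PB PQ H hTop hF o G hG hGs
  obtain ⟨S', h1, h2, h3⟩ := aePG_vful hn4 hful hn S P r P' Λ PB PQ H hTop hF o G hG hGs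
  refine ⟨S', h1, h2, ?_⟩
  filter_upwards [h3] with g h4 hg κ hκ p
  obtain ⟨k₀, h5⟩ := h4 hg κ hκ p
  exact ⟨k₀, fun Sl hd hΦ => h5 Sl hd ⟨ne_of_lt hΦ, le_of_lt hΦ⟩⟩

end Pool.FUL71
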