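import Pool.Agent.H71.FUL.Fud
import Pool.Agent.H50.AVG.Asf

/-!
# The moved place 2 is full in the boxes, from the fullness of both places

`t2n_box`: the numbers `T2N` of a box. `vfG_ful`: at almost every `g`: `VfG` for the place `2` of the
chain from `FulG`, if the slope of the place `1` is at most the slope of the place `2`.
-/

set_option autoImplicit false

namespace Pool.FUL71

open Finset Real MvPolynomial MeasureTheory Filter
open Pool.Agent.H49.Ent Pool.Agent.H32.Dense Pool.STK Pool.KA Pool.KSAT Pool.K2S Pool.PB Pool.S6C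
open Pool.GEN Pool.RCD Pool.LA91 Pool.AVG96 Pool.AVG57 Pool.FUL95 Pool.OWN83 Pool.AVG50

/-- **The numbers of a box.** `R`: the scale; `β₀`: the distance of the earlier window; `κ₁`: small. -/
theorem t2n_box {sn : ℝ → ℕ → ℝ} {G : Set ℝ} {Sl : ℕ → ℝ} {b w j x Λ δW q ξ μ ν φ' C Cd R M β₀ κ₁ τ
    L p₀ p₁ : ℝ} {p s D : ℕ → ℝ} (N : Bx2 sn 1 2 Sl w j x δW q ξ μ ν φ' (C * R) p s)
    (hR : 0 < R) (hC : 0 < C) (hCd : 0 < Cd) (hD : D 1 ≤ Cd)
    (hM : 1 ≤ M) (hM2 : Sl 2 ≤ M) (hS : Sl 1 ≤ Sl 2) (hS1 : 1 ≤ Sl 1)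
    (hβ₀ : β₀ = 4 * C + Cd + 1) (hκ0 : 0 < κ₁) (hκ1 : κ₁ ≤ 1) (hτ : τ = κ₁ / (24 * M))
    (hL : L = β₀ + C + 3) (hb1 : w - β₀ * R - R ≤ b) (hb2 : b ≤ w - β₀ * R)
    (hb : b ∈ G) (hw : w ∈ G)
    (hm1 : sn b 1 ≤ sn w 1)
    (hsl : ∀ l, 1 ≤ l → l ≤ 2 → ∀ u ∈ G, ∀ v ∈ G, b ≤ u → u ≤ v → v ≤ w →
      |sn v l - sn u l - Sl l * (v - u)| ≤ κ₁ / 8 * R)
    (gap : ∀ x, b ≤ x → x ≤ w → ∃ v ∈ G, |v - x| ≤ τ * R)
    (hΛ : (2 * (M * (β₀ + 1) + 1) + 6 * C + L + β₀ + 4) * R ≤ Λ) :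
    T2N sn G b w Λ p (nB 1 p₀ sn w D R) (nB 1 p₁ sn w D R)
      (sn w 2 - sn b 2 + q + κ₁ * R)
      (sn w 1 - sn b 1 + (sn w 2 - sn b 2 + q + κ₁ * R) + L * R)
      (sn w 2 - sn b 2 + q + ξ) (s 2 + q) (s 2 + q + ξ) (s 2 + (q + ξ + μ + ν) - w)
      (sn w 2 - sn b 2 + q + κ₁ * R + ξ + R) (q + ξ + μ + ν + φ' + κ₁ / 8 * R)
      (κ₁ / 8 * R) (τ * R) := by
  have hs2 := N.sc 2 (by norm_num) (by norm_num)
  have hq := N.q0
  have hξ := N.ξ0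
  have hμ := N.μ0
  have hν := N.ν0
  have hqC := N.qC
  have hφν := N.φν
  have hwx := N.wx
  have hp1 := N.pc 1 le_rfl (by norm_num)
  have hp2 := N.pc 2 (by norm_num) (by norm_num)
  have hxn1 := N.xn 1 le_rfl (by norm_num)
  have hS0 : 0 ≤ Sl 1 := by linarith
  have hS2 : 0 ≤ Sl 2 := hS0.trans hS
  have hφ0 : 0 ≤ φ' := by linarith [hp1.1, hp1.2]
  have hνq : ν ≤ q := by linarith [mul_nonneg hS0 (show 0 ≤ x - w by linarith)]
  have hτ0 : 0 < τ := by rw [hτ]; positivity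
  have hMτ : 24 * M * τ = κ₁ := by rw [hτ]; field_simp
  have hκR : 0 < κ₁ * R := by positivity
  have hκR1 : κ₁ * R ≤ R := by
    have := mul_le_mul_of_nonneg_right hκ1 hR.le
    linarith
  have hMτR : 24 * (M * (τ * R)) = κ₁ * R := by rw [← hMτ]; ring
  have hτR : 0 < τ * R := by positivity
  have hβR : β₀ * R = 4 * (C * R) + Cd * R + R := by rw [hβ₀]; ring
  have hCR : 0 < C * R := by positivity
  have hCdR : 0 < Cd * R := by positivity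
  have hLR : L * R = β₀ * R + C * R + 3 * R := by rw [hL]; ring
  have hDR : D 1 * R ≤ Cd * R := mul_le_mul_of_nonneg_right hD hR.le
  have e8 : κ₁ / 8 * R = κ₁ * R / 8 := by ring
  have n1 : ∀ t : ℝ, nB 1 t sn w D R 1 = sn w 1 + D 1 * R := fun t => nB_ge le_rfl
  have hbw : b ≤ w := by linarith
  -- the levels
  have k1 := abs_le.1 (hsl 1 le_rfl (by norm_num) b hb w hw le_rfl hbw le_rfl)
  have k2 := abs_le.1 (hsl 2 (by norm_num) le_rfl b hb w hw le_rfl hbw le_rfl)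
  rw [e8] at k1 k2
  have sβ : Sl 1 * (w - b) ≤ Sl 2 * (w - b) :=
    mul_le_mul_of_nonneg_right hS (by linarith)
  have sM : Sl 2 * (w - b) ≤ M * (β₀ + 1) * R := by
    have h1 : Sl 2 * (w - b) ≤ M * (w - b) := mul_le_mul_of_nonneg_right hM2 (by linarith)
    have h2 : M * (w - b) ≤ M * ((β₀ + 1) * R) :=
      mul_le_mul_of_nonneg_left (by linarith) (by linarith)
    linarith
  have s0 : 1 * (w - b) ≤ Sl 1 * (w - b) := mul_le_mul_of_nonneg_right hS1 (by linarith)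
  have hΛ' : 2 * (M * (β₀ + 1) * R) + 2 * R + 6 * (C * R) + L * R + β₀ * R + 4 * R ≤ Λ := by
    have : (2 * (M * (β₀ + 1) + 1) + 6 * C + L + β₀ + 4) * R = 2 * (M * (β₀ + 1) * R) + 2 * R +
      6 * (C * R) + L * R + β₀ * R + 4 * R := by ring
    linarith
  have mesh : ∀ low ∈ G, ∀ up ∈ G, b ≤ low → low ≤ up → up ≤ w → up ≤ low + 3 * (τ * R) →
      (sn up 1 - sn b 1) - (sn low 2 - sn b 2) ≤ 3 / 8 * (κ₁ * R) := by
    intro low hl up hu q1 q2 q3 q4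
    have m1 := (abs_le.1 (hsl 1 le_rfl (by norm_num) b hb up hu le_rfl (q1.trans q2) q3)).2
    have m2 := (abs_le.1 (hsl 2 (by norm_num) le_rfl b hb low hl le_rfl q1 (q2.trans q3))).1
    rw [e8] at m1 m2
    have m3 : Sl 1 * (up - b) ≤ Sl 2 * (up - b) := mul_le_mul_of_nonneg_right hS (by linarith)
    have m4 : Sl 2 * (up - low) ≤ Sl 2 * (3 * (τ * R)) :=
      mul_le_mul_of_nonneg_left (by linarith) hS2
    have m5 : Sl 2 * (3 * (τ * R)) ≤ M * (3 * (τ * R)) :=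
      mul_le_mul_of_nonneg_right hM2 (by positivity)
    have m6 : Sl 2 * (up - b) = Sl 2 * (up - low) + Sl 2 * (low - b) := by ring
    linarith
  rw [e8, hs2]
  exact
  { σ0 := by positivity
    δ0 := hτR
    gap := gap
    p1 := hp1.2
    p2 := hp2.2
    l2 := by linarith
    l12 := by linarith
    a1 := by linarith
    a2 := by linarith
    a4 := by
      rw [n1]
      linarith
    a5 := by
      rw [n1]
      linarith
    b1 := by linarith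
    b2 := by linarith
    b3 := by linarith
    c1 := by linarith [hp2.1]
    c2 := by linarith
    c3 := by linarith [hp2.1]
    c4 := by linarith
    c5 := by linarith [hp2.1]
    c6 := by linarith
    P2 := by linarith
    PN := by linarith
    d1 := fun low hl up hu q1 q2 q3 q4 => by linarith [mesh low hl up hu q1 q2 q3 q4]
    d2 := fun low hl up hu q1 q2 q3 q4 => by linarith [mesh low hl up hu q1 q2 q3 q4]
    d3 := by linarith
    L1 := by linarith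
    L2 := by linarith [hp1.1]
    L3 := by linarith [hp1.1]
    L4 := by linarith
    L5 := by linarith }

/-- **The moved place 2 is full in the boxes** at almost every `g`, from the fullness of the places
`1`, `2` behind their own paths. -/
theorem vfG_ful {m : ℕ} {S : PCl m} {c : ℕ → Fin m} {s₀ A B Λ : ℝ} {sn : ℝ → ℕ → ℝ} {G : Set ℝ}
    (X : AsmC S c 1 2 s₀ A B Λ sn G) :
    ∀ᵐ g : ℝ, A < g → g < B → ∀ Sl : ℕ → ℝ, SlpG sn 1 3 G g Sl → Sl 1 ≤ Sl 2 →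
      FulG S c sn G g → VfG S c 1 2 A B Λ sn G g Sl := by
  obtain ⟨γ, y, h⟩ := X.gch
  have key : ∀ᵐ g : ℝ, ∀ x : {x : ℚ × ℚ × ℚ × ℚ × ℚ //
      IxV A B Λ x.1 x.2.1 x.2.2.1 x.2.2.2.1 x.2.2.2.2}, (x.1.1 : ℝ) < g → g < x.1.2.1 →
      ∀ Sl : ℕ → ℝ, SlpG sn 1 3 G g Sl → ∀ e κ C δ : ℝ, 0 < e → 0 < κ → 0 < C → 0 < δ →
      ∃ a : ℕ → ℝ, (∀ l, 1 ≤ l → l ≤ 3 → a l ∈ G ∧ g < a l ∧ a l < g + δ ∧
        a l < (x.1.2.1 : ℝ)) ∧
        ∃ (lv : ℕ → ℝ) (σ₀ ρ : ℝ), 0 < ρ ∧ (x.1.1 : ℝ) < g - ρ ∧ g + ρ < (x.1.2.1 : ℝ) ∧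
          FarR sn G 1 3 a (x.1.2.2.1 : ℝ) (g - ρ) (g + ρ) lv σ₀ ∧ C * ρ ≤ σ₀ / 2 ∧
          C * ρ + σ₀ / 2 ≤ (x.1.2.2.1 : ℝ) ∧
          ∀ R : ℝ, 0 < R → R < ρ → ∀ w ∈ G, ∀ j : ℝ, g - R ≤ w → w ≤ j → j ≤ g + R →
            ∀ (d : ℝ) (D : ℕ → ℕ → ℝ), d ≤ C * R →
            (∀ l, 1 ≤ l → l < 3 → Sl l * (j - w) + κ * R ≤ d) →
            (∀ l, 1 ≤ l → l < 3 → ∀ j' ≤ 1, sn w l - (j' : ℕ) * w + d ≤ D l j' ∧
              D l j' ≤ sn w l - (j' : ℕ) * w + C * R) →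
            MIw S (fun J F => ptr F J) (yZT ((range 1).image c) x.1.2.2.2.1 x.1.2.2.2.2) w j
              (jetQ m c 1 3 w (sn w) (nD sn a)) (jetQ m c 1 3 w (sn w) D) (e * R) := by
    rw [ae_all_iff]
    intro x
    filter_upwards [mj_G (gch_ix h x.2 kn_yZT) (X.hnum _ _ _ _ _ x.2) (by norm_num)] with g hg gA gB
      Sl hSl e κ C δ he hκ hC hδ
    obtain ⟨a, ha, lv, σ₀, ρ, hρ, h1, h2, h3, h4, h5, h6⟩ := hg gA gB Sl hSl e κ C δ he hκ hC hδ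
    exact ⟨a, ha, lv, σ₀, ρ, hρ, h1, h2, h3, h4, h5,
      fun R hR hRρ w hw j w1 w2 w3 d D d1 d2 d3 => (h6 R hR hRρ w hw j w1 w2 w3 d D d1 d2 d3).1⟩
  filter_upwards [key] with g hg hgA hgB Sl hSl hS hful e C Cd he hC hCd
  have hS1 := hSl.gt 1 le_rfl (by norm_num)
  -- the constants
  obtain ⟨M, hM, hM2⟩ : ∃ M : ℝ, 1 ≤ M ∧ Sl 2 ≤ M :=
    ⟨max 1 (Sl 2), le_max_left _ _, le_max_right _ _⟩
  obtain ⟨β₀, hβ₀⟩ : ∃ β₀ : ℝ, β₀ = 4 * C + Cd + 1 := ⟨_, rfl⟩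
  obtain ⟨κ₁, hκ0, hκ1, hκe⟩ : ∃ κ₁ : ℝ, 0 < κ₁ ∧ κ₁ ≤ 1 ∧ κ₁ ≤ e / 4 :=
    ⟨min 1 (e / 4), lt_min one_pos (by positivity), min_le_left _ _, min_le_right _ _⟩
  obtain ⟨τ, hτ⟩ : ∃ τ : ℝ, τ = κ₁ / (24 * M) := ⟨_, rfl⟩
  obtain ⟨L, hL⟩ : ∃ L : ℝ, L = β₀ + C + 3 := ⟨_, rfl⟩
  have hM0 : 0 < M := by linarith
  have hβ0 : 0 < β₀ := by rw [hβ₀]; positivity
  have hL0 : 0 < L := by rw [hL]; positivity
  have hτ0 : 0 < τ := by rw [hτ]; positivity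
  obtain ⟨M₁, hM₁⟩ : ∃ M₁ : ℝ, M₁ = β₀ + 2 := ⟨_, rfl⟩
  have hM₁0 : 0 < M₁ := by rw [hM₁]; positivity
  have hM₁1 : 1 ≤ M₁ := by rw [hM₁]; linarith
  obtain ⟨C', hC'⟩ : ∃ C' : ℝ, C' = 2 * (M * (β₀ + 1) + 1) + 6 * C + L + β₀ + 4 := ⟨_, rfl⟩
  have hC'0 : 0 < C' := by rw [hC']; positivity
  have hMβ : 0 < M * (β₀ + 1) := by positivity
  have hC'M : M₁ ≤ C' := by rw [hC', hM₁]; linarith
  obtain ⟨k, φ, hφ, hful⟩ := hful 1 κ₁ C' hκ0 hC'0
  refine ⟨k, 1, one_pos, fun A₁ B₁ Λ₁ p₀ lam hx g1 g2 g3 => ?_⟩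
  have hc := gch_ix h hx (y' := yZT ((range 1).image c) (p₀ : ℝ) lam) kn_yZT
  have hyk : YkV ((range 1).image c) ((1 / 8) ^ k)
      (yZT (m := m) ((range 1).image c) (p₀ : ℝ) lam) :=
    ykV_of hx.p1 g3 fun J F => ⟨fun x => (x.1.2, x.1.1, x.2.1, x.2.2), fun _ => rfl⟩
  obtain ⟨ρ₁, hρ₁, H1⟩ := hful _ _ hyk
  obtain ⟨a, -, lv, σ₀, ρ₂, hρ₂, r1, r2, hF, hCσ, hCΛ, H2⟩ :=
    hg ⟨(A₁, B₁, Λ₁, p₀, lam), hx⟩ g1 g2 Sl hSl (e / (8 * M₁)) (κ₁ / (4 * M₁)) C' 1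
      (by positivity) (by positivity) hC'0 one_pos
  obtain ⟨ρ₃, hρ₃, H3⟩ := hSl.sl 1 le_rfl (by norm_num) (κ₁ / 8 / M₁) (by positivity)
  obtain ⟨ρ₄, hρ₄, H4⟩ := hSl.sl 2 (by norm_num) (by norm_num) (κ₁ / 8 / M₁) (by positivity)
  obtain ⟨ρ₅, hρ₅, H5⟩ := hSl.gap (τ / M₁) (by positivity)
  obtain ⟨ρ, hρ, q1, q2, q3, q4, q5⟩ : ∃ ρ : ℝ, 0 < ρ ∧ ρ ≤ ρ₁ ∧ M₁ * ρ ≤ ρ₂ ∧ M₁ * ρ ≤ ρ₃ ∧
      M₁ * ρ ≤ ρ₄ ∧ M₁ * ρ ≤ ρ₅ := by
    refine ⟨min ρ₁ (min (ρ₂ / M₁) (min (ρ₃ / M₁) (min (ρ₄ / M₁) (ρ₅ / M₁)))), by positivity,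
      min_le_left _ _, ?_, ?_, ?_, ?_⟩
    · rw [mul_comm, ← le_div_iff₀ hM₁0]
      exact (min_le_right _ _).trans (min_le_left _ _)
    · rw [mul_comm, ← le_div_iff₀ hM₁0]
      exact (min_le_right _ _).trans ((min_le_right _ _).trans (min_le_left _ _))
    · rw [mul_comm, ← le_div_iff₀ hM₁0]
      exact (min_le_right _ _).trans ((min_le_right _ _).trans ((min_le_right _ _).trans
        (min_le_left _ _)))
    · rw [mul_comm, ← le_div_iff₀ hM₁0]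
      exact (min_le_right _ _).trans ((min_le_right _ _).trans ((min_le_right _ _).trans
        (min_le_right _ _)))
  refine ⟨ρ, hρ, fun R hR hRρ w hw j x w1 x2 δW q ξ μ ν φ' p s D hD N hφ' => ?_⟩
  have hRM : M₁ * R < M₁ * ρ := mul_lt_mul_of_pos_left hRρ hM₁0
  have hMR : 0 < M₁ * R := by positivity
  have hMR' : M₁ * R = β₀ * R + 2 * R := by rw [hM₁]; ring
  have hwx := N.wx
  have hq := N.q0
  have hξ := N.ξ0
  have hμ := N.μ0
  have hν := N.ν0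
  have hqC := N.qC
  obtain ⟨D1, D2, -⟩ := hD 1 le_rfl (by norm_num)
  -- the trivial case
  rcases lt_or_ge ξ (κ₁ * R) with hξκ | hξκ
  · refine ⟨1, one_pos, 1, one_pos, fun K => Bas.mono 0 (pos_bas h.pos) ?_⟩
    rintro J - F A' hA' V₁ V₂ z zx hz hzx u₀ a' b d hu₀ ha hb hd
    refine le_trans ?_ (CH_nonneg (isLaw_cond F.isLaw hA').nonneg _ _)
    refine mul_nonpos_of_nonpos_of_nonneg ?_ (Nat.cast_nonneg J)
    have h2 := Real.log_two_lt_d9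
    have h3 : 0 < Real.log 2 := Real.log_pos one_lt_two
    have h4 : κ₁ * R ≤ e / 4 * R := mul_le_mul_of_nonneg_right hκe hR.le
    have h5 : ξ * Real.log 2 ≤ ξ * 1 := mul_le_mul_of_nonneg_left (by linarith) hξ.le
    have h6 : 0 < e * R := by positivity
    have h7 : s 2 + q + ξ - (s 2 + q) = ξ := by ring
    rw [h7]
    linarith
  -- the earlier window
  have hCR' : M₁ * R ≤ C' * R := mul_le_mul_of_nonneg_right hC'M hR.le
  have hβR : 0 < β₀ * R := by positivity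
  have hκR : κ₁ * R ≤ 1 * R := mul_le_mul_of_nonneg_right hκ1 hR.le
  have hκR0 : 0 < κ₁ * R := by positivity
  obtain ⟨b, hb, b1, b2, hfu⟩ := H1 R hR (hRρ.trans_le q1) (w - β₀ * R) (by linarith)
    (by linarith)
  have hb1 : w - β₀ * R - R ≤ b := by linarith
  have hbw : b ≤ w := by linarith
  have hbg : g - M₁ * R ≤ b := by linarith
  have hwg : w ≤ g + M₁ * R := by linarith
  have hsl : ∀ l, 1 ≤ l → l ≤ 2 → ∀ u ∈ G, ∀ v ∈ G, b ≤ u → u ≤ v → v ≤ w →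
      |sn v l - sn u l - Sl l * (v - u)| ≤ κ₁ / 8 * R := by
    intro l l0 l1 u hu v hv h1 h2 h3
    have e1 : κ₁ / 8 / M₁ * (M₁ * R) = κ₁ / 8 * R := by field_simp
    rcases Nat.lt_or_ge l 2 with h4 | h4
    · obtain rfl : l = 1 := by omega
      rw [← e1]
      exact H3 (M₁ * R) hMR (hRM.trans_le q3) u hu v hv (by linarith) h2 (by linarith)
    · obtain rfl : l = 2 := by omega
      rw [← e1]
      exact H4 (M₁ * R) hMR (hRM.trans_le q4) u hu v hv (by linarith) h2 (by linarith)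
  have hgap : ∀ x, b ≤ x → x ≤ w → ∃ v ∈ G, |v - x| ≤ τ * R := by
    intro x h1 h2
    obtain ⟨u, hu, u1, u2⟩ := H5 (M₁ * R) hMR (hRM.trans_le q5) x (by linarith) (by linarith)
    have e1 : τ / M₁ * (M₁ * R) = τ * R := by field_simp
    rw [e1] at u1
    refine ⟨u, hu, ?_⟩
    rw [abs_le]
    constructor <;> linarith
  have hCρ : C' * (M₁ * R) ≤ C' * ρ₂ := mul_le_mul_of_nonneg_left (by linarith) hC'0.le
  have hCM : C' * R ≤ C' * (M₁ * R) := by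
    have h1 : 1 * R ≤ M₁ * R := mul_le_mul_of_nonneg_right hM₁1 hR.le
    exact mul_le_mul_of_nonneg_left (by linarith) hC'0.le
  have hσ := hF.σ0
  have hbρ : g - ρ₂ < b := by linarith
  have hwρ : w < g + ρ₂ := by linarith
  have hm : ∀ l, 1 ≤ l → l ≤ 2 → sn b l ≤ sn w l := fun l l0 l1 =>
    hc.mono' l0 (by omega) hb hw (by linarith) hbw (by linarith)
  have T := t2n_box (p₀ := p₀) (p₁ := (lam : ℝ) + w) (Λ := (Λ₁ : ℝ)) N hR hC hCd D2 hM hM2 hS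
    hS1.le hβ₀ hκ0 hκ1 hτ hL hb1 b2 hb hw (hm 1 le_rfl (by norm_num)) hsl hgap (by
      rw [← hC']
      linarith)
  -- the levels
  have k1 := abs_le.1 (hsl 1 le_rfl (by norm_num) b hb w hw le_rfl hbw le_rfl)
  have k2 := abs_le.1 (hsl 2 (by norm_num) le_rfl b hb w hw le_rfl hbw le_rfl)
  have sM : Sl 2 * (w - b) ≤ M * (β₀ + 1) * R := by
    have h1 : Sl 2 * (w - b) ≤ M * (w - b) := mul_le_mul_of_nonneg_right hM2 (by linarith)
    have h2 : M * (w - b) ≤ M * ((β₀ + 1) * R) :=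
      mul_le_mul_of_nonneg_left (by linarith) (by linarith)
    linarith
  have sβ : Sl 1 * (w - b) ≤ Sl 2 * (w - b) := mul_le_mul_of_nonneg_right hS (by linarith)
  have e8 : κ₁ / 8 * R = κ₁ * R / 8 := by ring
  rw [e8] at k1 k2
  have hC'R : C' * R = 2 * (M * (β₀ + 1) * R) + 2 * R + 6 * (C * R) + L * R + β₀ * R + 4 * R := by
    rw [hC']
    ring
  have hLR : 0 < L * R := by positivity
  have hCR : 0 < C * R := by positivity
  have hm1 := hm 1 le_rfl (by norm_num)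
  have hm2 := hm 2 (by norm_num) le_rfl
  have hN₁ : sn w 1 - sn b 1 + (sn w 2 - sn b 2 + q + κ₁ * R) + L * R ≤ C' * R := by linarith
  have hN₂ : sn w 2 - sn b 2 + q + ξ ≤ C' * R := by linarith
  -- the record of `x`
  have hmi := H2 (M₁ * R) hMR (hRM.trans_le q2) b hb x hbg (hbw.trans hwx) (by linarith)
    (sn w 2 - sn b 2 + q + κ₁ * R) (ndb sn b (sn w 2 - sn b 2 + q + κ₁ * R)) (by linarith)
    (fun l l0 l1 => by
      have e1 : κ₁ / (4 * M₁) * (M₁ * R) = κ₁ * R / 4 := by field_simp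
      have e2 : Sl l * (x - b) = Sl l * (x - w) + Sl l * (w - b) := by ring
      have e3 := N.xn l l0 (by omega)
      have e4 : Sl l * (w - b) ≤ Sl 2 * (w - b) := by
        rcases Nat.lt_or_ge l 2 with h4 | h4
        · obtain rfl : l = 1 := by omega
          exact sβ
        · obtain rfl : l = 2 := by omega
          exact le_rfl
      rw [e1, e2]
      linarith)
    (fun l l0 l1 j' hj' => by
      unfold ndb
      constructor <;> linarith)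
  have e1 : e / (8 * M₁) * (M₁ * R) = e / 8 * R := by field_simp
  rw [e1] at hmi
  refine vfC_raw T hF hc r1.le r2.le hb hw hbρ hbw hwρ hwx (by linarith [hc.B1])
    (by linarith) (by linarith) (by linarith) (by linarith)
    (hfu (sn b) _ _ _ (by linarith) T.PN (by linarith) hN₁ hN₂
      (fun l _ _ => by linarith [mul_pos hφ hR])) hmi ?_
  have h2 := Real.log_two_lt_d9
  have h3 : 0 < Real.log 2 := Real.log_pos one_lt_two
  have h4 : κ₁ * R ≤ e / 4 * R := mul_le_mul_of_nonneg_right hκe hR.le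
  have h5 : κ₁ * R * Real.log 2 ≤ κ₁ * R * 1 := mul_le_mul_of_nonneg_left (by linarith) hκR0.le
  have h6 : 0 < e * R := by positivity
  have h7 : (s 2 + q + ξ - (s 2 + q)) * Real.log 2 = ξ * Real.log 2 := by ring
  have h8 : (sn w 2 - sn b 2 + q + ξ - (sn w 2 - sn b 2 + q + κ₁ * R)) * Real.log 2 =
      ξ * Real.log 2 - κ₁ * R * Real.log 2 := by ring
  rw [h7, h8]
  linarith

end Pool.FUL71
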