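import Pool.Agent.H71.FUL.Fuq
import Pool.Agent.H71.FUL.Fue
import Pool.Agent.H50.AVN.Vfp
import Pool.Agent.H71.CDX.Cus

/-!
# The pair of places is full in the boxes, from the fullness of both places

`vfP_raw`: `VfP` at one box. `p2n_box`: the numbers `P2N` of a box. `vfPG_ful`: at almost every `g`:
`VfPG` for the places `1`, `2` of the chain from `FulG`, if the slope of the place `2` is at most the
slope of the place `1`, and the latter is less than the former plus `1`.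
-/

set_option autoImplicit false

namespace Pool.FUL71

open Finset Real MvPolynomial MeasureTheory Filter
open Pool.Agent.H49.Ent Pool.Agent.H32.Dense Pool.STK Pool.KA Pool.KSAT Pool.K2S Pool.PB Pool.S6C
open Pool.GEN Pool.RCD Pool.LA91 Pool.AVG96 Pool.AVG57 Pool.FUL95 Pool.OWN83 Pool.AVG50
open Pool.OWN68 Pool.CDX

section raw

variable {m : ℕ} {γ : ∀ J : ℕ, Fam m J → Type} {S : PCl m} {c : ℕ → Fin m}
  {y : ∀ (J : ℕ) (F : Fam m J), F.Ω → γ J F} {s A B Λ : ℝ} {sn : ℝ → ℕ → ℝ} {G : Set ℝ}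
  {a : ℕ → ℝ} {A' B' σ₀ : ℝ} {lv : ℕ → ℝ} {b w x : ℝ}

/-- **The pair of places is full** in one box. -/
theorem vfP_raw {p n n' : ℕ → ℝ} {P M₁ N₁ N₂ Na Nb Nd Mu Mb σ δ η ε θ η₀ : ℝ} {K : ℕ}
    (T : P2N sn G b w Λ p P M₁ N₁ N₂ Na Nb Nd Mu Mb σ δ)
    (hF : FarR sn G 1 3 a Λ A' B' lv σ₀)
    (h : GCh S (fun J F => ptr F J) y c 1 3 s A B Λ sn G) (hA : A ≤ A') (hB : B' ≤ B)
    (hb : b ∈ G) (hw : w ∈ G) (hbA : A' < b) (hbw : b ≤ w) (hwB : w < B') (hwx : w ≤ x)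
    (hx : x ≤ 1) (hN₁ : N₁ ≤ σ₀ / 2) (hN₂ : N₂ ≤ σ₀ / 2) (hNΛ : N₁ + σ₀ / 2 ≤ Λ)
    (hNΛ' : N₂ + σ₀ / 2 ≤ Λ) (hL : FulP S y c 1 b (sn b) (sn b) P N₁ N₂ η)
    (hM : MIw S (fun J F => ptr F J) y b x (jetQ m c 1 3 b (sn b) (nD sn a))
      (jetQ m c 1 3 b (sn b) (ndb sn b P)) ε) (hη₀ : 0 < η₀)
    (hh : ∃ e : ℝ, 0 < e ∧ ∀ j : ℕ, 2 ≤ j → j ≤ K + 2 → F1 S (fun J F => ptr F J) (vg w) y
      (nh m c sn b P M₁) (qJet m ((range 2).image c) (c 2) j w (p 2) (Mu - (j : ℕ) * w)) e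
      ((2 * (K + 2 + 1) : ℕ) * η₀ + η₀))
    (hθ : ((Nb - Na) + (Mb - Mu)) * Real.log 2 - θ <
      (((N₁ - P) + (N₂ - P)) * Real.log 2 - η) - ε - (M₁ - P) * Real.log 2 -
        (Mu - (sn b 2 + P)) * Real.log 2 -
        ((3 * (K + 2 + 1) : ℕ) * ((2 * (K + 2 + 1) : ℕ) * η₀ + η₀)) -
        (sn b 1 + N₁ - Nb) * Real.log 2) :
    VfP S y c 1 1 K w x p n n' Na Nb Nd Mu Mb θ := by
  have hbB : b < B' := hbw.trans_lt hwB
  have hA1 : A ≤ b := by linarith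
  have hB1 : w < B := by linarith
  have hσ := T.σ0
  have hL' : LowN S (fun J F => ptr F J) (vg b) y (jetQ m c 1 3 b (sn b) (ndb sn b P))
      ((qJet m ((range 1).image c) (c 1) 0 b (sn b 1) (sn b 1 + N₁)).prod
        (qJet m ((range 2).image c) (c 2) 0 b (sn b 2) (sn b 2 + N₂)))
      (((N₁ - P) + (N₂ - P)) * Real.log 2 - η) := hL
  exact vfP_t2 h.pos hwx hx hL' (more1 h hb hA1 (by linarith) hσ (by linarith [T.LP]) T.PM) hM
    (far1 hF h hA hB hb hbA hbB hN₁ hNΛ) (far2 hF h hA hB hb hbA hbB hN₂ hNΛ')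
    (gu0 h.pos) (T.ga h hw hA1 hbw hB1) (T.gd h hw hA1 hbw hB1)
    (more_digits h.pos T.MuP (T.gh0 h hb hw hA1 hbw hB1))
    (T.g5 h hb hw hA1 hbw hB1 hη₀ hh) (T.g6 h hw hA1 hbw hB1) (T.g7 h hb hw hA1 hbw hB1)
    (h.exsjs hb hA1 (by linarith) le_rfl 1 _)
    (h.exsj hb hA1 (by linarith) (by norm_num) (by norm_num) 0 _)
    (h.exsj hb hA1 (by linarith) (by norm_num) (by norm_num) 0 _)
    (h.exsj hb hA1 (by linarith) (by norm_num) (by norm_num) 0 _)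
    (h.exsjs hb hA1 (by linarith) le_rfl 1 _) hθ

end raw

/-- **The numbers of a box.** `R`: the scale; `κ`: small; `u`: the unit. -/
theorem p2n_box {sn : ℝ → ℕ → ℝ} {G : Set ℝ} {Sl : ℕ → ℝ}
    {b w j x Λ δW q ξ μ ν φ' C R M D₀ η₁ κ ν₀ τ u β₀ : ℝ} {p s : ℕ → ℝ}
    (N : Bx2 sn 1 2 Sl w j x δW q ξ μ ν φ' (C * R) p s)
    (hR : 0 < R) (hC : 0 < C) (hM : 1 ≤ M) (hM1 : Sl 1 ≤ M) (hS : Sl 2 ≤ Sl 1) (hS2 : 1 ≤ Sl 2)
    (hD : D₀ = Sl 2 + 1 - Sl 1) (hD0 : 0 < D₀) (hη : D₀ * η₁ = 1) (hη0 : 1 ≤ η₁) (hκ0 : 0 < κ)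
    (hκ1 : κ ≤ 1) (hκν : 4 * κ ≤ ν₀) (hν : ν₀ * R ≤ ν) (hu : u = D₀ * κ / 16 * R)
    (hφ : φ' ≤ u) (hτ0 : 0 < τ) (hτ : 3 * (M * (τ * R)) ≤ u)
    (hβ₀ : β₀ = 2 * C * η₁ + 2)
    (hb1 : w - (η₁ * (ξ + μ + ν) + κ * R) - κ * R ≤ b)
    (hb2 : b ≤ w - (η₁ * (ξ + μ + ν) + κ * R)) (hb : b ∈ G) (hw : w ∈ G)
    (hsl : ∀ l, 1 ≤ l → l ≤ 2 → ∀ u' ∈ G, ∀ v ∈ G, b ≤ u' → u' ≤ v → v ≤ w →
      |sn v l - sn u' l - Sl l * (v - u')| ≤ u)
    (gap : ∀ x, b ≤ x → x ≤ w → ∃ v ∈ G, |v - x| ≤ τ * R)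
    (hΛ : (M * β₀ + 2 * β₀ + 4 * C + 4) * R ≤ Λ) :
    P2N sn G b w Λ p (sn w 1 - sn b 1 + (q + ξ + μ + ν) - (w - b))
      (sn w 1 - sn b 1 + q + κ * R) (sn w 1 - sn b 1 + q + ξ + κ * R)
      (sn w 2 - sn b 2 + q + ξ) (s 1 + q) (s 1 + q + ξ) (s 1 + (q + ξ + μ + ν) - w)
      (s 2 + q) (s 2 + q + ξ) u (τ * R) := by
  have hs1 := N.sc 1 le_rfl (by norm_num)
  have hs2 := N.sc 2 (by norm_num) (by norm_num)
  have hq := N.q0
  have hξ := N.ξ0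
  have hμ := N.μ0
  have hν' := N.ν0
  have hqC := N.qC
  have hwx := N.wx
  have hp1 := N.pc 1 le_rfl (by norm_num)
  have hp2 := N.pc 2 (by norm_num) (by norm_num)
  have hxn1 := N.xn 1 le_rfl (by norm_num)
  have hνq : ν ≤ q := by
    linarith [mul_nonneg (show 0 ≤ Sl 1 by linarith) (show 0 ≤ x - w by linarith)]
  have hκR : 0 < κ * R := by positivity
  have hD1 : D₀ ≤ 1 := by linarith
  have hu0 : 0 < u := by rw [hu]; positivity
  have hu16 : 16 * u = D₀ * (κ * R) := by rw [hu]; ring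
  have huκ : 16 * u ≤ κ * R := by
    rw [hu16]
    have := mul_le_mul_of_nonneg_right hD1 hκR.le
    linarith
  have hκR1 : κ * R ≤ R := by
    have := mul_le_mul_of_nonneg_right hκ1 hR.le
    linarith
  have hκνR : 4 * (κ * R) ≤ ν := by
    have := mul_le_mul_of_nonneg_right hκν hR.le
    linarith
  have hτR : 0 < τ * R := by positivity
  obtain ⟨ω, hω⟩ : ∃ ω : ℝ, ω = ξ + μ + ν := ⟨_, rfl⟩
  rw [← hω] at hb1 hb2
  have hω0 : 0 < ω := by rw [hω]; positivity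
  -- the distance of the windows
  have f2 : η₁ * ω + κ * R ≤ w - b := by linarith
  have f3 : w - b ≤ η₁ * ω + 2 * (κ * R) := by linarith
  have f4 : 1 * ω ≤ η₁ * ω := mul_le_mul_of_nonneg_right hη0 hω0.le
  have f0 : ω + 16 * u ≤ D₀ * (w - b) := by
    have h1 := mul_le_mul_of_nonneg_left f2 hD0.le
    have h2 : D₀ * (η₁ * ω + κ * R) = ω + 16 * u := by
      rw [hu16, mul_add, ← mul_assoc, hη, one_mul]
    linarith
  have f1 : D₀ * (w - b) ≤ ω + 32 * u := by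
    have h1 := mul_le_mul_of_nonneg_left f3 hD0.le
    have h2 : D₀ * (η₁ * ω + 2 * (κ * R)) = ω + 32 * u := by
      have : (32 : ℝ) * u = 2 * (D₀ * (κ * R)) := by rw [← hu16]; ring
      rw [this, mul_add, ← mul_assoc, hη, one_mul]
      ring
    linarith
  have hDβ : D₀ * (w - b) = Sl 2 * (w - b) + (w - b) - Sl 1 * (w - b) := by rw [hD]; ring
  have hβ0 : 0 < w - b := by linarith
  have hbw : b ≤ w := by linarith
  have hω2 : ω ≤ 2 * (C * R) := by linarith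
  have hβR : w - b ≤ β₀ * R := by
    have h1 : η₁ * ω ≤ η₁ * (2 * (C * R)) := mul_le_mul_of_nonneg_left hω2 (by linarith)
    have h2 : β₀ * R = η₁ * (2 * (C * R)) + 2 * R := by rw [hβ₀]; ring
    linarith
  have hMβ : Sl 1 * (w - b) ≤ M * β₀ * R := by
    have h1 : Sl 1 * (w - b) ≤ M * (w - b) := mul_le_mul_of_nonneg_right hM1 hβ0.le
    have h2 : M * (w - b) ≤ M * (β₀ * R) := mul_le_mul_of_nonneg_left hβR (by linarith)
    linarith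
  have hSβ : Sl 2 * (w - b) ≤ Sl 1 * (w - b) := mul_le_mul_of_nonneg_right hS hβ0.le
  have hSβ0 : 1 * (w - b) ≤ Sl 2 * (w - b) := mul_le_mul_of_nonneg_right hS2 hβ0.le
  have k1 := abs_le.1 (hsl 1 le_rfl (by norm_num) b hb w hw le_rfl hbw le_rfl)
  have k2 := abs_le.1 (hsl 2 (by norm_num) le_rfl b hb w hw le_rfl hbw le_rfl)
  have hΛ' : M * β₀ * R + 2 * (β₀ * R) + 4 * (C * R) + 4 * R ≤ Λ := by
    have : (M * β₀ + 2 * β₀ + 4 * C + 4) * R = M * β₀ * R + 2 * (β₀ * R) + 4 * (C * R) + 4 * R := by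
      ring
    linarith
  have hCR : 0 < C * R := by positivity
  -- the mesh
  have mesh : ∀ low ∈ G, ∀ up ∈ G, b ≤ low → low ≤ up → up ≤ w → up ≤ low + 3 * (τ * R) →
      (sn up 1 - sn b 1) - (sn low 2 - sn b 2) ≤ Sl 1 * (w - b) - Sl 2 * (w - b) + 3 * u ∧
      (sn w 2 - sn low 2) ≤ (sn w 1 - sn up 1) + 3 * u := by
    intro low hl up hu' q1 q2 q3 q4
    have m1 := (abs_le.1 (hsl 1 le_rfl (by norm_num) b hb up hu' le_rfl (q1.trans q2) q3)).2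
    have m2 := (abs_le.1 (hsl 2 (by norm_num) le_rfl b hb low hl le_rfl q1 (q2.trans q3))).1
    have m3 := (abs_le.1 (hsl 1 le_rfl (by norm_num) up hu' w hw (q1.trans q2) q3 le_rfl)).1
    have m4 := (abs_le.1 (hsl 2 (by norm_num) le_rfl low hl w hw q1 (q2.trans q3) le_rfl)).2
    have m5 : Sl 2 * (up - low) ≤ Sl 2 * (3 * (τ * R)) :=
      mul_le_mul_of_nonneg_left (by linarith) (by linarith)
    have m6 : Sl 2 * (3 * (τ * R)) ≤ M * (3 * (τ * R)) :=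
      mul_le_mul_of_nonneg_right (by linarith) (by positivity)
    have m7 : (Sl 1 - Sl 2) * (up - b) ≤ (Sl 1 - Sl 2) * (w - b) :=
      mul_le_mul_of_nonneg_left (by linarith) (by linarith)
    have m8 : Sl 2 * (w - up) ≤ Sl 1 * (w - up) := mul_le_mul_of_nonneg_right hS (by linarith)
    have e1 : Sl 2 * (low - b) = Sl 2 * (up - b) - Sl 2 * (up - low) := by ring
    have e2 : (Sl 1 - Sl 2) * (up - b) = Sl 1 * (up - b) - Sl 2 * (up - b) := by ring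
    have e3 : (Sl 1 - Sl 2) * (w - b) = Sl 1 * (w - b) - Sl 2 * (w - b) := by ring
    have e4 : Sl 2 * (w - low) = Sl 2 * (w - up) + Sl 2 * (up - low) := by ring
    have e5 : M * (3 * (τ * R)) = 3 * (M * (τ * R)) := by ring
    constructor <;> linarith
  rw [hs1, hs2]
  exact
  { σ0 := hu0
    δ0 := hτR
    gap := gap
    p2 := hp2.2
    PM := by linarith
    NN := by linarith
    MuP := by linarith
    a := by linarith
    a1 := by linarith [hp1.1]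
    b1 := by linarith [hp1.1]
    b2 := by linarith
    d := by linarith
    d1 := by linarith [hp1.1]
    LP := by linarith
    LM := by linarith
    LN := by linarith
    o0 := fun low hl up hu' q1 q2 q3 q4 => by linarith [(mesh low hl up hu' q1 q2 q3 q4).1]
    o0w := by linarith
    o0p := by linarith [hp2.1]
    o1 := fun low hl up hu' q1 q2 q3 q4 => by linarith [(mesh low hl up hu' q1 q2 q3 q4).2]
    o1' := fun low hl up hu' q1 q2 q3 q4 => by linarith [(mesh low hl up hu' q1 q2 q3 q4).2]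
    o1N := by linarith
    o1p := by linarith [hp2.1]
    o1p' := by linarith [hp2.1]
    dn := fun low hl up hu' q1 q2 q3 q4 => by linarith [(mesh low hl up hu' q1 q2 q3 q4).2]
    dnN := by linarith
    dnw := by linarith
    dnp := by linarith [hp2.1]
    Lu := by linarith
    Lu' := by linarith [hp2.1]
    Ld := by linarith
    Ld' := by linarith [hp2.1] }

/-- **The pair of places is full in the boxes** at almost every `g`, from the fullness of the places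
`1`, `2` behind their own paths and from affine labels. -/
theorem vfPG_ful {m : ℕ} {S : PCl m} {c : ℕ → Fin m} {s₀ A B Λ : ℝ} {sn : ℝ → ℕ → ℝ} {G : Set ℝ}
    (X : AsmC S c 1 2 s₀ A B Λ sn G) (K : ℕ) :
    ∀ᵐ g : ℝ, A < g → g < B → ∀ Sl : ℕ → ℝ, SlpG sn 1 3 G g Sl → Sl 2 ≤ Sl 1 →
      Sl 1 < Sl 2 + 1 → ∀ C₁ : ℝ, 1 / (Sl 2 + 1 - Sl 1) ≤ C₁ → AfG S c sn G g 2 →
      (Sl 1 < 2 ∨ AfG S c sn G g 1) → FulG S c sn G g → VfPG S c 1 1 K C₁ A B Λ sn G g Sl := by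
  obtain ⟨γ, y, h⟩ := X.gch
  have key : ∀ᵐ g : ℝ, ∀ x : {x : ℚ × ℚ × ℚ × ℚ × ℚ //
      IxV A B Λ x.1 x.2.1 x.2.2.1 x.2.2.2.1 x.2.2.2.2}, (x.1.1 : ℝ) < g → g < x.1.2.1 →
      ∀ Sl : ℕ → ℝ, SlpG sn 1 3 G g Sl → ∀ e κ C δ : ℝ, 0 < e → 0 < κ → 0 < C → 0 < δ →
      ∃ a : ℕ → ℝ, (∀ l, 1 ≤ l → l ≤ 3 → a l ∈ G ∧ g < a l ∧ a l < g + δ ∧
        a l < (x.1.2.1 : ℝ)) ∧
        ∃ (lv : ℕ → ℝ) (σ₀ ρ : ℝ), 0 < ρ ∧ (x.1.1 : ℝ) < g - ρ ∧ g + ρ < (x.1.2.1 : ℝ) ∧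
          FarR sn G 1 3 a (x.1.2.2.1 : ℝ) (g - ρ) (g + ρ) lv σ₀ ∧ C * ρ ≤ σ₀ / 2 ∧
          C * ρ + σ₀ / 2 ≤ (x.1.2.2.1 : ℝ) ∧
          ∀ R : ℝ, 0 < R → R < ρ → ∀ w ∈ G, ∀ j : ℝ, g - R ≤ w → w ≤ j → j ≤ g + R →
            ∀ (d : ℝ) (D : ℕ → ℕ → ℝ), d ≤ C * R →
            (∀ l, 1 ≤ l → l < 3 → Sl l * (j - w) + κ * R ≤ d) →
            (∀ l, 1 ≤ l → l < 3 → ∀ j' ≤ 1, sn w l - (j' : ℕ) * w + d ≤ D l j' ∧
              D l j' ≤ sn w l - (j' : ℕ) * w + C * R) →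
            MIw S (fun J F => ptr F J) (yZT ((range 1).image c) x.1.2.2.2.1 x.1.2.2.2.2) w j
              (jetQ m c 1 3 w (sn w) (nD sn a)) (jetQ m c 1 3 w (sn w) D) (e * R) := by
    rw [ae_all_iff]
    intro x
    filter_upwards [mj_G (gch_ix h x.2 kn_yZT) (X.hnum _ _ _ _ _ x.2) (by norm_num)] with g hg gA gB
      Sl hSl e κ C δ he hκ hC hδ
    obtain ⟨a, ha, lv, σ₀, ρ, hρ, h1, h2, h3, h4, h5, h6⟩ := hg gA gB Sl hSl e κ C δ he hκ hC hδ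
    exact ⟨a, ha, lv, σ₀, ρ, hρ, h1, h2, h3, h4, h5,
      fun R hR hRρ w hw j w1 w2 w3 d D d1 d2 d3 => (h6 R hR hRρ w hw j w1 w2 w3 d D d1 d2 d3).1⟩
  filter_upwards [key] with g hg hgA hgB Sl hSl hS hS' C₁ hC₁ haf2 hor hful e C Cd ν₀ he hC hCd hν₀
  have hS2 := hSl.gt 2 (by norm_num) (by norm_num)
  have hS1 := hSl.gt 1 le_rfl (by norm_num)
  -- the constants
  obtain ⟨M, hM, hM1⟩ : ∃ M : ℝ, 1 ≤ M ∧ Sl 1 ≤ M :=
    ⟨max 1 (Sl 1), le_max_left _ _, le_max_right _ _⟩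
  have hM0 : 0 < M := by linarith
  obtain ⟨D₀, hD⟩ : ∃ D₀ : ℝ, D₀ = Sl 2 + 1 - Sl 1 := ⟨_, rfl⟩
  have hD0 : 0 < D₀ := by linarith
  have hD1 : D₀ ≤ 1 := by linarith
  obtain ⟨η₁, hη₁⟩ : ∃ η₁ : ℝ, η₁ = 1 / D₀ := ⟨_, rfl⟩
  have hη : D₀ * η₁ = 1 := by rw [hη₁]; field_simp
  have hη1 : 1 ≤ η₁ := by
    rw [hη₁, le_div_iff₀ hD0]
    linarith
  rw [← hD, ← hη₁] at hC₁
  obtain ⟨κ, hκ0, hκ1, hκν, hκe⟩ : ∃ κ : ℝ, 0 < κ ∧ κ ≤ 1 ∧ 4 * κ ≤ ν₀ ∧ κ ≤ e / 8 := by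
    refine ⟨min 1 (min (ν₀ / 4) (e / 8)), by positivity, min_le_left _ _, ?_,
      (min_le_right _ _).trans (min_le_right _ _)⟩
    have := (min_le_right 1 (min (ν₀ / 4) (e / 8))).trans (min_le_left _ _)
    linarith
  obtain ⟨t₁, ht₁⟩ : ∃ t₁ : ℝ, t₁ = D₀ * κ / 16 := ⟨_, rfl⟩
  have ht0 : 0 < t₁ := by rw [ht₁]; positivity
  obtain ⟨τ, hτ⟩ : ∃ τ : ℝ, τ = t₁ / (3 * M) := ⟨_, rfl⟩
  have hτ0 : 0 < τ := by rw [hτ]; positivity
  have hMτ : 3 * (M * τ) = t₁ := by rw [hτ]; field_simp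
  obtain ⟨β₀, hβ₀⟩ : ∃ β₀ : ℝ, β₀ = 2 * C * η₁ + 2 := ⟨_, rfl⟩
  have hβ0 : 0 < β₀ := by rw [hβ₀]; positivity
  obtain ⟨M₁, hM₁⟩ : ∃ M₁ : ℝ, M₁ = β₀ + 2 := ⟨_, rfl⟩
  have hM₁0 : 0 < M₁ := by rw [hM₁]; positivity
  have hM₁1 : 1 ≤ M₁ := by rw [hM₁]; linarith
  obtain ⟨C', hC'⟩ : ∃ C' : ℝ, C' = M * β₀ + 2 * β₀ + 4 * C + 4 := ⟨_, rfl⟩
  have hC'0 : 0 < C' := by rw [hC']; positivity
  have hMβ : 0 < M * β₀ := by positivity
  have hC'M : M₁ ≤ C' := by rw [hC', hM₁]; linarith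
  -- the jets of order `≥ 2`
  obtain ⟨Z, hZ⟩ : ∃ Z : ℝ, Z = ((3 * (K + 2 + 1) : ℕ) : ℝ) * (((2 * (K + 2 + 1) : ℕ) : ℝ) + 1) :=
    ⟨_, rfl⟩
  have hZ0 : 0 < Z := by rw [hZ]; positivity
  obtain ⟨es, hes⟩ : ∃ es : ℝ, es = e / 8 / Z := ⟨_, rfl⟩
  have hes0 : 0 < es := by rw [hes]; positivity
  have hsrc1 : SrcU S c 1 3 s₀ K sn G g 1 := by
    rcases hor with h1 | h1
    · exact src_natU hSl le_rfl (by norm_num) h1 fun l a b => by omega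
    · exact src_affU le_rfl (by norm_num) h1 fun l a b => by omega
  obtain ⟨Cn, κs, -, hκs, Hs⟩ := hsrc1 es (C + 1) hes0 (by linarith)
  obtain ⟨k, φ, hφ, hful⟩ := hful 1 κ C' hκ0 hC'0
  refine ⟨k, t₁, ht0, fun A₁ B₁ Λ₁ p₀ lam hx g1 g2 g3 => ?_⟩
  have hc := gch_ix h hx (y' := yZT ((range 1).image c) (p₀ : ℝ) lam) kn_yZT
  have hyk : YkV ((range 1).image c) ((1 / 8) ^ k)
      (yZT (m := m) ((range 1).image c) (p₀ : ℝ) lam) :=
    ykV_of hx.p1 g3 fun J F => ⟨fun x => (x.1.2, x.1.1, x.2.1, x.2.2), fun _ => rfl⟩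
  obtain ⟨ρ₁, hρ₁, H1⟩ := hful _ _ hyk
  obtain ⟨a, -, lv, σ₀, ρ₂, hρ₂, r1, r2, hF, hCσ, hCΛ, H2⟩ :=
    hg ⟨(A₁, B₁, Λ₁, p₀, lam), hx⟩ g1 g2 Sl hSl (e / (8 * M₁)) (κ / (8 * M₁)) C' 1
      (by positivity) (by positivity) hC'0 one_pos
  obtain ⟨ρ₃, hρ₃, H3⟩ := hSl.sl 1 le_rfl (by norm_num) (t₁ / M₁) (by positivity)
  obtain ⟨ρ₄, hρ₄, H4⟩ := hSl.sl 2 (by norm_num) (by norm_num) (t₁ / M₁) (by positivity)
  obtain ⟨ρ₅, hρ₅, H5⟩ := hSl.gap (τ / M₁) (by positivity)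
  obtain ⟨ρ₆, hρ₆, H6⟩ := Hs _ _ _ _ _ hc g1 g2
  obtain ⟨ρ₇, hρ₇, H7⟩ := haf2 (κ / 8) (by positivity)
  obtain ⟨ρ, hρ, q1, q2, q3, q4, q5, q6, q7⟩ : ∃ ρ : ℝ, 0 < ρ ∧ ρ ≤ ρ₁ ∧ M₁ * ρ ≤ ρ₂ ∧
      M₁ * ρ ≤ ρ₃ ∧ M₁ * ρ ≤ ρ₄ ∧ M₁ * ρ ≤ ρ₅ ∧ ρ ≤ ρ₆ ∧ ρ ≤ ρ₇ := by
    refine ⟨min (min ρ₁ (min ρ₆ ρ₇)) (min (ρ₂ / M₁) (min (ρ₃ / M₁) (min (ρ₄ / M₁) (ρ₅ / M₁)))),
      by positivity, (min_le_left _ _).trans (min_le_left _ _), ?_, ?_, ?_, ?_,
      (min_le_left _ _).trans ((min_le_right _ _).trans (min_le_left _ _)),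
      (min_le_left _ _).trans ((min_le_right _ _).trans (min_le_right _ _))⟩
    · rw [mul_comm, ← le_div_iff₀ hM₁0]
      exact (min_le_right _ _).trans (min_le_left _ _)
    · rw [mul_comm, ← le_div_iff₀ hM₁0]
      exact (min_le_right _ _).trans ((min_le_right _ _).trans (min_le_left _ _))
    · rw [mul_comm, ← le_div_iff₀ hM₁0]
      exact (min_le_right _ _).trans ((min_le_right _ _).trans ((min_le_right _ _).trans
        (min_le_left _ _)))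
    · rw [mul_comm, ← le_div_iff₀ hM₁0]
      exact (min_le_right _ _).trans ((min_le_right _ _).trans ((min_le_right _ _).trans
        (min_le_right _ _)))
  refine ⟨ρ, hρ, fun R hR hRρ w hw j x w1 x2 δW q ξ μ ν φ' p s D hD' N hφ' hνR hroom => ?_⟩
  have hRM : M₁ * R < M₁ * ρ := mul_lt_mul_of_pos_left hRρ hM₁0
  have hMR : 0 < M₁ * R := by positivity
  have hMR' : M₁ * R = β₀ * R + 2 * R := by rw [hM₁]; ring
  have hwx := N.wx
  have hq := N.q0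
  have hξ := N.ξ0
  have hμ := N.μ0
  have hν := N.ν0
  have hqC := N.qC
  have hxn1 := N.xn 1 le_rfl (by norm_num)
  have hνq : ν ≤ q := by
    linarith [mul_nonneg (show 0 ≤ Sl 1 by linarith) (show 0 ≤ x - w by linarith)]
  -- the earlier window
  have hCR' : M₁ * R ≤ C' * R := mul_le_mul_of_nonneg_right hC'M hR.le
  have hβR : 0 < β₀ * R := by positivity
  have hκR : κ * R ≤ 1 * R := mul_le_mul_of_nonneg_right hκ1 hR.le
  have hκR0 : 0 < κ * R := by positivity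
  have hκνR : 4 * (κ * R) ≤ ν := by
    have := mul_le_mul_of_nonneg_right hκν hR.le
    linarith
  obtain ⟨ω, hω⟩ : ∃ ω : ℝ, ω = ξ + μ + ν := ⟨_, rfl⟩
  have hω0 : 0 < ω := by rw [hω]; positivity
  have hηω : η₁ * ω ≤ η₁ * (2 * (C * R)) :=
    mul_le_mul_of_nonneg_left (by linarith) (by linarith)
  have hηω1 : 1 * ω ≤ η₁ * ω := mul_le_mul_of_nonneg_right hη1 hω0.le
  have hβR' : β₀ * R = η₁ * (2 * (C * R)) + 2 * R := by rw [hβ₀]; ring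
  obtain ⟨b, hb, b1, b2, hfu⟩ := H1 R hR (hRρ.trans_le q1) (w - (η₁ * ω + κ * R)) (by linarith)
    (by linarith)
  rw [hω] at b1 b2
  have b1' := b1
  have b2' := b2
  rw [← hω] at b1' b2'
  have hbw : b ≤ w := by linarith
  have hwb : w - b ≤ β₀ * R := by linarith
  have hbg : g - M₁ * R ≤ b := by linarith
  have hwg : w ≤ g + M₁ * R := by linarith
  have hsl : ∀ l, 1 ≤ l → l ≤ 2 → ∀ u ∈ G, ∀ v ∈ G, b ≤ u → u ≤ v → v ≤ w →
      |sn v l - sn u l - Sl l * (v - u)| ≤ t₁ * R := by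
    intro l l0 l1 u hu v hv h1 h2 h3
    have e1 : t₁ / M₁ * (M₁ * R) = t₁ * R := by field_simp
    rcases Nat.lt_or_ge l 2 with h4 | h4
    · obtain rfl : l = 1 := by omega
      rw [← e1]
      exact H3 (M₁ * R) hMR (hRM.trans_le q3) u hu v hv (by linarith) h2 (by linarith)
    · obtain rfl : l = 2 := by omega
      rw [← e1]
      exact H4 (M₁ * R) hMR (hRM.trans_le q4) u hu v hv (by linarith) h2 (by linarith)
  have hgap : ∀ x, b ≤ x → x ≤ w → ∃ v ∈ G, |v - x| ≤ τ * R := by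
    intro x h1 h2
    obtain ⟨u, hu, u1, u2⟩ := H5 (M₁ * R) hMR (hRM.trans_le q5) x (by linarith) (by linarith)
    have e1 : τ / M₁ * (M₁ * R) = τ * R := by field_simp
    rw [e1] at u1
    refine ⟨u, hu, ?_⟩
    rw [abs_le]
    constructor <;> linarith
  have hCρ : C' * (M₁ * R) ≤ C' * ρ₂ := mul_le_mul_of_nonneg_left (by linarith) hC'0.le
  have hCM : C' * R ≤ C' * (M₁ * R) := by
    have h1 : 1 * R ≤ M₁ * R := mul_le_mul_of_nonneg_right hM₁1 hR.le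
    exact mul_le_mul_of_nonneg_left (by linarith) hC'0.le
  have hσ := hF.σ0
  have hbρ : g - ρ₂ < b := by linarith
  have hwρ : w < g + ρ₂ := by linarith
  have hm : ∀ l, 1 ≤ l → l ≤ 2 → sn b l ≤ sn w l := fun l l0 l1 =>
    hc.mono' l0 (by omega) hb hw (by linarith) hbw (by linarith)
  have T := p2n_box (Λ := (Λ₁ : ℝ)) (u := t₁ * R) N hR hC hM hM1 hS hS2.le hD hD0 hη hη1 hκ0 hκ1
    hκν hνR (by rw [ht₁]) hφ' hτ0 (by
      have : 3 * (M * (τ * R)) = 3 * (M * τ) * R := by ring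
      rw [this, hMτ]) hβ₀ b1 b2 hb hw hsl hgap (by
      rw [← hC']
      linarith)
  -- the levels
  have k1 := abs_le.1 (hsl 1 le_rfl (by norm_num) b hb w hw le_rfl hbw le_rfl)
  have k2 := abs_le.1 (hsl 2 (by norm_num) le_rfl b hb w hw le_rfl hbw le_rfl)
  have hM1β : Sl 1 * (w - b) ≤ M * β₀ * R := by
    have h1 : Sl 1 * (w - b) ≤ M * (w - b) := mul_le_mul_of_nonneg_right hM1 (by linarith)
    have h2 : M * (w - b) ≤ M * (β₀ * R) := mul_le_mul_of_nonneg_left hwb (by linarith)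
    linarith
  have sβ : Sl 2 * (w - b) ≤ Sl 1 * (w - b) := mul_le_mul_of_nonneg_right hS (by linarith)
  have sβ1 : 1 * (w - b) ≤ Sl 1 * (w - b) := mul_le_mul_of_nonneg_right hS1.le (by linarith)
  have hC'R : C' * R = M * β₀ * R + 2 * (β₀ * R) + 4 * (C * R) + 4 * R := by
    rw [hC']
    ring
  have hCR : 0 < C * R := by positivity
  have hm1 := hm 1 le_rfl (by norm_num)
  have hm2 := hm 2 (by norm_num) le_rfl
  have htR : 16 * (t₁ * R) ≤ κ * R := by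
    have h1 : 16 * (t₁ * R) = D₀ * (κ * R) := by rw [ht₁]; ring
    rw [h1]
    have := mul_le_mul_of_nonneg_right hD1 hκR0.le
    linarith
  have htR0 : 0 < t₁ * R := by positivity
  have hN₁ : sn w 1 - sn b 1 + q + ξ + κ * R ≤ C' * R := by linarith
  have hN₂ : sn w 2 - sn b 2 + q + ξ ≤ C' * R := by linarith
  have hP : sn w 1 - sn b 1 + (q + ξ + μ + ν) - (w - b) ≤ C' * R := by linarith
  -- the record of `x`
  have hmi := H2 (M₁ * R) hMR (hRM.trans_le q2) b hb x hbg (hbw.trans hwx) (by linarith)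
    (sn w 1 - sn b 1 + (q + ξ + μ + ν) - (w - b))
    (ndb sn b (sn w 1 - sn b 1 + (q + ξ + μ + ν) - (w - b))) (by linarith)
    (fun l l0 l1 => by
      have e1 : κ / (8 * M₁) * (M₁ * R) = κ * R / 8 := by field_simp
      have e2 : Sl l * (x - b) = Sl l * (x - w) + Sl l * (w - b) := by ring
      have e3 := hroom l l0 (by omega)
      have e4 : Sl l * (w - b) ≤ Sl 1 * (w - b) := by
        rcases Nat.lt_or_ge l 2 with h4 | h4
        · obtain rfl : l = 1 := by omega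
          exact le_rfl
        · obtain rfl : l = 2 := by omega
          exact sβ
      have e5 : η₁ * ω ≤ C₁ * ω := mul_le_mul_of_nonneg_right hC₁ hω0.le
      rw [← hω] at e3
      rw [e1, e2]
      linarith)
    (fun l l0 l1 j' hj' => by
      unfold ndb
      constructor <;> linarith)
  have e1 : e / (8 * M₁) * (M₁ * R) = e / 8 * R := by field_simp
  rw [e1] at hmi
  -- the jets of order `≥ 2`
  obtain ⟨b₂, Pb, hb₂, hPb, hA2⟩ := H7 R hR (hRρ.trans_le q7) w hw w1 (by linarith)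
  obtain ⟨e₀, he₀, Dg, dg1, dg2⟩ := H6 R hR (hRρ.trans_le q6) w hw w1 (by linarith) (sn w)
    (fun _ _ => 0) (fun l a b' => by omega) (fun l a b' => by omega)
  have hp2 := N.pc 2 (by norm_num) (by norm_num)
  have hs2 := N.sc 2 (by norm_num) (by norm_num)
  have hs1 := N.sc 1 le_rfl (by norm_num)
  have hη₀ : 0 < es * R := by positivity
  have hLP := T.LP
  have hLM := T.LM
  have hMuP := T.MuP
  rw [hs2] at hMuP
  have hκR32 : κ * R / 32 = κ / 32 * R := by ring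
  have hPb' : sn w 2 - κ * R / 8 ≤ Pb := by
    have : κ / 8 * R = κ * R / 8 := by ring
    linarith
  have hmin : sn w 2 - κ * R / 8 ≤ min Pb (p 2) := le_min hPb' (by linarith [hp2.1])
  have hjets := pr_hi (P := sn w 1 - sn b 1 + (q + ξ + μ + ν) - (w - b))
    (M₁ := sn w 1 - sn b 1 + q + κ * R) (p := p) (Mu := s 2 + q) (K := K) (σ := t₁ * R)
    (gp := κ * R / 32) hc hw (by linarith) hbw (by linarith) htR0 (by positivity)
    (by linarith) (by linarith) hLM hm1 (by linarith) hLP (pw := sn w) (Nf := fun _ _ => 0)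
    (Dg := Dg) he₀ hη₀ (fun j h1 h2 => by
      have h3 := dg1 j h1 h2
      have h4 : (C + 1) * R = C * R + R := by ring
      linarith) (fun j h1 h2 => dg2 j h1 h2 (sn w 1) (by
      have : 0 < κs * R := by positivity
      linarith)) hA2 hb₂ (by linarith) (by linarith)
  refine vfP_raw T hF hc r1.le r2.le hb hw hbρ hbw hwρ hwx (by linarith [hc.B1])
    (by linarith) (by linarith) (by linarith) (by linarith)
    (hfu (sn b) _ _ _ (by linarith) (by linarith) (by linarith) hN₁ hN₂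
      (fun l _ _ => by linarith [mul_pos hφ hR])) hmi hη₀ hjets ?_
  have h2 := Real.log_two_lt_d9
  have h3 : 0 < Real.log 2 := Real.log_pos one_lt_two
  have h4 : κ * R ≤ e / 8 * R := mul_le_mul_of_nonneg_right hκe hR.le
  have h5 : κ * R * Real.log 2 ≤ κ * R * 1 := mul_le_mul_of_nonneg_left (by linarith) hκR0.le
  have h6 : 0 < e * R := by positivity
  have h7 : ((3 * (K + 2 + 1) : ℕ) : ℝ) * (((2 * (K + 2 + 1) : ℕ) : ℝ) * (es * R) + es * R) =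
      e / 8 * R := by
    have e2 : ((3 * (K + 2 + 1) : ℕ) : ℝ) * (((2 * (K + 2 + 1) : ℕ) : ℝ) * (es * R) + es * R) =
        Z * es * R := by rw [hZ]; ring
    rw [e2, hes]
    field_simp
  rw [h7, hs1, hs2]
  obtain ⟨L2, hL2⟩ : ∃ L2 : ℝ, L2 = Real.log 2 := ⟨_, rfl⟩
  rw [← hL2] at h5 ⊢
  have h8 : e / 8 * R = e * R / 8 := by ring
  rw [h8] at h4 ⊢
  have h9 : ((sn w 1 - sn b 1 + q + ξ + κ * R -
      (sn w 1 - sn b 1 + (q + ξ + μ + ν) - (w - b)) +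
      (sn w 2 - sn b 2 + q + ξ - (sn w 1 - sn b 1 + (q + ξ + μ + ν) - (w - b)))) * L2 - κ * R) -
      e * R / 8 - (sn w 1 - sn b 1 + q + κ * R -
        (sn w 1 - sn b 1 + (q + ξ + μ + ν) - (w - b))) * L2 -
      (sn w 2 + q - (sn b 2 + (sn w 1 - sn b 1 + (q + ξ + μ + ν) - (w - b)))) * L2 -
      e * R / 8 - (sn b 1 + (sn w 1 - sn b 1 + q + ξ + κ * R) - (sn w 1 + q + ξ)) * L2 =
      2 * ξ * L2 - κ * R * L2 - κ * R - e * R / 8 - e * R / 8 := by ring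
  have h10 : (sn w 1 + q + ξ - (sn w 1 + q) + (sn w 2 + q + ξ - (sn w 2 + q))) * L2 =
      2 * ξ * L2 := by ring
  rw [h9, h10]
  linarith

end Pool.FUL71
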