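import Pool.Agent.H71.FUL.Fua
import Pool.Agent.H57.AVG.C1c
import Pool.Agent.H96.AVG.Vla

/-!
# The moved place is full: from an earlier window

`t2_ent`: the entropies. `vfC_t2`: `VfC` at `w` from the fullness of two heights at an earlier window
`b`, given near digits, and from few bits.
-/

set_option autoImplicit false

namespace Pool.FUL71

open Finset Real MvPolynomial
open Pool.Agent.H49.Ent Pool.Agent.H32.Dense Pool.STK Pool.KA Pool.KSAT Pool.K2S Pool.PB Pool.S6C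
open Pool.GEN Pool.RCD Pool.LA91 Pool.AVG96 Pool.AVG57
open Pool.AVG71 (MI_eq MI_eq')
open Pool.KVA (MI)

section ent

variable {Ω 𝓝 𝓗 𝓚 𝓕 𝓡 𝓑 𝓩 𝓤 𝓐 𝓒 𝓓 𝓨 : Type} [Fintype Ω] {p : Ω → ℝ}

/-- **The mutual information with a quantity which is few bits given another one.** -/
theorem mi_few (h0 : ∀ ω, 0 ≤ p ω) (zx : Ω → 𝓡) (far : Ω → 𝓕) (h1 : Ω → 𝓗) (h2 : Ω → 𝓚)
    (C : Ω → 𝓒) {ε ε' : ℝ} (k3 : MI p zx far C ≤ ε)
    (k4 : CH p h1 (fun ω => (far ω, C ω)) ≤ ε') (k5 : CH p h2 (fun ω => (far ω, C ω)) ≤ ε') :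
    CH p h2 (fun ω => (h1 ω, C ω)) ≤
      CH p h2 (fun ω => (zx ω, (h1 ω, C ω))) + ε + 2 * ε' := by
  have e1 := MI_eq' h0 zx h2 (fun ω => (h1 ω, C ω))
  have e2 := MI_eq h0 zx h2 (fun ω => (h1 ω, C ω))
  have e3 := MI_eq h0 zx far C
  have a1 : CH p zx (fun ω => (h1 ω, C ω)) ≤ CH p zx C :=
    CH_mono_cond h0 fun _ _ _ _ hh => (Prod.ext_iff.mp hh).2
  have a2 := CH_le_add h0 zx (fun ω => (h1 ω, h2 ω)) (fun ω => (far ω, C ω))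
  have a3 := CH_le_add h0 (fun ω => (h1 ω, h2 ω)) h1 (fun ω => (far ω, C ω))
  have a4 := CH_le_add h0 (fun ω => (h1 ω, h2 ω)) h2 (fun ω => (h1 ω, (far ω, C ω)))
  have a5 : CH p (fun ω => (h1 ω, h2 ω)) (fun ω => (h2 ω, (h1 ω, (far ω, C ω)))) = 0 :=
    CH_eq_zero h0 fun ω ω' _ _ hh => by
      simp only [Prod.mk.injEq] at hh ⊢
      exact ⟨hh.2.1, hh.1⟩
  have a6 : CH p h2 (fun ω => (h1 ω, (far ω, C ω))) ≤ CH p h2 (fun ω => (far ω, C ω)) :=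
    CH_mono_cond h0 fun _ _ _ _ hh => (Prod.ext_iff.mp hh).2
  have a7 : CH p zx (fun ω => ((h1 ω, h2 ω), (far ω, C ω))) ≤
      CH p zx (fun ω => (h2 ω, (h1 ω, C ω))) :=
    CH_mono_cond h0 fun ω ω' _ _ hh => by
      simp only [Prod.mk.injEq] at hh ⊢
      exact ⟨hh.1.2, hh.1.1, hh.2.2⟩
  linarith

/-- **The entropies** of the moved place. -/
theorem t2_ent (h0 : ∀ ω, 0 ≤ p ω) (n : Ω → 𝓝) (h1 : Ω → 𝓗) (h2 : Ω → 𝓚) (far : Ω → 𝓕)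
    (zx : Ω → 𝓡) (zb : Ω → 𝓑) (zw : Ω → 𝓩) (u : Ω → 𝓤) (a : Ω → 𝓐) (b : Ω → 𝓒) (d : Ω → 𝓓)
    (y : Ω → 𝓨) {θ δ ε ε' : ℝ}
    (k1 : θ ≤ CH p (fun ω => (h1 ω, h2 ω)) (fun ω => (zb ω, (n ω, y ω))))
    (k2 : CH p h1 (fun ω => (n ω, (zb ω, y ω))) ≤ δ)
    (k3 : MI p zx far (fun ω => (n ω, (zb ω, y ω))) ≤ ε)
    (k4 : CH p h1 (fun ω => (far ω, (zb ω, y ω))) ≤ ε')
    (k5 : CH p h2 (fun ω => (far ω, (zb ω, y ω))) ≤ ε')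
    (k6 : CH p zw zx ≤ ε')
    (k7 : CH p u (fun ω => ((n ω, h1 ω), (zw ω, y ω))) ≤ ε')
    (k8 : CH p a (fun ω => ((n ω, h1 ω), (zw ω, y ω))) ≤ ε')
    (k9 : CH p d (fun ω => ((n ω, h1 ω), (zw ω, y ω))) ≤ ε')
    (k10 : CH p h2 (fun ω => (((n ω, h1 ω), b ω), (zw ω, y ω))) ≤ ε') :
    θ - δ - ε - 7 * ε' ≤ CH p b (fun ω => (a ω, (d ω, (zx ω, (zw ω, (u ω, y ω)))))) := by
  have m4 : CH p h1 (fun ω => (far ω, (n ω, (zb ω, y ω)))) ≤ ε' :=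
    (CH_mono_cond h0 fun ω ω' _ _ hh => by
      simp only [Prod.mk.injEq] at hh ⊢
      exact ⟨hh.1, hh.2.2⟩).trans k4
  have m5 : CH p h2 (fun ω => (far ω, (n ω, (zb ω, y ω)))) ≤ ε' :=
    (CH_mono_cond h0 fun ω ω' _ _ hh => by
      simp only [Prod.mk.injEq] at hh ⊢
      exact ⟨hh.1, hh.2.2⟩).trans k5
  have s1 := mi_few h0 zx far h1 h2 (fun ω => (n ω, (zb ω, y ω))) k3 m4 m5
  have s2 := CH_le_add h0 (fun ω => (h1 ω, h2 ω)) h1 (fun ω => (zb ω, (n ω, y ω)))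
  have s3 : CH p h1 (fun ω => (zb ω, (n ω, y ω))) ≤ CH p h1 (fun ω => (n ω, (zb ω, y ω))) :=
    CH_mono_cond h0 fun ω ω' _ _ hh => by
      simp only [Prod.mk.injEq] at hh ⊢
      exact ⟨hh.2.1, hh.1, hh.2.2⟩
  have s4 := CH_le_add h0 (fun ω => (h1 ω, h2 ω)) h2 (fun ω => (h1 ω, (zb ω, (n ω, y ω))))
  have s5 : CH p (fun ω => (h1 ω, h2 ω)) (fun ω => (h2 ω, (h1 ω, (zb ω, (n ω, y ω))))) = 0 :=
    CH_eq_zero h0 fun ω ω' _ _ hh => by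
      simp only [Prod.mk.injEq] at hh ⊢
      exact ⟨hh.2.1, hh.1⟩
  have s6 : CH p h2 (fun ω => (h1 ω, (zb ω, (n ω, y ω)))) ≤
      CH p h2 (fun ω => (h1 ω, (n ω, (zb ω, y ω)))) :=
    CH_mono_cond h0 fun ω ω' _ _ hh => by
      simp only [Prod.mk.injEq] at hh ⊢
      exact ⟨hh.1, hh.2.2.1, hh.2.1, hh.2.2.2⟩
  obtain ⟨W, hW⟩ : ∃ W : Ω → 𝓡 × 𝓗 × 𝓝 × 𝓑 × 𝓨, W = fun ω => (zx ω, (h1 ω, (n ω, (zb ω, y ω)))) :=
    ⟨_, rfl⟩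
  have t0 : CH p h2 (fun ω => (zx ω, (h1 ω, (n ω, (zb ω, y ω))))) = CH p h2 W := by rw [hW]
  have t1 := CH_le_add h0 h2 zw W
  have t2 : CH p zw W ≤ CH p zw zx := CH_mono_cond h0 fun ω ω' _ _ hh => by
    rw [hW] at hh
    exact (Prod.ext_iff.mp hh).1
  have hy : ∀ ω ω', (zw ω, W ω) = (zw ω', W ω') →
      zw ω = zw ω' ∧ zx ω = zx ω' ∧ h1 ω = h1 ω' ∧ n ω = n ω' ∧ y ω = y ω' := by
    intro ω ω' hh
    rw [hW] at hh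
    simp only [Prod.mk.injEq] at hh
    exact ⟨hh.1, hh.2.1, hh.2.2.1, hh.2.2.2.1, hh.2.2.2.2.2⟩
  have t3 := CH_le_add h0 h2 u (fun ω => (zw ω, W ω))
  have t4 : CH p u (fun ω => (zw ω, W ω)) ≤ CH p u (fun ω => ((n ω, h1 ω), (zw ω, y ω))) :=
    CH_mono_cond h0 fun ω ω' _ _ hh => by
      obtain ⟨q1, q2, q3, q4, q5⟩ := hy ω ω' hh
      simp only [Prod.mk.injEq]
      exact ⟨⟨q4, q3⟩, q1, q5⟩
  have t5 := CH_le_add h0 h2 a (fun ω => (u ω, (zw ω, W ω)))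
  have t6 : CH p a (fun ω => (u ω, (zw ω, W ω))) ≤
      CH p a (fun ω => ((n ω, h1 ω), (zw ω, y ω))) :=
    CH_mono_cond h0 fun ω ω' _ _ hh => by
      obtain ⟨q1, q2, q3, q4, q5⟩ := hy ω ω' (Prod.ext_iff.mp hh).2
      simp only [Prod.mk.injEq]
      exact ⟨⟨q4, q3⟩, q1, q5⟩
  have t7 := CH_le_add h0 h2 d (fun ω => (a ω, (u ω, (zw ω, W ω))))
  have t8 : CH p d (fun ω => (a ω, (u ω, (zw ω, W ω)))) ≤
      CH p d (fun ω => ((n ω, h1 ω), (zw ω, y ω))) :=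
    CH_mono_cond h0 fun ω ω' _ _ hh => by
      obtain ⟨q1, q2, q3, q4, q5⟩ := hy ω ω' (Prod.ext_iff.mp (Prod.ext_iff.mp hh).2).2
      simp only [Prod.mk.injEq]
      exact ⟨⟨q4, q3⟩, q1, q5⟩
  have t9 := CH_le_add h0 h2 b (fun ω => (d ω, (a ω, (u ω, (zw ω, W ω)))))
  have t10 : CH p h2 (fun ω => (b ω, (d ω, (a ω, (u ω, (zw ω, W ω)))))) ≤
      CH p h2 (fun ω => (((n ω, h1 ω), b ω), (zw ω, y ω))) :=
    CH_mono_cond h0 fun ω ω' _ _ hh => by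
      simp only [Prod.mk.injEq] at hh
      obtain ⟨q1, q2, q3, q4, q5⟩ := hy ω ω' (Prod.ext hh.2.2.2.2.1 hh.2.2.2.2.2)
      simp only [Prod.mk.injEq]
      exact ⟨⟨⟨q4, q3⟩, hh.1⟩, q1, q5⟩
  have t11 : CH p b (fun ω => (d ω, (a ω, (u ω, (zw ω, W ω))))) ≤
      CH p b (fun ω => (a ω, (d ω, (zx ω, (zw ω, (u ω, y ω)))))) :=
    CH_mono_cond h0 fun ω ω' _ _ hh => by
      simp only [Prod.mk.injEq] at hh
      obtain ⟨q1, q2, q3, q4, q5⟩ := hy ω ω' (Prod.ext hh.2.2.2.1 hh.2.2.2.2)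
      simp only [Prod.mk.injEq]
      exact ⟨hh.2.1, hh.1, q2, q1, hh.2.2.1, q5⟩
  linarith

end ent

variable {m : ℕ} {𝓝 𝓕 : Type} {γ : ∀ J : ℕ, Fam m J → Type} {S : PCl m}
  {y : ∀ (J : ℕ) (F : Fam m J), F.Ω → γ J F}

/-- The finest closed function is a record. -/
theorem mx_any {α β : ∀ J : ℕ, Fam m J → Type} (f : ∀ (J : ℕ) (F : Fam m J), F.Ω → α J F)
    (g : ∀ (J : ℕ) (F : Fam m J), F.Ω → β J F) {k : ℝ} (hk : 0 ≤ k) {J : ℕ} {F : Fam m J}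
    {A : F.Ω → Prop} (hA : 0 < Pe F.p A) : ∃ (V : Type) (z : F.Ω → V), Mx f g k F A z := by
  obtain ⟨V, z, hz, h⟩ := mx0 (f J F) (g J F) A
  refine ⟨V, z, hz, fun V' z' hz' => ?_⟩
  rw [CH_eq_zero (isLaw_cond F.isLaw hA).nonneg (fun ω ω' _ _ hh => h V' z' hz' ω ω' hh)]
  positivity

/-- **The moved place is full** at `w`, given the record of `x`: from the fullness of the heights
`Q1`, `Q2` at an earlier window `b` given the near digits `Qn`. -/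
theorem vfC_t2
    (hpos : ∀ (τ : ℝ) (J : ℕ) (F : Fam m J) (A : F.Ω → Prop), S.St τ J F A → 0 < Pe F.p A)
    {c : ℕ → Fin m} {r₀ v : ℕ} {b w x : ℝ} (hwx : w ≤ x) (hx1 : x ≤ 1)
    {Qn : Qt m 𝓝} {Q1 Q2 : Qt m ℤ} {Qf : Qt m 𝓕} {p n n' : ℕ → ℝ} {Na Nb Nd θ₁ δ ε θ : ℝ}
    (hL : LowN S (fun J F => ptr F J) (vg b) y Qn (Q1.prod Q2) θ₁)
    (hD : FewD S (fun J F => ptr F J) (vg b) y Qn Q1 δ)
    (hM : MIw S (fun J F => ptr F J) y b x Qf Qn ε)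
    (f1 : Few S (fun J F => ptr F J) (vg b) y Qf Q1)
    (f2 : Few S (fun J F => ptr F J) (vg b) y Qf Q2)
    (g1 : Few S (fun J F => ptr F J) (vg w) y (Qn.prod Q1) (jetQ m c r₀ v w p (nd n n' w)))
    (g2 : Few S (fun J F => ptr F J) (vg w) y (Qn.prod Q1)
      (qJet m ((range v).image c) (c v) 0 w (p v) Na))
    (g3 : Few S (fun J F => ptr F J) (vg w) y (Qn.prod Q1)
      (qJet m ((range v).image c) (c v) 1 w (p v) Nd))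
    (g4 : Few S (fun J F => ptr F J) (vg w) y ((Qn.prod Q1).prod
      (qJet m ((range v).image c) (c v) 0 w (p v) Nb)) Q2)
    (xn : Exs S Qn) (x1 : Exs S Q1) (x2 : Exs S Q2) (xf : Exs S Qf)
    (hθ : (Nb - Na) * Real.log 2 - θ < θ₁ - δ - ε) :
    VfC S y c r₀ v w x p n n' Na Nb Nd θ := by
  obtain ⟨h, hh⟩ : ∃ h : ℝ, h = (θ₁ - δ - ε - ((Nb - Na) * Real.log 2 - θ)) / 10 := ⟨_, rfl⟩
  have hh0 : 0 < h := by rw [hh]; linarith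
  obtain ⟨k1, hk1, e1, he1, H1⟩ := hL h hh0
  obtain ⟨e2, he2, H2⟩ := hD.mx hpos h hh0
  obtain ⟨k3, hk3, e3, he3, H3⟩ := hM h hh0
  obtain ⟨e4, he4, H4⟩ := f1.mx hpos h hh0
  obtain ⟨e5, he5, H5⟩ := f2.mx hpos h hh0
  obtain ⟨e6, he6, H6⟩ := g1.mx hpos h hh0
  obtain ⟨e7, he7, H7⟩ := g2.mx hpos h hh0
  obtain ⟨e8, he8, H8⟩ := g3.mx hpos h hh0
  obtain ⟨e9, he9, H9⟩ := g4.mx hpos h hh0
  obtain ⟨e₀, he₀, l1, l2, l3, l4, l5, l6, l7, l8, l9⟩ : ∃ e₀ : ℝ, 0 < e₀ ∧ e₀ ≤ e1 ∧ e₀ ≤ e2 ∧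
      e₀ ≤ e3 ∧ e₀ ≤ e4 ∧ e₀ ≤ e5 ∧ e₀ ≤ e6 ∧ e₀ ≤ e7 ∧ e₀ ≤ e8 ∧ e₀ ≤ e9 := by
    obtain ⟨e, he, q1, q2, q3, q4, q5⟩ : ∃ e₀ : ℝ, 0 < e₀ ∧ e₀ ≤ e1 ∧ e₀ ≤ e2 ∧ e₀ ≤ e3 ∧
        e₀ ≤ e4 ∧ e₀ ≤ e5 :=
      ⟨min e1 (min e2 (min e3 (min e4 e5))), by positivity, min_le_left _ _,
        (min_le_right _ _).trans (min_le_left _ _),
        (min_le_right _ _).trans ((min_le_right _ _).trans (min_le_left _ _)),
        (min_le_right _ _).trans ((min_le_right _ _).trans ((min_le_right _ _).trans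
          (min_le_left _ _))),
        (min_le_right _ _).trans ((min_le_right _ _).trans ((min_le_right _ _).trans
          (min_le_right _ _)))⟩
    refine ⟨min e (min e6 (min e7 (min e8 e9))), by positivity, (min_le_left _ _).trans q1,
      (min_le_left _ _).trans q2, (min_le_left _ _).trans q3, (min_le_left _ _).trans q4,
      (min_le_left _ _).trans q5, (min_le_right _ _).trans (min_le_left _ _),
      (min_le_right _ _).trans ((min_le_right _ _).trans (min_le_left _ _)),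
      (min_le_right _ _).trans ((min_le_right _ _).trans ((min_le_right _ _).trans
        (min_le_left _ _))),
      (min_le_right _ _).trans ((min_le_right _ _).trans ((min_le_right _ _).trans
        (min_le_right _ _)))⟩
  obtain ⟨Ka, Ma, hxn⟩ := xn e₀ he₀
  obtain ⟨Kb, Mb, hx1'⟩ := x1 e₀ he₀
  obtain ⟨Kc, Mc, hx2'⟩ := x2 e₀ he₀
  obtain ⟨Kd, Md, hxf⟩ := xf e₀ he₀
  refine ⟨min k3 (h / 2), by positivity, e₀, he₀, fun K => ?_⟩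
  obtain ⟨K', q0, q1, q2, q3, q4⟩ : ∃ K' : ℕ, K ≤ K' ∧ Ka ≤ K' ∧ Kb ≤ K' ∧ Kc ≤ K' ∧ Kd ≤ K' :=
    ⟨K + Ka + Kb + Kc + Kd, by omega, by omega, by omega, by omega, by omega⟩
  refine Bas.mono 0 (((((H1 K').and (H2 K')).and ((H3 K').and (H4 K'))).and
    (((H5 K').and (H6 K')).and ((H7 K').and (H8 K')))).and (((H9 K').and (pos_bas hpos)).and
    ((hxn.and hx1').and (hx2'.and hxf)))) ?_
  rintro J - F A ⟨⟨⟨⟨H1, H2⟩, H3, H4⟩, ⟨H5, H6⟩, H7, H8⟩, ⟨H9, hA⟩, ⟨⟨nn, hnn, -⟩, u1, hu1, -⟩,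
    ⟨u2, hu2, -⟩, uf, huf, -⟩ V₁ V₂ z zx hz hzx u₀ a bb d hu₀ ha hb hd
  have hp := (isLaw_cond F.isLaw hA).nonneg
  have hJ0 : (0 : ℝ) ≤ J := Nat.cast_nonneg J
  obtain ⟨Vb, zb, hzb⟩ := mx_any (fun J F => ptr F J) (vg b) (le_refl (0 : ℝ)) hA
  have Bz : ∀ {k : ℝ}, 0 ≤ k → Mx (fun J F => ptr F J) (vg b) k F A zb := fun hk => hzb.le' hk
  have Wz : Mx (fun J F => ptr F J) (vg w) (h / 2) F A z := hz.le' (min_le_right _ _)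
  have Xn : ∀ {e : ℝ}, e₀ ≤ e → Qn.P K' e J F A nn := fun he => Qn.mono q1 he hnn
  have X1 : ∀ {e : ℝ}, e₀ ≤ e → Q1.P K' e J F A u1 := fun he => Q1.mono q2 he hu1
  have X2 : ∀ {e : ℝ}, e₀ ≤ e → Q2.P K' e J F A u2 := fun he => Q2.mono q3 he hu2
  have Xf : ∀ {e : ℝ}, e₀ ≤ e → Qf.P K' e J F A uf := fun he => Qf.mono q4 he huf
  have m1 := H1 Vb zb (Bz hk1.le) nn (fun ω => (u1 ω, u2 ω)) (Xn l1) ⟨X1 l1, X2 l1⟩
  have m2 := H2 Vb zb (Bz (by positivity)) nn u1 (Xn l2) (X1 l2)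
  have m3 := H3 Vb V₂ zb zx (Bz hk3.le) (hzx.le' (min_le_left _ _)) uf nn (Xf l3) (Xn l3)
  have m4 := H4 Vb zb (Bz (by positivity)) uf u1 (Xf l4) (X1 l4)
  have m5 := H5 Vb zb (Bz (by positivity)) uf u2 (Xf l5) (X2 l5)
  have m6 := H6 V₁ z Wz (fun ω => (nn ω, u1 ω)) u₀ ⟨Xn l6, X1 l6⟩
    ((jetQ m c r₀ v w p (nd n n' w)).mono q0 l6 hu₀)
  have m7 := H7 V₁ z Wz (fun ω => (nn ω, u1 ω)) a ⟨Xn l7, X1 l7⟩
    ((qJet m ((range v).image c) (c v) 0 w (p v) Na).mono q0 l7 ha)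
  have m8 := H8 V₁ z Wz (fun ω => (nn ω, u1 ω)) d ⟨Xn l8, X1 l8⟩
    ((qJet m ((range v).image c) (c v) 1 w (p v) Nd).mono q0 l8 hd)
  have m9 := H9 V₁ z Wz (fun ω => ((nn ω, u1 ω), bb ω)) u2 ⟨⟨Xn l9, X1 l9⟩,
    (qJet m ((range v).image c) (c v) 0 w (p v) Nb).mono q0 l9 hb⟩ (X2 l9)
  have m10 : CH (Pool.Agent.H49.Ent.cond F.p A True) z zx ≤ h * J := by
    refine (hzx.2 _ z (hz.1.mono ⟨fun t => t, fun _ _ => rfl⟩ ?_)).trans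
      (mul_le_mul_of_nonneg_right ((min_le_right _ _).trans (by linarith)) hJ0)
    obtain ⟨φ, hφ⟩ := vg_mono hwx hx1 J F
    exact ⟨φ, fun ω _ => hφ ω⟩
  have key := t2_ent hp nn u1 u2 uf zx zb z u₀ a bb d (y J F) m1 m2 m3 m4 m5 m10 m6 m7 m8 m9
  refine le_trans ?_ key
  have e1 : (θ₁ - h) * J - (δ + h) * J - (ε + h) * J - 7 * (h * J) =
      (θ₁ - δ - ε - 10 * h) * J := by ring
  rw [e1]
  refine mul_le_mul_of_nonneg_right ?_ hJ0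
  rw [hh]
  linarith

end Pool.FUL71
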