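import Pool.Agent.H96.AVG.Far2
import Pool.Agent.H91.FR.HtG

/-!
# Few bits between labels of two windows

`GCh.gjet`: one jet of the place `i`, with the jets of the lower places of orders `≤ j`.
`GCh.vel_up`: the velocity of the place `2` over the labels of a later window, through windows with
small steps.
-/

set_option autoImplicit false

namespace Pool.AVG96

open Finset Real MvPolynomial MeasureTheory Filter Topology
open Pool.Agent.H49.Ent Pool.Agent.H32.Dense Pool.STK Pool.KA Pool.KSAT Pool.K2S Pool.PB Pool.S6C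
  Pool.GEN Pool.RCD Pool.LA91

variable {m : ℕ} {α γ : ∀ J : ℕ, Fam m J → Type}
  {f : ∀ (J : ℕ) (F : Fam m J), F.Ω → α J F} {y : ∀ (J : ℕ) (F : Fam m J), F.Ω → γ J F}
  {S : PCl m} {c : ℕ → Fin m} {r₀ r : ℕ} {s A B Λ : ℝ} {sn : ℝ → ℕ → ℝ} {G : Set ℝ}

/-- **Few bits for one jet**, the lower places to the orders `≤ j` only. -/
theorem GCh.gjet (h : GCh S f y c r₀ r s A B Λ sn G) {i j : ℕ} (h0 : r₀ ≤ i) (hi : i ≤ r)
    {w x₀ x x' : ℝ} (hw : w ∈ G) (hA : A ≤ w) (hB : w < B) (hx₀ : x₀ ≤ w)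
    (hx : x ≤ w) (hx' : x' ≤ w) {p₀ : ℕ → ℝ} {p p' : ℝ}
    (hp : ∀ l, r₀ ≤ l → l < i → p₀ l ≤ sn w l) {N : ℕ → ℕ → ℝ} {N₁ N₂ : ℝ} {lv : ℕ → ℝ}
    {σ₀ : ℝ} (hσ : 0 < σ₀) (hlv : ∀ l, r₀ ≤ l → l < i → 0 < lv l)
    (h1 : ∀ l, r₀ ≤ l → l < i → ∀ j' ≤ j, sn w l + lv l + σ₀ ≤ N l j' + (j' : ℕ) * w)
    (h2 : ∀ l, r₀ ≤ l → l < i → sn w l + lv l + σ₀ ≤ p₀ l + Λ)
    (h2' : ∀ l, r₀ ≤ l → l < i → ∀ l', r₀ ≤ l' → l' < l → sn w l + lv l + σ₀ ≤ p₀ l + lv l')
    (hN : N₂ ≤ N₁) (h3 : N₂ + (j : ℝ) * w + σ₀ ≤ min p p' + Λ)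
    (h3' : ∀ l, r₀ ≤ l → l < i → N₂ + (j : ℝ) * w + σ₀ ≤ min p p' + lv l) :
    Few S f (vg w) y ((qJets m c r₀ i j (fun _ _ => x₀) (fun l _ => p₀ l) N).prod
      (qJet m ((range i).image c) (c i) j x p N₁))
      (qJet m ((range i).image c) (c i) j x' p' N₂) := by
  obtain ⟨C₀, htm⟩ := h.tm
  obtain ⟨q₀, lam', hp1, hlam, hp0, hkn⟩ := h.kn
  have hΛ0 := h.Λ0
  obtain ⟨u₁, rd, hrd, hch⟩ := h.ch w hw hA hB
  have hch := hch.take h0 hi
  have hmn : Λ ≤ min lam' (q₀ - w) := le_min hlam (by linarith)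
  refine few_jetN htm hch (lv := lv) (p₀ := q₀) (lam := lam') (σ₀ := σ₀)
    (fun _ _ _ _ _ => hx₀) hx hx'
    (by linarith) hp1 (by linarith) hσ hlv (fun l a b j' c' => h1 l a b j' c')
    (fun l a b j' _ => ?_) (fun l a b j' _ l' a' b' => ?_) hN (by linarith)
    (fun l a b => h3' l a b) h.pt hkn
  · rw [min_eq_left (hp l a b)]
    have := h2 l a b
    linarith
  · rw [min_eq_left (hp l a b)]
    exact h2' l a b l' a' b'

/-- The jets of a place of the chain exist. -/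
theorem GCh.exsj (h : GCh S f y c r₀ r s A B Λ sn G) {w : ℝ} (hw : w ∈ G) (hA : A ≤ w)
    (hB : w < B) {i : ℕ} (h0 : r₀ ≤ i) (hi : i < r) (j : ℕ) (N : ℝ) :
    Exs S (qJet m ((range i).image c) (c i) j w (sn w i) N) := by
  obtain ⟨u₁, rd, hrd, hch⟩ := h.ch w hw hA hB
  exact exs_jet (hrd i h0 hi) (hch.att i h0 hi)

/-- The jets of the places of the chain exist. -/
theorem GCh.exsjs (h : GCh S f y c r₀ r s A B Λ sn G) {w : ℝ} (hw : w ∈ G) (hA : A ≤ w)
    (hB : w < B) {i : ℕ} (hi : i ≤ r) (j : ℕ) (N : ℕ → ℕ → ℝ) :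
    Exs S (qJets m c r₀ i j (fun _ _ => w) (fun l _ => sn w l) N) :=
  exs_qjets fun l a b j' _ => h.exsj hw hA hB a (by omega) j' (N l j')

/-- **The velocity of the place `2` over the labels of a later window.** The place `1` is known over
the labels of `b`. -/
theorem GCh.vel_up (h : GCh S f y c 1 3 s A B Λ sn G) {b w : ℝ} (hb : b ∈ G) (hw : w ∈ G)
    (hA : A ≤ b) (hbw : b ≤ w) (hB : w < B) {σ δ : ℝ} (hσ : 0 < σ) (hδ : 0 < δ)
    (gap : ∀ x, b ≤ x → x ≤ w → ∃ v ∈ G, |v - x| ≤ δ) {N1 : ℕ → ℕ → ℝ} {N : ℝ}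
    (g1 : ∀ low ∈ G, ∀ up ∈ G, b ≤ low → low ≤ up → up ≤ w → up ≤ low + 3 * δ → ∀ j' ≤ 1,
      sn up 1 + (N + up - sn low 2) + 2 * σ ≤ N1 1 j' + (j' : ℕ) * up)
    (g2 : ∀ low ∈ G, ∀ up ∈ G, b ≤ low → low ≤ up → up ≤ w → up ≤ low + 3 * δ →
      sn up 1 + (N + up - sn low 2) + 2 * σ ≤ sn b 1 + Λ)
    (g3 : N + w + σ ≤ sn b 2 + Λ) (g0 : sn w 2 ≤ N + w)
    (g4 : ∀ j' ≤ 1, N1 1 j' + (j' : ℕ) * w + σ ≤ sn b 1 + Λ)
    (g5 : sn w 1 + 2 * σ ≤ sn b 1 + Λ) (g6 : ∀ j' ≤ 1, sn w 1 + 2 * σ ≤ N1 1 j' + (j' : ℕ) * w) :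
    Few S f (vg w) y ((qJets m c 1 2 1 (fun _ _ => b) (fun l _ => sn b l) N1).prod
      (qJet m ((range 2).image c) (c 2) 1 b (sn b 2) N))
      (qJet m ((range 2).image c) (c 2) 1 w (sn w 2) N) := by
  have hw1 : w ≤ 1 := (hB.trans h.B1).le
  have hbB : b < B := hbw.trans_lt hB
  have hup : ∀ v : ℝ, v ≤ w → ∀ (J : ℕ) (F : Fam m J), ∃ φ : LnT F → LnT F, ∀ ω,
      vg v J F ω = φ (vg w J F ω) := fun v hv J F => vg_mono hv hw1 J F
  -- the place `1`
  have hC : Few S f (vg w) y (qJets m c 1 2 1 (fun _ _ => b) (fun l _ => sn b l) N1)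
      (qJets m c 1 2 1 (fun _ _ => b) (fun l _ => sn b l) N1) := by
    refine h.jets_few (lv := fun _ => σ) (σ₀ := σ) (by norm_num) (by norm_num) hw
      (hA.trans hbw) hB hbw hbw
      (fun l a b' => h.mono' a (by omega) hb hw hA hbw hB) hσ (fun _ _ _ => hσ)
      (fun l a b' j' hj' => ?_) (fun l a b' => ?_) (fun l a b' l' a' b'' => by omega)
      (fun l a b' j' hj' => le_rfl) (fun l a b' j' hj' => ?_)
      (fun l a b' j' hj' l' a' b'' => by omega)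
    · obtain rfl : l = 1 := by omega
      linarith [g6 j' hj']
    · obtain rfl : l = 1 := by omega
      linarith
    · obtain rfl : l = 1 := by omega
      rw [min_self]
      exact g4 j' hj'
  obtain ⟨n', hn'⟩ := exists_nat_ge ((w - b) / δ)
  obtain ⟨N', bw, b0, bN, hbw', hs⟩ := gseq (h := 3 * δ) (ρ₀ := δ) hb (by linarith) n' w hw hbw
    (by
      rw [div_le_iff₀ hδ] at hn'
      linarith) gap
  obtain ⟨Q, hQ⟩ : ∃ Q, Q = (qJets m c 1 2 1 (fun _ _ => b) (fun l _ => sn b l) N1).prod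
      (qJet m ((range 2).image c) (c 2) 1 b (sn b 2) N) := ⟨_, rfl⟩
  rw [← hQ]
  have hC' : Few S f (vg w) y Q (qJets m c 1 2 1 (fun _ _ => b) (fun l _ => sn b l) N1) := by
    rw [hQ]
    exact Few.fst h.pos hC
  -- one step
  have hstep : ∀ low ∈ G, ∀ up ∈ G, b ≤ low → low ≤ up → up ≤ w → up ≤ low + 3 * δ →
      Few S f (vg w) y ((qJets m c 1 2 1 (fun _ _ => b) (fun l _ => sn b l) N1).prod
        (qJet m ((range 2).image c) (c 2) 1 low (sn low 2) N))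
        (qJet m ((range 2).image c) (c 2) 1 up (sn up 2) N) := by
    intro low hlow up hu h1 h2 h3 h4
    have hAl : A ≤ low := hA.trans h1
    have e1 := h.mono 2 (by norm_num) (by norm_num) low hlow w hw hAl (h2.trans h3) hB
    have hlv : 0 < N + up - sn low 2 + σ := by linarith
    have hm : min (sn low 2) (sn up 2) = sn low 2 :=
      min_eq_left (h.mono' (by norm_num) (by norm_num) hlow hu hAl h2 (h3.trans_lt hB))
    have key := h.gjet (i := 2) (j := 1) (by norm_num) (by norm_num) (w := up) (x₀ := b)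
      (x := low) (x' := up) hu (hAl.trans h2) (h3.trans_lt hB) (h1.trans h2) h2 le_rfl
      (p₀ := sn b) (p := sn low 2) (p' := sn up 2) (N := N1) (N₁ := N) (N₂ := N)
      (lv := fun _ => N + up - sn low 2 + σ) (σ₀ := σ)
      (fun l a b' => h.mono' a (by omega) hb hu hA (h1.trans h2) (h3.trans_lt hB)) hσ
      (fun _ _ _ => hlv) (fun l a b' j' hj' => ?_) (fun l a b' => ?_)
      (fun l a b' l' a' b'' => by omega) le_rfl ?_ (fun l a b' => ?_)
    · exact Few.up (f' := f) (y' := y) h.pos (fun J F => ⟨fun x => x, fun _ => rfl⟩)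
        (hup up h3) (fun J F => ⟨fun x => x, fun _ => rfl⟩) key
    · obtain rfl : l = 1 := by omega
      linarith [g1 low hlow up hu h1 h2 h3 h4 j' hj']
    · obtain rfl : l = 1 := by omega
      linarith [g2 low hlow up hu h1 h2 h3 h4]
    · rw [hm]
      push_cast
      linarith [h.mono' (show 1 ≤ 2 by norm_num) (show 2 ≤ 3 by norm_num) hb hlow hA h1
        ((h2.trans h3).trans_lt hB)]
    · rw [hm]
      push_cast
      linarith
  have key : ∀ t ≤ N', Few S f (vg w) y Q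
      (qJet m ((range 2).image c) (c 2) 1 (bw (N' - t)) (sn (bw (N' - t)) 2) N) := by
    intro t
    induction t with
    | zero =>
      intro _
      rw [Nat.sub_zero, bN, hQ]
      exact hstep b hb b hb le_rfl le_rfl hbw (by linarith)
    | succ t ih =>
      intro ht
      have h3 := ih (by omega)
      have e1 : N' - t = (N' - (t + 1)) + 1 := by omega
      rw [e1] at h3
      obtain ⟨q1, q2⟩ := hs (N' - (t + 1)) (by omega)
      obtain ⟨g1', g2', g3'⟩ := hbw' (N' - (t + 1)) (by omega)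
      obtain ⟨g4', g5', g6'⟩ := hbw' (N' - (t + 1) + 1) (by omega)
      exact Few.trans h.pos (Exs.prod (h.exsjs hb hA hbB (by norm_num) 1 N1)
        (h.exsj g4' (hA.trans g5') (g6'.trans_lt hB) (by norm_num) (by norm_num) 1 N))
        (Few.pair h.pos hC' h3) (hstep _ g4' _ g1' g5' q1 g3' q2)
  have h5 := key N' le_rfl
  rw [Nat.sub_self, b0] at h5
  exact h5

end Pool.AVG96
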