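import Pool.Agent.H71.FUL.Fub

/-!
# The moved place is full: few bits between the windows

`T2N`: the numbers of one box. `T2N.g1`, …, `T2N.g4`: the jets over labels of `w` from the near digits
at `b` and the height of the place `1`. `vfC_raw`: `VfC` at one box.
-/

set_option autoImplicit false

namespace Pool.FUL71

open Finset Real MvPolynomial
open Pool.Agent.H49.Ent Pool.Agent.H32.Dense Pool.STK Pool.KA Pool.KSAT Pool.K2S Pool.PB Pool.S6C
open Pool.GEN Pool.RCD Pool.LA91 Pool.AVG96 Pool.AVG57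

/-- **The numbers** of one box. `P`, `N₁`, `N₂`: the near digits at `b`, the digits of the two heights;
`Na`, `Nb`, `Nd`, `n`, `n'`: the digits at `w`; `p`: the precisions of the labels of `w`; `ℓ`, `ℓ₂`:
levels; `δ`: the mesh. -/
structure T2N (sn : ℝ → ℕ → ℝ) (G : Set ℝ) (b w Λ : ℝ) (p n n' : ℕ → ℝ)
    (P N₁ N₂ Na Nb Nd ℓ ℓ₂ σ δ : ℝ) : Prop where
  σ0 : 0 < σ
  δ0 : 0 < δ
  gap : ∀ x, b ≤ x → x ≤ w → ∃ v ∈ G, |v - x| ≤ δ
  p1 : p 1 ≤ sn w 1
  p2 : p 2 ≤ sn w 2
  l2 : σ ≤ ℓ₂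
  l12 : ℓ₂ ≤ ℓ
  a1 : sn w 1 + ℓ + σ ≤ sn b 1 + N₁
  a2 : sn w 1 + ℓ₂ + σ ≤ sn b 1 - b + P + w
  a4 : n 1 ≤ sn b 1 + N₁
  a5 : n' 1 - w ≤ sn b 1 - b + P
  b1 : Na ≤ sn b 2 + P
  b2 : sn b 2 + N₂ ≤ Nb
  b3 : Nd ≤ sn b 2 - b + P
  c1 : Na + σ ≤ p 2 + ℓ
  c2 : Na + σ ≤ sn b 2 + ℓ
  c3 : sn b 2 + N₂ + σ ≤ p 2 + ℓ
  c4 : N₂ + σ ≤ ℓ
  c5 : Nd + w + σ ≤ p 2 + ℓ₂
  c6 : Nd + b + 2 * σ ≤ sn b 2 + P
  P2 : 2 * σ ≤ P
  PN : P ≤ N₁
  d1 : ∀ low ∈ G, ∀ up ∈ G, b ≤ low → low ≤ up → up ≤ w → up ≤ low + 3 * δ →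
    sn up 1 + (Nd + up - sn low 2) + 2 * σ ≤ sn b 1 - b + P + up
  d2 : ∀ low ∈ G, ∀ up ∈ G, b ≤ low → low ≤ up → up ≤ w → up ≤ low + 3 * δ →
    sn up 1 + (Nd + up - sn low 2) + 2 * σ ≤ sn b 1 + N₁
  d3 : sn w 2 ≤ Nd + w
  L1 : N₁ + σ ≤ Λ
  L2 : sn b 1 + N₁ + σ ≤ p 1 + Λ
  L3 : sn b 1 + (w - b) + P + σ ≤ p 1 + Λ
  L4 : (w - b) + P + σ ≤ Λ
  L5 : Nd + w + σ ≤ sn b 2 + Λ

/-- The digits of the place `1`: the height to `N₁`, the velocity to `P` digits. -/
noncomputable def nq (sn : ℝ → ℕ → ℝ) (b P N₁ : ℝ) (_ j' : ℕ) : ℝ :=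
  if j' = 0 then sn b 1 + N₁ else sn b 1 - (j' : ℝ) * b + P

/-- The near digits at `b`. -/
noncomputable def ndb (sn : ℝ → ℕ → ℝ) (b P : ℝ) (l j' : ℕ) : ℝ := sn b l - (j' : ℝ) * b + P

variable {m : ℕ} {γ : ∀ J : ℕ, Fam m J → Type} {S : PCl m} {c : ℕ → Fin m}
  {y : ∀ (J : ℕ) (F : Fam m J), F.Ω → γ J F} {s A B Λ : ℝ} {sn : ℝ → ℕ → ℝ} {G : Set ℝ}
  {b w x : ℝ} {p n n' : ℕ → ℝ} {P N₁ N₂ Na Nb Nd ℓ ℓ₂ σ δ : ℝ}

/-- The jets of the place `1`: the height from `u.2`, the velocity from `u.1`. -/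
def pj (j : ℕ) (u : (ℕ → ℕ → ℤ) × ℤ) (l j' : ℕ) : ℤ :=
  if 1 ≤ l ∧ l < 2 ∧ j' ≤ j then (if j' = 0 then u.2 else u.1 l j') else 0

theorem pj_0 (j : ℕ) (u : (ℕ → ℕ → ℤ) × ℤ) : pj j u 1 0 = u.2 := by
  unfold pj
  rw [if_pos ⟨le_rfl, by norm_num, Nat.zero_le j⟩, if_pos rfl]

theorem pj_1 {j : ℕ} (hj : 1 ≤ j) (u : (ℕ → ℕ → ℤ) × ℤ) : pj j u 1 1 = u.1 1 1 := by
  unfold pj
  rw [if_pos ⟨le_rfl, by norm_num, hj⟩, if_neg one_ne_zero]

/-- The near digits at `b` and the height of the place `1`. -/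
noncomputable def nh (m : ℕ) (c : ℕ → Fin m) (sn : ℝ → ℕ → ℝ) (b P N₁ : ℝ) :
    Qt m ((ℕ → ℕ → ℤ) × ℤ) := (jetQ m c 1 3 b (sn b) (ndb sn b P)).prod
  (qJet m ((range 1).image c) (c 1) 0 b (sn b 1) (sn b 1 + N₁))

/-- The near digits and the height of the place `1` are the jets of the place `1`. -/
theorem pjP {j : ℕ} (hj : j ≤ 1) {K : ℕ} {e : ℝ} {J : ℕ} {F : Fam m J} {A' : F.Ω → Prop}
    {u : F.Ω → (ℕ → ℕ → ℤ) × ℤ} (hu : (nh m c sn b P N₁).P K e J F A' u) :
    (qJets m c 1 2 j (fun _ _ => b) (fun l _ => sn b l) (nq sn b P N₁)).P K e J F A'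
      (fun ω => pj j (u ω)) := by
  obtain ⟨⟨h1, h2⟩, h3⟩ := hu
  refine ⟨fun l l0 l1 j' hj' => ?_, fun ω _ l j' hin => if_neg hin⟩
  obtain rfl : l = 1 := by omega
  rcases Nat.eq_zero_or_pos j' with h5 | h5
  · subst h5
    have e1 : (fun ω => pj j (u ω) 1 0) = fun ω => (u ω).2 := funext fun ω => pj_0 j _
    have e2 : nq sn b P N₁ 1 0 = sn b 1 + N₁ := if_pos rfl
    show (qJet m ((range 1).image c) (c 1) 0 b (sn b 1) (nq sn b P N₁ 1 0)).P K e J F A'
      (fun ω => pj j (u ω) 1 0)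
    rw [e1, e2]
    exact h3
  · obtain rfl : j' = 1 := by omega
    have e1 : (fun ω => pj j (u ω) 1 1) = fun ω => (u ω).1 1 1 :=
      funext fun ω => pj_1 hj' _
    have e2 : nq sn b P N₁ 1 1 = ndb sn b P 1 1 := if_neg one_ne_zero
    show (qJet m ((range 1).image c) (c 1) 1 b (sn b 1) (nq sn b P N₁ 1 1)).P K e J F A'
      (fun ω => pj j (u ω) 1 1)
    rw [e1, e2]
    exact h1 1 le_rfl (by norm_num) 1 le_rfl

section pull

variable {V : Type} {β : ∀ J : ℕ, Fam m J → Type} {g : ∀ (J : ℕ) (F : Fam m J), F.Ω → β J F}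
  {Q' : Qt m V} {j : ℕ}

theorem pull1
    (hpos : ∀ (τ : ℝ) (J : ℕ) (F : Fam m J) (A : F.Ω → Prop), S.St τ J F A → 0 < Pe F.p A)
    (hj : j ≤ 1) (h : Few S (fun J F => ptr F J) g y (qJets m c 1 2 j (fun _ _ => b)
      (fun l _ => sn b l) (nq sn b P N₁)) Q') :
    Few S (fun J F => ptr F J) g y (nh m c sn b P N₁) Q' :=
  few_lmap hpos (pj j) (fun _ _ _ _ _ _ hu => pjP hj hu) h

theorem pull2
    (hpos : ∀ (τ : ℝ) (J : ℕ) (F : Fam m J) (A : F.Ω → Prop), S.St τ J F A → 0 < Pe F.p A)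
    (hj : j ≤ 1) {i : ℕ} (hi : i ≤ 1) (h : Few S (fun J F => ptr F J) g y
      ((qJets m c 1 2 j (fun _ _ => b) (fun l _ => sn b l) (nq sn b P N₁)).prod
        (qJet m ((range 2).image c) (c 2) i b (sn b 2) (ndb sn b P 2 i))) Q') :
    Few S (fun J F => ptr F J) g y (nh m c sn b P N₁) Q' := by
  refine few_lmap hpos (fun u => (pj j u, u.1 2 i)) (fun K e J F A' u hu => ?_) h
  exact ⟨pjP hj hu, hu.1.1 2 (by norm_num) (by norm_num) i hi⟩

theorem pull3 {U : Type}
    (hpos : ∀ (τ : ℝ) (J : ℕ) (F : Fam m J) (A : F.Ω → Prop), S.St τ J F A → 0 < Pe F.p A)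
    (hj : j ≤ 1) {Q : Qt m U} (h : Few S (fun J F => ptr F J) g y
      ((qJets m c 1 2 j (fun _ _ => b) (fun l _ => sn b l) (nq sn b P N₁)).prod Q) Q') :
    Few S (fun J F => ptr F J) g y ((nh m c sn b P N₁).prod Q) Q' := by
  refine few_lmap hpos (fun u => (pj j u.1, u.2)) (fun K e J F A' u hu => ?_) h
  exact ⟨pjP hj hu.1, hu.2⟩

end pull

namespace T2N

variable (T : T2N sn G b w Λ p n n' P N₁ N₂ Na Nb Nd ℓ ℓ₂ σ δ)
  (h : GCh S (fun J F => ptr F J) y c 1 3 s A B Λ sn G)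

include T h

/-- The lower place over labels of `w`. -/
theorem g1 (hb : b ∈ G) (hw : w ∈ G) (hA : A ≤ b) (hbw : b ≤ w) (hB : w < B) :
    Few S (fun J F => ptr F J) (vg w) y (nh m c sn b P N₁) (jetQ m c 1 2 w p (nd n n' w)) := by
  have hσ := T.σ0
  have m1 := h.mono' (show 1 ≤ 1 by norm_num) (by norm_num) hb hw hA hbw hB
  refine pull1 h.pos le_rfl (h.jets_few (lv := fun _ => σ) (σ₀ := σ) (p := sn b) (p' := p)
    (by norm_num) (by norm_num) hw (hA.trans hbw) hB hbw le_rfl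
    (fun l a b' => ?_) hσ (fun _ _ _ => hσ) (fun l a b' j' hj' => ?_) (fun l a b' => ?_)
    (fun l a b' l' a' b'' => by omega) (fun l a b' j' hj' => ?_) (fun l a b' j' hj' => ?_)
    (fun l a b' j' hj' l' a' b'' => by omega))
  · obtain rfl : l = 1 := by omega
    exact m1
  · obtain rfl : l = 1 := by omega
    rcases Nat.eq_zero_or_pos j' with h5 | h5
    · subst h5
      have e2 : nq sn b P N₁ 1 0 = sn b 1 + N₁ := if_pos rfl
      rw [e2, Nat.cast_zero, zero_mul]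
      linarith [T.a1, T.l2, T.l12]
    · obtain rfl : j' = 1 := by omega
      have e2 : nq sn b P N₁ 1 1 = sn b 1 - ((1 : ℕ) : ℝ) * b + P := if_neg one_ne_zero
      rw [e2, Nat.cast_one, one_mul, one_mul]
      linarith [T.a2, T.l2]
  · obtain rfl : l = 1 := by omega
    linarith [T.a1, T.l2, T.l12, T.L1]
  · obtain rfl : l = 1 := by omega
    rcases Nat.eq_zero_or_pos j' with h5 | h5
    · subst h5
      have e2 : nq sn b P N₁ 1 0 = sn b 1 + N₁ := if_pos rfl
      have e3 : nd n n' w 1 0 = n 1 := if_pos rfl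
      rw [e2, e3]
      exact T.a4
    · obtain rfl : j' = 1 := by omega
      have e2 : nq sn b P N₁ 1 1 = sn b 1 - ((1 : ℕ) : ℝ) * b + P := if_neg one_ne_zero
      have e3 : nd n n' w 1 1 = n' 1 - ((1 : ℕ) : ℝ) * w := if_neg one_ne_zero
      rw [e2, e3, Nat.cast_one, one_mul, one_mul]
      exact T.a5
  · obtain rfl : l = 1 := by omega
    rw [← min_add_add_right]
    rcases Nat.eq_zero_or_pos j' with h5 | h5
    · subst h5
      have e3 : nd n n' w 1 0 = n 1 := if_pos rfl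
      rw [e3, Nat.cast_zero, zero_mul]
      refine le_min ?_ ?_ <;> linarith [T.a4, T.L1, T.L2]
    · obtain rfl : j' = 1 := by omega
      have e3 : nd n n' w 1 1 = n' 1 - ((1 : ℕ) : ℝ) * w := if_neg one_ne_zero
      rw [e3, Nat.cast_one, one_mul]
      refine le_min ?_ ?_ <;> linarith [T.a5, T.L3, T.L4]

/-- The height of the place `2` over labels of `w`. -/
theorem g2 (hb : b ∈ G) (hw : w ∈ G) (hA : A ≤ b) (hbw : b ≤ w) (hB : w < B) :
    Few S (fun J F => ptr F J) (vg w) y (nh m c sn b P N₁)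
      (qJet m ((range 2).image c) (c 2) 0 w (p 2) Na) := by
  have hσ := T.σ0
  have m1 := h.mono' (show 1 ≤ 1 by norm_num) (by norm_num) hb hw hA hbw hB
  have e2 : nq sn b P N₁ 1 0 = sn b 1 + N₁ := if_pos rfl
  refine pull2 h.pos (by norm_num) (i := 0) (by norm_num) (h.gjet (i := 2) (j := 0)
    (lv := fun _ => ℓ) (σ₀ := σ) (p₀ := sn b) (by norm_num) (by norm_num) hw (hA.trans hbw) hB hbw
    hbw le_rfl (fun l a b' => ?_) hσ (fun _ _ _ => by linarith [T.l2, T.l12])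
    (fun l a b' j' hj' => ?_)
    (fun l a b' => ?_) (fun l a b' l' a' b'' => by omega) ?_ ?_ (fun l a b' => ?_))
  · obtain rfl : l = 1 := by omega
    exact m1
  · obtain rfl : l = 1 := by omega
    obtain rfl : j' = 0 := by omega
    rw [e2, Nat.cast_zero, zero_mul]
    linarith [T.a1]
  · obtain rfl : l = 1 := by omega
    linarith [T.a1, T.L1]
  · unfold ndb
    rw [Nat.cast_zero, zero_mul]
    linarith [T.b1]
  · rw [← min_add_add_right, Nat.cast_zero, zero_mul]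
    refine le_min ?_ ?_ <;> linarith [T.c1, T.c2, T.a1, T.L1]
  · rw [← min_add_add_right, Nat.cast_zero, zero_mul]
    refine le_min ?_ ?_ <;> linarith [T.c1, T.c2]

/-- The velocity of the place `2` over labels of `w`. -/
theorem g3 (hb : b ∈ G) (hw : w ∈ G) (hA : A ≤ b) (hbw : b ≤ w) (hB : w < B) :
    Few S (fun J F => ptr F J) (vg w) y (nh m c sn b P N₁)
      (qJet m ((range 2).image c) (c 2) 1 w (p 2) Nd) := by
  have hσ := T.σ0
  have hw1 : w ≤ 1 := (hB.trans h.B1).le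
  have hbB : b < B := hbw.trans_lt hB
  have m1 := h.mono' (show 1 ≤ 1 by norm_num) (by norm_num) hb hw hA hbw hB
  have m2 := h.mono' (show 1 ≤ 2 by norm_num) (by norm_num) hb hw hA hbw hB
  have e0 : nq sn b P N₁ 1 0 = sn b 1 + N₁ := if_pos rfl
  have e1 : nq sn b P N₁ 1 1 = sn b 1 - b + P := by
    have : nq sn b P N₁ 1 1 = sn b 1 - ((1 : ℕ) : ℝ) * b + P := if_neg one_ne_zero
    rw [this, Nat.cast_one, one_mul]
  have d1' := T.d1
  -- at the window `b`
  have k1 : Few S (fun J F => ptr F J) (vg b) y (nh m c sn b P N₁)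
      (qJet m ((range 2).image c) (c 2) 1 b (sn b 2) Nd) := by
    refine pull2 h.pos (j := 1) le_rfl (i := 1) le_rfl (h.gjet (i := 2) (j := 1)
      (lv := fun _ => P - σ) (σ₀ := σ) (p₀ := sn b) (by norm_num) (by norm_num) hb hA hbB le_rfl
      le_rfl le_rfl (fun l a b' => le_rfl) hσ (fun _ _ _ => by linarith [T.P2])
      (fun l a b' j' hj' => ?_) (fun l a b' => ?_) (fun l a b' l' a' b'' => by omega) ?_ ?_
      (fun l a b' => ?_))
    · obtain rfl : l = 1 := by omega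
      rcases Nat.eq_zero_or_pos j' with h5 | h5
      · subst h5
        rw [e0, Nat.cast_zero, zero_mul]
        linarith [T.PN]
      · obtain rfl : j' = 1 := by omega
        rw [e1, Nat.cast_one, one_mul]
        linarith
    · obtain rfl : l = 1 := by omega
      linarith [T.L4]
    · unfold ndb
      rw [Nat.cast_one, one_mul]
      exact T.b3
    · rw [min_self, Nat.cast_one, one_mul]
      linarith [T.L5]
    · rw [min_self, Nat.cast_one, one_mul]
      linarith [T.c6]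
  have hid : ∀ (J : ℕ) (F : Fam m J), ∃ φ : (PtT F) → (PtT F), ∀ ω,
      ptr F J ω = φ (ptr F J ω) := fun J F => ⟨fun x => x, fun _ => rfl⟩
  have hid' : ∀ (J : ℕ) (F : Fam m J), ∃ φ : γ J F → γ J F, ∀ ω,
      y J F ω = φ (y J F ω) := fun J F => ⟨fun x => x, fun _ => rfl⟩
  have k1' : Few S (fun J F => ptr F J) (vg w) y (nh m c sn b P N₁)
      (qJet m ((range 2).image c) (c 2) 1 b (sn b 2) Nd) :=
    Few.up (f' := fun J F => ptr F J) (y' := y) h.pos hid (fun J F => vg_mono hbw hw1 J F) hid' k1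
  -- up to `w`
  have k0 : Few S (fun J F => ptr F J) (vg w) y (nh m c sn b P N₁)
      (qJets m c 1 2 1 (fun _ _ => b) (fun l _ => sn b l) (nq sn b P N₁)) := by
    refine pull1 h.pos le_rfl (h.jets_few (lv := fun _ => σ) (σ₀ := σ) (by norm_num)
      (by norm_num) hw (hA.trans hbw) hB hbw hbw (fun l a b' => ?_) hσ (fun _ _ _ => hσ)
      (fun l a b' j' hj' => ?_) (fun l a b' => ?_) (fun l a b' l' a' b'' => by omega)
      (fun l a b' j' hj' => le_rfl) (fun l a b' j' hj' => ?_)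
      (fun l a b' j' hj' l' a' b'' => by omega))
    · obtain rfl : l = 1 := by omega
      exact m1
    · obtain rfl : l = 1 := by omega
      rcases Nat.eq_zero_or_pos j' with h5 | h5
      · subst h5
        rw [e0, Nat.cast_zero, zero_mul]
        linarith [T.a1, T.l2, T.l12]
      · obtain rfl : j' = 1 := by omega
        rw [e1, Nat.cast_one, one_mul]
        linarith [T.a2, T.l2]
    · obtain rfl : l = 1 := by omega
      linarith [T.a1, T.l2, T.l12, T.L1]
    · obtain rfl : l = 1 := by omega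
      rw [min_self]
      rcases Nat.eq_zero_or_pos j' with h5 | h5
      · subst h5
        rw [e0, Nat.cast_zero, zero_mul]
        linarith [T.L1]
      · obtain rfl : j' = 1 := by omega
        rw [e1, Nat.cast_one, one_mul]
        linarith [T.L4]
  have k2 := h.vel_up hb hw hA hbw hB hσ T.δ0 T.gap (N1 := nq sn b P N₁) (N := Nd)
    (fun low hl up hu q1 q2 q3 q4 j' hj' => by
      rcases Nat.eq_zero_or_pos j' with h5 | h5
      · subst h5
        rw [e0, Nat.cast_zero, zero_mul]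
        linarith [T.d2 low hl up hu q1 q2 q3 q4]
      · obtain rfl : j' = 1 := by omega
        rw [e1, Nat.cast_one, one_mul]
        linarith [T.d1 low hl up hu q1 q2 q3 q4])
    (fun low hl up hu q1 q2 q3 q4 => by linarith [T.d2 low hl up hu q1 q2 q3 q4, T.L1])
    (by linarith [T.L5]) T.d3
    (fun j' hj' => by
      rcases Nat.eq_zero_or_pos j' with h5 | h5
      · subst h5
        rw [e0, Nat.cast_zero, zero_mul]
        linarith [T.L1]
      · obtain rfl : j' = 1 := by omega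
        rw [e1, Nat.cast_one, one_mul]
        linarith [T.L4])
    (by linarith [T.a1, T.l2, T.l12, T.L1])
    (fun j' hj' => by
      rcases Nat.eq_zero_or_pos j' with h5 | h5
      · subst h5
        rw [e0, Nat.cast_zero, zero_mul]
        linarith [T.a1, T.l2, T.l12]
      · obtain rfl : j' = 1 := by omega
        rw [e1, Nat.cast_one, one_mul]
        linarith [T.a2, T.l2])
  have k3 := Few.trans h.pos (Exs.prod (h.exsjs hb hA hbB (by norm_num) 1 (nq sn b P N₁))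
    (h.exsj hb hA hbB (by norm_num) (by norm_num) 1 Nd)) (Few.pair h.pos k0 k1') k2
  -- another precision
  have k4 := h.gjet (i := 2) (j := 1) (lv := fun _ => ℓ₂) (σ₀ := σ) (p₀ := sn b) (w := w)
      (x₀ := b) (x := w) (x' := w) (p := sn w 2) (p' := p 2) (N := nq sn b P N₁) (N₁ := Nd)
      (N₂ := Nd) (by norm_num) (by norm_num) hw (hA.trans hbw) hB hbw
      le_rfl le_rfl (fun l a b' => by
        obtain rfl : l = 1 := by omega
        exact m1) hσ (fun _ _ _ => by linarith [T.l2])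
      (fun l a b' j' hj' => by
        obtain rfl : l = 1 := by omega
        rcases Nat.eq_zero_or_pos j' with h5 | h5
        · subst h5
          rw [e0, Nat.cast_zero, zero_mul]
          linarith [T.a1, T.l12]
        · obtain rfl : j' = 1 := by omega
          rw [e1, Nat.cast_one, one_mul]
          linarith [T.a2])
      (fun l a b' => by
        obtain rfl : l = 1 := by omega
        linarith [T.a1, T.l12, T.L1]) (fun l a b' l' a' b'' => by omega) le_rfl
      (by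
        rw [min_eq_right T.p2, Nat.cast_one, one_mul]
        linarith [T.c5, T.a1, T.l12, T.L1])
      (fun l a b' => by
        rw [min_eq_right T.p2, Nat.cast_one, one_mul]
        linarith [T.c5])
  exact Few.trans h.pos (Exs.prod (h.exsjs hb hA hbB (by norm_num) 1 (nq sn b P N₁))
    (h.exsj hw (hA.trans hbw) hB (by norm_num) (by norm_num) 1 Nd)) (Few.pair h.pos k0 k3) k4

/-- The height of the place `2` over labels of `b` from the one over labels of `w`. -/
theorem g4 (hb : b ∈ G) (hw : w ∈ G) (hA : A ≤ b) (hbw : b ≤ w) (hB : w < B) :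
    Few S (fun J F => ptr F J) (vg w) y ((nh m c sn b P N₁).prod
      (qJet m ((range 2).image c) (c 2) 0 w (p 2) Nb))
      (qJet m ((range 2).image c) (c 2) 0 b (sn b 2) (sn b 2 + N₂)) := by
  have hσ := T.σ0
  have m1 := h.mono' (show 1 ≤ 1 by norm_num) (by norm_num) hb hw hA hbw hB
  have e2 : nq sn b P N₁ 1 0 = sn b 1 + N₁ := if_pos rfl
  refine pull3 h.pos (by norm_num) (h.gjet (i := 2) (j := 0)
    (lv := fun _ => ℓ) (σ₀ := σ) (p₀ := sn b) (by norm_num) (by norm_num) hw (hA.trans hbw) hB hbw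
    le_rfl hbw (fun l a b' => ?_) hσ (fun _ _ _ => by linarith [T.l2, T.l12])
    (fun l a b' j' hj' => ?_)
    (fun l a b' => ?_) (fun l a b' l' a' b'' => by omega) T.b2 ?_ (fun l a b' => ?_))
  · obtain rfl : l = 1 := by omega
    exact m1
  · obtain rfl : l = 1 := by omega
    obtain rfl : j' = 0 := by omega
    rw [e2, Nat.cast_zero, zero_mul]
    linarith [T.a1]
  · obtain rfl : l = 1 := by omega
    linarith [T.a1, T.L1]
  · rw [← min_add_add_right, Nat.cast_zero, zero_mul]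
    refine le_min ?_ ?_ <;> linarith [T.c3, T.c4, T.a1, T.L1]
  · rw [← min_add_add_right, Nat.cast_zero, zero_mul]
    refine le_min ?_ ?_ <;> linarith [T.c3, T.c4]

/-- More digits of the height of the place `1`. -/
theorem g5 (hb : b ∈ G) (hA : A ≤ b) (hbw : b ≤ w) (hB : w < B) :
    FewD S (fun J F => ptr F J) (vg b) y (jetQ m c 1 3 b (sn b) (ndb sn b P))
      (qJet m ((range 1).image c) (c 1) 0 b (sn b 1) (sn b 1 + N₁)) ((N₁ - P) * Real.log 2) := by
  have hσ := T.σ0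
  have e1 : N₁ - P = sn b 1 + N₁ - (sn b 1 + P) := by ring
  rw [e1]
  refine more_digits h.pos (by linarith [T.PN]) ?_
  have k1 := h.gjet (i := 1) (j := 0) (lv := fun _ => σ) (σ₀ := σ) (p₀ := sn b) (w := b)
    (x₀ := b) (x := b) (x' := b) (p := sn b 1) (p' := sn b 1) (N := fun _ _ => 0)
    (N₁ := ndb sn b P 1 0) (N₂ := sn b 1 + P) (by norm_num) (by norm_num) hb hA
    (hbw.trans_lt hB) le_rfl le_rfl le_rfl (fun l a b' => by omega) hσ (fun _ _ _ => hσ)
    (fun l a b' j' hj' => by omega) (fun l a b' => by omega) (fun l a b' l' a' b'' => by omega)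
    (by
      unfold ndb
      rw [Nat.cast_zero, zero_mul]
      linarith)
    (by
      rw [min_self, Nat.cast_zero, zero_mul]
      linarith [T.L4]) (fun l a b' => by omega)
  refine few_lmap h.pos (fun u => ((fun _ _ => 0), u 1 0)) (fun K e J F A' u hu => ?_) k1
  exact ⟨⟨fun l a b' => absurd b' (by omega), fun _ _ _ _ _ => rfl⟩,
    hu.1 1 le_rfl (by norm_num) 0 (by norm_num)⟩

end T2N

end Pool.FUL71
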