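import Pool.Agent.H71.FUL.Fuc
import Pool.Agent.H95.VF.Lit

/-!
# The moved place is full: one box

`far1`, `far2`: the heights of the places `1`, `2` from far digits. `vfC_raw`: `VfC` at one box from
`FulP` at the earlier window `b` and no look-ahead from `b` to `x`.
-/

set_option autoImplicit false

namespace Pool.FUL71

open Finset Real MvPolynomial
open Pool.Agent.H49.Ent Pool.Agent.H32.Dense Pool.STK Pool.KA Pool.KSAT Pool.K2S Pool.PB Pool.S6C
open Pool.GEN Pool.RCD Pool.LA91 Pool.AVG96 Pool.AVG57 Pool.FUL95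

variable {m : ℕ} {γ : ∀ J : ℕ, Fam m J → Type} {S : PCl m} {c : ℕ → Fin m}
  {y : ∀ (J : ℕ) (F : Fam m J), F.Ω → γ J F} {s A B Λ : ℝ} {sn : ℝ → ℕ → ℝ} {G : Set ℝ}
  {a : ℕ → ℝ} {A' B' σ₀ : ℝ} {lv : ℕ → ℝ} {b w x N : ℝ}

/-- The height of the place `1` from far digits. -/
theorem far1 (hF : FarR sn G 1 3 a Λ A' B' lv σ₀)
    (h : GCh S (fun J F => ptr F J) y c 1 3 s A B Λ sn G) (hA : A ≤ A') (hB : B' ≤ B)
    (hb : b ∈ G) (hbA : A' < b) (hbB : b < B') (hN : N ≤ σ₀ / 2) (hNΛ : N + σ₀ / 2 ≤ Λ) :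
    Few S (fun J F => ptr F J) (vg b) y (jetQ m c 1 3 b (sn b) (nD sn a))
      (qJet m ((range 1).image c) (c 1) 0 b (sn b 1) (sn b 1 + N)) := by
  have hσ := hF.σ0
  have f1 := hF.far hb hbA hbB (l := 1) (j' := 0) le_rfl (by norm_num) (by norm_num)
  have f2 := hF.lv0 1 le_rfl (by norm_num)
  rw [Nat.cast_zero, zero_mul] at f1
  have k1 := h.gjet (i := 1) (j := 0) (lv := fun _ => 1) (σ₀ := σ₀ / 2) (p₀ := sn b) (w := b)
    (x₀ := b) (x := b) (x' := b) (p := sn b 1) (p' := sn b 1) (N := fun _ _ => 0)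
    (N₁ := nD sn a 1 0) (N₂ := sn b 1 + N) (by norm_num) (by norm_num) hb (by linarith)
    (by linarith) le_rfl le_rfl le_rfl (fun l a b' => by omega) (by linarith)
    (fun _ _ _ => one_pos)
    (fun l a b' j' hj' => by omega) (fun l a b' => by omega) (fun l a b' l' a' b'' => by omega)
    (by linarith)
    (by
      rw [min_self, Nat.cast_zero, zero_mul]
      linarith) (fun l a b' => by omega)
  refine few_lmap h.pos (fun u => ((fun _ _ => 0), u 1 0)) (fun K e J F A'' u hu => ?_) k1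
  exact ⟨⟨fun l a b' => absurd b' (by omega), fun _ _ _ _ _ => rfl⟩,
    hu.1 1 le_rfl (by norm_num) 0 (by norm_num)⟩

/-- The height of the place `2` from far digits. -/
theorem far2 (hF : FarR sn G 1 3 a Λ A' B' lv σ₀)
    (h : GCh S (fun J F => ptr F J) y c 1 3 s A B Λ sn G) (hA : A ≤ A') (hB : B' ≤ B)
    (hb : b ∈ G) (hbA : A' < b) (hbB : b < B') (hN : N ≤ σ₀ / 2) (hNΛ : N + σ₀ / 2 ≤ Λ) :
    Few S (fun J F => ptr F J) (vg b) y (jetQ m c 1 3 b (sn b) (nD sn a))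
      (qJet m ((range 2).image c) (c 2) 0 b (sn b 2) (sn b 2 + N)) := by
  have hσ := hF.σ0
  have f1 := hF.far hb hbA hbB (l := 2) (j' := 0) (by norm_num) (by norm_num) (by norm_num)
  have f2 := hF.lv0 2 (by norm_num) (by norm_num)
  have f3 := hF.c2' b hb b hb hbA le_rfl hbB 2 (by norm_num) (by norm_num) 1 le_rfl (by norm_num)
  rw [Nat.cast_zero, zero_mul] at f1
  have k1 := h.jet_few (i := 2) (j := 0) (lv := lv) (σ₀ := σ₀ / 2) (p₀ := sn b) (w := b)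
    (x₀ := b) (x := b) (x' := b) (p := sn b 2) (p' := sn b 2) (N := nD sn a)
    (N₁ := nD sn a 2 0) (N₂ := sn b 2 + N) (by norm_num) (by norm_num) (by norm_num) hb
    (by linarith)
    (by linarith) le_rfl le_rfl le_rfl (fun l l0 l1 => le_rfl) (by linarith)
    (fun l l0 l1 => hF.lv0 l l0 (by omega))
    (fun l l0 l1 j' hj' => by linarith [hF.far hb hbA hbB l0 (show l < 3 by omega) hj'])
    (fun l l0 l1 => by linarith [hF.c2 b hb b hb hbA le_rfl hbB l l0 (by omega)])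
    (fun l l0 l1 l' l0' l1' => by omega)
    (by linarith)
    (by
      rw [min_self, Nat.cast_zero, zero_mul]
      linarith) (fun l l0 l1 => by
      obtain rfl : l = 1 := by omega
      rw [min_self, Nat.cast_zero, zero_mul]
      linarith)
  refine few_lmap h.pos (fun u => ((fun l j' => if 1 ≤ l ∧ l < 2 ∧ j' ≤ 1 then u l j' else 0),
    u 2 0)) (fun K e J F A'' u hu => ?_) k1
  exact ⟨qJets_take (by norm_num) le_rfl hu, hu.1 2 (by norm_num) (by norm_num) 0 (by norm_num)⟩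

/-- **The moved place is full** in one box. -/
theorem vfC_raw {p n n' : ℕ → ℝ} {P N₁ N₂ Na Nb Nd ℓ ℓ₂ σ δ η ε θ : ℝ}
    (T : T2N sn G b w Λ p n n' P N₁ N₂ Na Nb Nd ℓ ℓ₂ σ δ)
    (hF : FarR sn G 1 3 a Λ A' B' lv σ₀)
    (h : GCh S (fun J F => ptr F J) y c 1 3 s A B Λ sn G) (hA : A ≤ A') (hB : B' ≤ B)
    (hb : b ∈ G) (hw : w ∈ G) (hbA : A' < b) (hbw : b ≤ w) (hwB : w < B') (hwx : w ≤ x)
    (hx : x ≤ 1) (hN₁ : N₁ ≤ σ₀ / 2) (hN₂ : N₂ ≤ σ₀ / 2) (hNΛ : N₁ + σ₀ / 2 ≤ Λ)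
    (hNΛ' : N₂ + σ₀ / 2 ≤ Λ) (hL : FulP S y c 1 b (sn b) (sn b) P N₁ N₂ η)
    (hM : MIw S (fun J F => ptr F J) y b x (jetQ m c 1 3 b (sn b) (nD sn a))
      (jetQ m c 1 3 b (sn b) (ndb sn b P)) ε)
    (hθ : (Nb - Na) * Real.log 2 - θ < (N₂ - P) * Real.log 2 - η - ε) :
    VfC S y c 1 2 w x p n n' Na Nb Nd θ := by
  have hbB : b < B' := hbw.trans_lt hwB
  have hA1 : A ≤ b := by linarith
  have hB1 : w < B := by linarith
  have hL' : LowN S (fun J F => ptr F J) (vg b) y (jetQ m c 1 3 b (sn b) (ndb sn b P))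
      ((qJet m ((range 1).image c) (c 1) 0 b (sn b 1) (sn b 1 + N₁)).prod
        (qJet m ((range 2).image c) (c 2) 0 b (sn b 2) (sn b 2 + N₂)))
      (((N₁ - P) + (N₂ - P)) * Real.log 2 - η) := hL
  exact vfC_t2 h.pos hwx hx hL' (T.g5 h hb hA1 hbw hB1) hM
    (far1 hF h hA hB hb hbA hbB hN₁ hNΛ) (far2 hF h hA hB hb hbA hbB hN₂ hNΛ')
    (T.g1 h hb hw hA1 hbw hB1) (T.g2 h hb hw hA1 hbw hB1) (T.g3 h hb hw hA1 hbw hB1)
    (T.g4 h hb hw hA1 hbw hB1) (h.exsjs hb hA1 (by linarith) le_rfl 1 _)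
    (h.exsj hb hA1 (by linarith) (by norm_num) (by norm_num) 0 _)
    (h.exsj hb hA1 (by linarith) (by norm_num) (by norm_num) 0 _)
    (h.exsjs hb hA1 (by linarith) le_rfl 1 _) (by linarith)

end Pool.FUL71
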