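import Pool.Agent.H71.FUL.Fua

/-!
# One jet of the place 2 over labels of another window

`GCh.self1`: the jets of the place `1`. `GCh.jet_up`: from labels of `b` to labels of a later window
`w`, by small steps. `GCh.jet_dn`: the height of the place `2` from labels of `w` to labels of `b`.
-/

set_option autoImplicit false

namespace Pool.AVG96

open Finset Real MvPolynomial MeasureTheory Filter Topology
open Pool.Agent.H49.Ent Pool.Agent.H32.Dense Pool.STK Pool.KA Pool.KSAT Pool.K2S Pool.PB Pool.S6C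
  Pool.GEN Pool.RCD Pool.LA91

variable {m : ℕ} {α γ : ∀ J : ℕ, Fam m J → Type}
  {f : ∀ (J : ℕ) (F : Fam m J), F.Ω → α J F} {y : ∀ (J : ℕ) (F : Fam m J), F.Ω → γ J F}
  {S : PCl m} {c : ℕ → Fin m} {r₀ r : ℕ} {s A B Λ : ℝ} {sn : ℝ → ℕ → ℝ} {G : Set ℝ}

/-- **One jet of the place `1`**, between any two windows before `w`. -/
theorem GCh.jet1 (h : GCh S f y c 1 3 s A B Λ sn G) {j : ℕ} {w x x' p p' N₁ N₂ σ : ℝ}
    (hw : w ∈ G) (hA : A ≤ w) (hB : w < B) (hx : x ≤ w) (hx' : x' ≤ w) (hσ : 0 < σ)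
    (hN : N₂ ≤ N₁) (h1 : N₂ + (j : ℝ) * w + σ ≤ p + Λ) (h2 : N₂ + (j : ℝ) * w + σ ≤ p' + Λ) :
    Few S f (vg w) y (qJet m ((range 1).image c) (c 1) j x p N₁)
      (qJet m ((range 1).image c) (c 1) j x' p' N₂) := by
  have k1 := h.gjet (i := 1) (j := j) (lv := fun _ => σ) (σ₀ := σ) (p₀ := sn w) (w := w)
    (x₀ := w) (x := x) (x' := x') (p := p) (p' := p') (N := fun _ _ => 0)
    (N₁ := N₁) (N₂ := N₂) (by norm_num) (by norm_num) hw hA hB le_rfl hx hx'
    (fun l a b' => by omega) hσ (fun _ _ _ => hσ)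
    (fun l a b' j' hj' => by omega) (fun l a b' => by omega) (fun l a b' l' a' b'' => by omega)
    hN (by
      rw [← min_add_add_right]
      exact le_min h1 h2) (fun l a b' => by omega)
  refine few_lmap h.pos (fun u => ((fun _ _ => 0), u)) (fun K e J F A' u hu => ?_) k1
  exact ⟨⟨fun l a b' => absurd b' (by omega), fun _ _ _ _ _ => rfl⟩, hu⟩

/-- The jets of the place `1` at `b`, few bits of themselves over `w`. -/
theorem GCh.self1 (h : GCh S f y c 1 3 s A B Λ sn G) {j : ℕ} {b w σ : ℝ} (hw : w ∈ G)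
    (hA : A ≤ w) (hB : w < B) (hbw : b ≤ w) (hσ : 0 < σ) {p₁ : ℕ → ℝ} {N1 : ℕ → ℕ → ℝ}
    (g4 : ∀ j' ≤ j, N1 1 j' + (j' : ℕ) * w + σ ≤ p₁ 1 + Λ) :
    Few S f (vg w) y (qJets m c 1 2 j (fun _ _ => b) (fun l _ => p₁ l) N1)
      (qJets m c 1 2 j (fun _ _ => b) (fun l _ => p₁ l) N1) := by
  refine few_qjets h.pos fun i i0 i1 j' hj' => ?_
  obtain rfl : i = 1 := by omega
  refine few_lmap h.pos (fun u => u 1 j') (fun K e J F A' u hu => ?_)
    (h.jet1 (x := b) (x' := b) (p := p₁ 1) (p' := p₁ 1) (N₁ := N1 1 j') (N₂ := N1 1 j') hw hA hB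
      hbw hbw hσ le_rfl (g4 j' hj') (g4 j' hj'))
  exact hu.1 1 le_rfl (by norm_num) j' hj'

/-- **One jet of the place `2` over the labels of a later window.** The place `1` is known over
the labels of `b`. -/
theorem GCh.jet_up (h : GCh S f y c 1 3 s A B Λ sn G) {j : ℕ} (hj : j ≤ 1) {b w : ℝ} (hb : b ∈ G)
    (hw : w ∈ G) (hA : A ≤ b) (hbw : b ≤ w) (hB : w < B) {σ δ : ℝ} (hσ : 0 < σ) (hδ : 0 < δ)
    (gap : ∀ x, b ≤ x → x ≤ w → ∃ v ∈ G, |v - x| ≤ δ) {N1 : ℕ → ℕ → ℝ} {N N₀ p' : ℝ}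
    (hN : N ≤ N₀)
    (g1 : ∀ low ∈ G, ∀ up ∈ G, b ≤ low → low ≤ up → up ≤ w → up ≤ low + 3 * δ → ∀ j' ≤ j,
      sn up 1 + (N + j * up - sn low 2) + 2 * σ ≤ N1 1 j' + (j' : ℕ) * up)
    (g3 : N + j * w + σ ≤ sn b 2 + Λ) (g0 : sn w 2 ≤ N + j * w)
    (g4 : ∀ j' ≤ j, N1 1 j' + (j' : ℕ) * w + σ ≤ sn b 1 + Λ)
    (hp' : p' ≤ sn w 2) (e1 : ∀ j' ≤ j, sn w 1 + (N + j * w - p') + 2 * σ ≤ N1 1 j' + (j' : ℕ) * w)
    (e3 : N + j * w + σ ≤ p' + Λ) :
    Few S f (vg w) y ((qJets m c 1 2 j (fun _ _ => b) (fun l _ => sn b l) N1).prod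
      (qJet m ((range 2).image c) (c 2) j b (sn b 2) N₀))
      (qJet m ((range 2).image c) (c 2) j w p' N) := by
  have hw1 : w ≤ 1 := (hB.trans h.B1).le
  have hbB : b < B := hbw.trans_lt hB
  have hj1 : (j : ℝ) ≤ 1 := by exact_mod_cast hj
  have hj0 : (0 : ℝ) ≤ j := Nat.cast_nonneg j
  have hup : ∀ v : ℝ, v ≤ w → ∀ (J : ℕ) (F : Fam m J), ∃ φ : LnT F → LnT F, ∀ ω,
      vg v J F ω = φ (vg w J F ω) := fun v hv J F => vg_mono hv hw1 J F
  -- the place `1`
  have hC : Few S f (vg w) y (qJets m c 1 2 j (fun _ _ => b) (fun l _ => sn b l) N1)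
      (qJets m c 1 2 j (fun _ _ => b) (fun l _ => sn b l) N1) :=
    h.self1 hw (hA.trans hbw) hB hbw hσ g4
  obtain ⟨n', hn'⟩ := exists_nat_ge ((w - b) / δ)
  obtain ⟨N', bw, b0, bN, hbw', hs⟩ := gseq (h := 3 * δ) (ρ₀ := δ) hb (by linarith) n' w hw hbw
    (by
      rw [div_le_iff₀ hδ] at hn'
      linarith) gap
  obtain ⟨Q, hQ⟩ : ∃ Q, Q = (qJets m c 1 2 j (fun _ _ => b) (fun l _ => sn b l) N1).prod
      (qJet m ((range 2).image c) (c 2) j b (sn b 2) N₀) := ⟨_, rfl⟩
  rw [← hQ]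
  have hC' : Few S f (vg w) y Q (qJets m c 1 2 j (fun _ _ => b) (fun l _ => sn b l) N1) := by
    rw [hQ]
    exact Few.fst h.pos hC
  -- one step
  have hstep : ∀ low ∈ G, ∀ up ∈ G, b ≤ low → low ≤ up → up ≤ w → up ≤ low + 3 * δ →
      ∀ M : ℝ, N ≤ M → Few S f (vg w) y
        ((qJets m c 1 2 j (fun _ _ => b) (fun l _ => sn b l) N1).prod
        (qJet m ((range 2).image c) (c 2) j low (sn low 2) M))
        (qJet m ((range 2).image c) (c 2) j up (sn up 2) N) := by
    intro low hlow up hu h1 h2 h3 h4 M hM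
    have hAl : A ≤ low := hA.trans h1
    have e1 := h.mono 2 (by norm_num) (by norm_num) low hlow w hw hAl (h2.trans h3) hB
    have e2 : (j : ℝ) * (w - low) ≤ 1 * (w - low) :=
      mul_le_mul_of_nonneg_right hj1 (by linarith)
    have e3 : (j : ℝ) * low ≤ j * up := mul_le_mul_of_nonneg_left h2 hj0
    have e4 : (j : ℝ) * up ≤ j * w := mul_le_mul_of_nonneg_left h3 hj0
    have e5 : (j : ℝ) * (w - low) = j * w - j * low := by ring
    have hlv : 0 < N + j * up - sn low 2 + σ := by linarith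
    have hm : min (sn low 2) (sn up 2) = sn low 2 :=
      min_eq_left (h.mono' (by norm_num) (by norm_num) hlow hu hAl h2 (h3.trans_lt hB))
    have key := h.gjet (i := 2) (j := j) (by norm_num) (by norm_num) (w := up) (x₀ := b)
      (x := low) (x' := up) hu (hAl.trans h2) (h3.trans_lt hB) (h1.trans h2) h2 le_rfl
      (p₀ := sn b) (p := sn low 2) (p' := sn up 2) (N := N1) (N₁ := M) (N₂ := N)
      (lv := fun _ => N + j * up - sn low 2 + σ) (σ₀ := σ)
      (fun l a b' => h.mono' a (by omega) hb hu hA (h1.trans h2) (h3.trans_lt hB)) hσ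
      (fun _ _ _ => hlv) (fun l a b' j' hj' => ?_) (fun l a b' => ?_)
      (fun l a b' l' a' b'' => by omega) hM ?_ (fun l a b' => ?_)
    · exact Few.up (f' := f) (y' := y) h.pos (fun J F => ⟨fun x => x, fun _ => rfl⟩)
        (hup up h3) (fun J F => ⟨fun x => x, fun _ => rfl⟩) key
    · obtain rfl : l = 1 := by omega
      linarith [g1 low hlow up hu h1 h2 h3 h4 j' hj']
    · obtain rfl : l = 1 := by omega
      have t1 := g1 low hlow up hu h1 h2 h3 h4 0 (Nat.zero_le j)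
      have t2 := g4 0 (Nat.zero_le j)
      rw [Nat.cast_zero, zero_mul] at t1 t2
      linarith
    · rw [hm]
      linarith [h.mono' (show 1 ≤ 2 by norm_num) (show 2 ≤ 3 by norm_num) hb hlow hA h1
        ((h2.trans h3).trans_lt hB)]
    · rw [hm]
      linarith
  have key : ∀ t ≤ N', Few S f (vg w) y Q
      (qJet m ((range 2).image c) (c 2) j (bw (N' - t)) (sn (bw (N' - t)) 2) N) := by
    intro t
    induction t with
    | zero =>
      intro _
      rw [Nat.sub_zero, bN, hQ]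
      exact hstep b hb b hb le_rfl le_rfl hbw (by linarith) N₀ hN
    | succ t ih =>
      intro ht
      have h3 := ih (by omega)
      have e1 : N' - t = (N' - (t + 1)) + 1 := by omega
      rw [e1] at h3
      obtain ⟨q1, q2⟩ := hs (N' - (t + 1)) (by omega)
      obtain ⟨g1', g2', g3'⟩ := hbw' (N' - (t + 1)) (by omega)
      obtain ⟨g4', g5', g6'⟩ := hbw' (N' - (t + 1) + 1) (by omega)
      exact Few.trans h.pos (Exs.prod (h.exsjs hb hA hbB (by norm_num) j N1)
        (h.exsj g4' (hA.trans g5') (g6'.trans_lt hB) (by norm_num) (by norm_num) j N))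
        (Few.pair h.pos hC' h3) (hstep _ g4' _ g1' g5' q1 g3' q2 N le_rfl)
  have h5 := key N' le_rfl
  rw [Nat.sub_self, b0] at h5
  -- another precision
  have k4 := h.gjet (i := 2) (j := j) (lv := fun _ => N + j * w - p' + σ) (σ₀ := σ) (p₀ := sn b)
      (w := w) (x₀ := b) (x := w) (x' := w) (p := sn w 2) (p' := p') (N := N1) (N₁ := N)
      (N₂ := N) (by norm_num) (by norm_num) hw (hA.trans hbw) hB hbw
      le_rfl le_rfl (fun l a b' => h.mono' a (by omega) hb hw hA hbw hB) hσ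
      (fun _ _ _ => by linarith)
      (fun l a b' j' hj' => by
        obtain rfl : l = 1 := by omega
        linarith [e1 j' hj'])
      (fun l a b' => by
        obtain rfl : l = 1 := by omega
        have t1 := e1 0 (Nat.zero_le j)
        have t2 := g4 0 (Nat.zero_le j)
        rw [Nat.cast_zero, zero_mul] at t1 t2
        linarith) (fun l a b' l' a' b'' => by omega) le_rfl
      (by
        rw [min_eq_right hp']
        exact e3)
      (fun l a b' => by
        rw [min_eq_right hp']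
        linarith)
  exact Few.trans h.pos (Exs.prod (h.exsjs hb hA hbB (by norm_num) j N1)
    (h.exsj hw (hA.trans hbw) hB (by norm_num) (by norm_num) j N)) (Few.pair h.pos hC' h5) k4

/-- **The height of the place `2` over the labels of an earlier window.** The place `1` is known over
the labels of `b`. -/
theorem GCh.jet_dn (h : GCh S f y c 1 3 s A B Λ sn G) {b w : ℝ} (hb : b ∈ G)
    (hw : w ∈ G) (hA : A ≤ b) (hbw : b ≤ w) (hB : w < B) {σ δ : ℝ} (hσ : 0 < σ) (hδ : 0 < δ)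
    (gap : ∀ x, b ≤ x → x ≤ w → ∃ v ∈ G, |v - x| ≤ δ) {N1 : ℕ → ℕ → ℝ} {N N₀ p' : ℝ}
    (hN : N ≤ N₀)
    (g1 : ∀ low ∈ G, ∀ up ∈ G, b ≤ low → low ≤ up → up ≤ w → up ≤ low + 3 * δ →
      sn up 1 + (N - sn low 2) + 2 * σ ≤ N1 1 0)
    (g3 : N + σ ≤ sn b 2 + Λ) (g0 : sn w 2 ≤ N) (g4 : N1 1 0 + σ ≤ sn b 1 + Λ)
    (hp' : p' ≤ sn w 2) (e1 : sn w 1 + (N - p') + 2 * σ ≤ N1 1 0)
    (e3 : N + σ ≤ p' + Λ) :
    Few S f (vg w) y ((qJets m c 1 2 0 (fun _ _ => b) (fun l _ => sn b l) N1).prod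
      (qJet m ((range 2).image c) (c 2) 0 w p' N₀))
      (qJet m ((range 2).image c) (c 2) 0 b (sn b 2) N) := by
  have hw1 : w ≤ 1 := (hB.trans h.B1).le
  have hbB : b < B := hbw.trans_lt hB
  have hup : ∀ v : ℝ, v ≤ w → ∀ (J : ℕ) (F : Fam m J), ∃ φ : LnT F → LnT F, ∀ ω,
      vg v J F ω = φ (vg w J F ω) := fun v hv J F => vg_mono hv hw1 J F
  have hC : Few S f (vg w) y (qJets m c 1 2 0 (fun _ _ => b) (fun l _ => sn b l) N1)
      (qJets m c 1 2 0 (fun _ _ => b) (fun l _ => sn b l) N1) :=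
    h.self1 hw (hA.trans hbw) hB hbw hσ fun j' hj' => by
      obtain rfl : j' = 0 := by omega
      rw [Nat.cast_zero, zero_mul]
      linarith
  obtain ⟨n', hn'⟩ := exists_nat_ge ((w - b) / δ)
  obtain ⟨N', bw, b0, bN, hbw', hs⟩ := gseq (h := 3 * δ) (ρ₀ := δ) hb (by linarith) n' w hw hbw
    (by
      rw [div_le_iff₀ hδ] at hn'
      linarith) gap
  obtain ⟨Q, hQ⟩ : ∃ Q, Q = (qJets m c 1 2 0 (fun _ _ => b) (fun l _ => sn b l) N1).prod
      (qJet m ((range 2).image c) (c 2) 0 w p' N₀) := ⟨_, rfl⟩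
  rw [← hQ]
  have hC' : Few S f (vg w) y Q (qJets m c 1 2 0 (fun _ _ => b) (fun l _ => sn b l) N1) := by
    rw [hQ]
    exact Few.fst h.pos hC
  -- another precision
  have k4 := h.gjet (i := 2) (j := 0) (lv := fun _ => N - p' + σ) (σ₀ := σ) (p₀ := sn b)
      (w := w) (x₀ := b) (x := w) (x' := w) (p := p') (p' := sn w 2) (N := N1) (N₁ := N₀)
      (N₂ := N) (by norm_num) (by norm_num) hw (hA.trans hbw) hB hbw
      le_rfl le_rfl (fun l a b' => h.mono' a (by omega) hb hw hA hbw hB) hσ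
      (fun _ _ _ => by linarith)
      (fun l a b' j' hj' => by
        obtain rfl : l = 1 := by omega
        obtain rfl : j' = 0 := by omega
        rw [Nat.cast_zero, zero_mul]
        linarith)
      (fun l a b' => by
        obtain rfl : l = 1 := by omega
        linarith) (fun l a b' l' a' b'' => by omega) hN
      (by
        rw [min_eq_left hp', Nat.cast_zero, zero_mul]
        linarith)
      (fun l a b' => by
        rw [min_eq_left hp', Nat.cast_zero, zero_mul]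
        linarith)
  rw [← hQ] at k4
  -- one step
  have hstep : ∀ low ∈ G, ∀ up ∈ G, b ≤ low → low ≤ up → up ≤ w → up ≤ low + 3 * δ →
      Few S f (vg w) y
        ((qJets m c 1 2 0 (fun _ _ => b) (fun l _ => sn b l) N1).prod
        (qJet m ((range 2).image c) (c 2) 0 up (sn up 2) N))
        (qJet m ((range 2).image c) (c 2) 0 low (sn low 2) N) := by
    intro low hlow up hu h1 h2 h3 h4
    have hAl : A ≤ low := hA.trans h1
    have e1 := h.mono' (show 1 ≤ 2 by norm_num) (show 2 ≤ 3 by norm_num) hlow hw hAl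
      (h2.trans h3) hB
    have hlv : 0 < N - sn low 2 + σ := by linarith
    have hm : min (sn up 2) (sn low 2) = sn low 2 :=
      min_eq_right (h.mono' (by norm_num) (by norm_num) hlow hu hAl h2 (h3.trans_lt hB))
    have key := h.gjet (i := 2) (j := 0) (by norm_num) (by norm_num) (w := up) (x₀ := b)
      (x := up) (x' := low) hu (hAl.trans h2) (h3.trans_lt hB) (h1.trans h2) le_rfl h2
      (p₀ := sn b) (p := sn up 2) (p' := sn low 2) (N := N1) (N₁ := N) (N₂ := N)
      (lv := fun _ => N - sn low 2 + σ) (σ₀ := σ)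
      (fun l a b' => h.mono' a (by omega) hb hu hA (h1.trans h2) (h3.trans_lt hB)) hσ
      (fun _ _ _ => hlv) (fun l a b' j' hj' => ?_) (fun l a b' => ?_)
      (fun l a b' l' a' b'' => by omega) le_rfl ?_ (fun l a b' => ?_)
    · exact Few.up (f' := f) (y' := y) h.pos (fun J F => ⟨fun x => x, fun _ => rfl⟩)
        (hup up h3) (fun J F => ⟨fun x => x, fun _ => rfl⟩) key
    · obtain rfl : l = 1 := by omega
      obtain rfl : j' = 0 := by omega
      rw [Nat.cast_zero, zero_mul]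
      linarith [g1 low hlow up hu h1 h2 h3 h4]
    · obtain rfl : l = 1 := by omega
      linarith [g1 low hlow up hu h1 h2 h3 h4]
    · rw [hm, Nat.cast_zero, zero_mul]
      linarith [h.mono' (show 1 ≤ 2 by norm_num) (show 2 ≤ 3 by norm_num) hb hlow hA h1
        ((h2.trans h3).trans_lt hB)]
    · rw [hm, Nat.cast_zero, zero_mul]
      linarith
  have key : ∀ t ≤ N', Few S f (vg w) y Q
      (qJet m ((range 2).image c) (c 2) 0 (bw t) (sn (bw t) 2) N) := by
    intro t
    induction t with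
    | zero =>
      intro _
      rw [b0]
      exact k4
    | succ t ih =>
      intro ht
      have h3 := ih (by omega)
      obtain ⟨q1, q2⟩ := hs t (by omega)
      obtain ⟨g1', g2', g3'⟩ := hbw' t (by omega)
      obtain ⟨g4', g5', g6'⟩ := hbw' (t + 1) (by omega)
      exact Few.trans h.pos (Exs.prod (h.exsjs hb hA hbB (by norm_num) 0 N1)
        (h.exsj g1' (hA.trans g2') (g3'.trans_lt hB) (by norm_num) (by norm_num) 0 N))
        (Few.pair h.pos hC' h3) (hstep _ g4' _ g1' g5' q1 g3' q2)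
  have h5 := key N' le_rfl
  rw [bN] at h5
  exact h5

end Pool.AVG96
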