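import Pool.Agent.H71.FUL.Fub
import Pool.Agent.H57.AVN.Lit

/-!
# The pair of places is full: from an earlier window

`pr_ent`: the entropies. `vfP_t2`: `VfP` at `w` from the fullness of two heights at an earlier window
`b`, given near digits, from few bits and more digits. `GCh.jet_up`, `GCh.jet_dn`: one jet of the place
`2` over labels of another window, by small steps.
-/

set_option autoImplicit false

namespace Pool.FUL71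

open Finset Real MvPolynomial
open Pool.Agent.H49.Ent Pool.Agent.H32.Dense Pool.STK Pool.KA Pool.KSAT Pool.K2S Pool.PB Pool.S6C
open Pool.GEN Pool.RCD Pool.LA91 Pool.AVG96 Pool.AVG57
open Pool.AVG71 (MI_eq MI_eq')
open Pool.KVA (MI)

section ent

variable {Ω 𝓝 𝓗 𝓚 𝓕 𝓡 𝓑 𝓩 𝓤 𝓐 𝓒 𝓓 𝓨 𝓔 𝓖 𝓛 𝓞 : Type} [Fintype Ω] {p : Ω → ℝ}

/-- The mutual information with a quantity which is few bits given another one. -/
theorem mi_few1 (h0 : ∀ ω, 0 ≤ p ω) (zx : Ω → 𝓡) (far : Ω → 𝓕) (H : Ω → 𝓗) (C : Ω → 𝓒) {ε ε' : ℝ}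
    (k3 : MI p zx far C ≤ ε) (k4 : CH p H (fun ω => (far ω, C ω)) ≤ ε') :
    CH p H C ≤ CH p H (fun ω => (zx ω, C ω)) + ε + ε' := by
  have e1 := MI_eq' h0 zx H C
  have e2 := MI_eq h0 zx H C
  have e3 := MI_eq h0 zx far C
  have a2 := CH_le_add h0 zx H (fun ω => (far ω, C ω))
  have a7 : CH p zx (fun ω => (H ω, (far ω, C ω))) ≤ CH p zx (fun ω => (H ω, C ω)) :=
    CH_mono_cond h0 fun ω ω' _ _ hh => by
      simp only [Prod.mk.injEq] at hh ⊢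
      exact ⟨hh.1, hh.2.2⟩
  linarith

/-- **The entropies** of the pair. -/
theorem pr_ent (h0 : ∀ ω, 0 ≤ p ω) (n : Ω → 𝓝) (E : Ω → 𝓔) (h1 : Ω → 𝓗) (h2 : Ω → 𝓚)
    (far : Ω → 𝓕) (zx : Ω → 𝓡) (zb : Ω → 𝓑) (zw : Ω → 𝓩) (u : Ω → 𝓤) (a : Ω → 𝓐) (b : Ω → 𝓒)
    (d : Ω → 𝓓) (g₀ : Ω → 𝓞) (g : Ω → 𝓖) (bu : Ω → 𝓛) (y : Ω → 𝓨) {θ δ₁ δ₂ δ₂' δ₃ ε ε' : ℝ}
    (k1 : θ ≤ CH p (fun ω => (h1 ω, h2 ω)) (fun ω => (zb ω, (n ω, y ω))))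
    (k2 : CH p E (fun ω => (n ω, (zb ω, y ω))) ≤ δ₁)
    (k3 : MI p zx far (fun ω => (n ω, (zb ω, y ω))) ≤ ε)
    (k4 : CH p h1 (fun ω => (far ω, (zb ω, y ω))) ≤ ε')
    (k5 : CH p h2 (fun ω => (far ω, (zb ω, y ω))) ≤ ε')
    (k6 : CH p zw zx ≤ ε')
    (k7 : CH p u (fun ω => ((n ω, E ω), (zw ω, y ω))) ≤ ε')
    (k8 : CH p a (fun ω => ((n ω, E ω), (zw ω, y ω))) ≤ ε')
    (k9 : CH p d (fun ω => ((n ω, E ω), (zw ω, y ω))) ≤ ε')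
    (k10 : CH p g₀ (fun ω => ((n ω, E ω), (zw ω, y ω))) ≤ δ₂)
    (k11 : CH p g (fun ω => (((n ω, E ω), g₀ ω), (zw ω, y ω))) ≤ δ₂')
    (k12 : CH p h1 (fun ω => (((n ω, E ω), b ω), (zw ω, y ω))) ≤ δ₃)
    (k13 : CH p h2 (fun ω => (((n ω, h1 ω), bu ω), (zw ω, y ω))) ≤ ε') :
    θ - ε - δ₁ - δ₂ - δ₂' - δ₃ - 7 * ε' ≤ CH p (fun ω => (b ω, bu ω))
      (fun ω => (a ω, (d ω, (g ω, (zx ω, (zw ω, (u ω, y ω))))))) := by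
  -- far knows both heights
  have f1 := CH_le_add h0 (fun ω => (h1 ω, h2 ω)) h1 (fun ω => (far ω, (n ω, (zb ω, y ω))))
  have f2 := CH_le_add h0 (fun ω => (h1 ω, h2 ω)) h2
    (fun ω => (h1 ω, (far ω, (n ω, (zb ω, y ω)))))
  have f3 : CH p (fun ω => (h1 ω, h2 ω))
      (fun ω => (h2 ω, (h1 ω, (far ω, (n ω, (zb ω, y ω)))))) = 0 :=
    CH_eq_zero h0 fun ω ω' _ _ hh => by
      simp only [Prod.mk.injEq] at hh ⊢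
      exact ⟨hh.2.1, hh.1⟩
  have f4 : CH p h1 (fun ω => (far ω, (n ω, (zb ω, y ω)))) ≤ ε' :=
    (CH_mono_cond h0 fun ω ω' _ _ hh => by
      simp only [Prod.mk.injEq] at hh ⊢
      exact ⟨hh.1, hh.2.2⟩).trans k4
  have f5 : CH p h2 (fun ω => (h1 ω, (far ω, (n ω, (zb ω, y ω))))) ≤ ε' :=
    (CH_mono_cond h0 fun ω ω' _ _ hh => by
      simp only [Prod.mk.injEq] at hh ⊢
      exact ⟨hh.2.1, hh.2.2.2⟩).trans k5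
  have s1 := mi_few1 h0 zx far (fun ω => (h1 ω, h2 ω)) (fun ω => (n ω, (zb ω, y ω))) (ε' := 2 * ε')
    k3 (by linarith)
  have s3 : CH p (fun ω => (h1 ω, h2 ω)) (fun ω => (zb ω, (n ω, y ω))) ≤
      CH p (fun ω => (h1 ω, h2 ω)) (fun ω => (n ω, (zb ω, y ω))) :=
    CH_mono_cond h0 fun ω ω' _ _ hh => by
      simp only [Prod.mk.injEq] at hh ⊢
      exact ⟨hh.2.1, hh.1, hh.2.2⟩
  obtain ⟨H, hH⟩ : ∃ H : Ω → 𝓗 × 𝓚, H = fun ω => (h1 ω, h2 ω) := ⟨_, rfl⟩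
  rw [← hH] at s1 s3 k1
  obtain ⟨W, hW⟩ : ∃ W : Ω → 𝓡 × 𝓝 × 𝓑 × 𝓨, W = fun ω => (zx ω, (n ω, (zb ω, y ω))) := ⟨_, rfl⟩
  have t0 : CH p H (fun ω => (zx ω, (n ω, (zb ω, y ω)))) = CH p H W := by rw [hW]
  have r1 := CH_le_add h0 H E W
  have r2 : CH p E W ≤ CH p E (fun ω => (n ω, (zb ω, y ω))) := CH_mono_cond h0
    fun ω ω' _ _ hh => by
      rw [hW] at hh
      exact (Prod.ext_iff.mp hh).2
  have t1 := CH_le_add h0 H zw (fun ω => (E ω, W ω))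
  have t2 : CH p zw (fun ω => (E ω, W ω)) ≤ CH p zw zx := CH_mono_cond h0 fun ω ω' _ _ hh => by
    rw [hW] at hh
    exact (Prod.ext_iff.mp (Prod.ext_iff.mp hh).2).1
  obtain ⟨X, hX⟩ : ∃ X : Ω → 𝓩 × 𝓔 × 𝓡 × 𝓝 × 𝓑 × 𝓨, X = fun ω => (zw ω, (E ω, W ω)) := ⟨_, rfl⟩
  have t1' : CH p H (fun ω => (zw ω, (E ω, W ω))) = CH p H X := by rw [hX]
  have hy : ∀ ω ω', X ω = X ω' →
      zw ω = zw ω' ∧ E ω = E ω' ∧ zx ω = zx ω' ∧ n ω = n ω' ∧ y ω = y ω' := by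
    intro ω ω' hh
    rw [hX] at hh
    simp only [Prod.mk.injEq] at hh
    rw [hW] at hh
    simp only [Prod.mk.injEq] at hh
    exact ⟨hh.1, hh.2.1, hh.2.2.1, hh.2.2.2.1, hh.2.2.2.2.2⟩
  have t3 := CH_le_add h0 H u X
  have t4 : CH p u X ≤ CH p u (fun ω => ((n ω, E ω), (zw ω, y ω))) :=
    CH_mono_cond h0 fun ω ω' _ _ hh => by
      obtain ⟨q1, q2, q3, q4, q5⟩ := hy ω ω' hh
      simp only [Prod.mk.injEq]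
      exact ⟨⟨q4, q2⟩, q1, q5⟩
  have t5 := CH_le_add h0 H a (fun ω => (u ω, X ω))
  have t6 : CH p a (fun ω => (u ω, X ω)) ≤ CH p a (fun ω => ((n ω, E ω), (zw ω, y ω))) :=
    CH_mono_cond h0 fun ω ω' _ _ hh => by
      obtain ⟨q1, q2, q3, q4, q5⟩ := hy ω ω' (Prod.ext_iff.mp hh).2
      simp only [Prod.mk.injEq]
      exact ⟨⟨q4, q2⟩, q1, q5⟩
  have t7 := CH_le_add h0 H d (fun ω => (a ω, (u ω, X ω)))
  have t8 : CH p d (fun ω => (a ω, (u ω, X ω))) ≤ CH p d (fun ω => ((n ω, E ω), (zw ω, y ω))) :=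
    CH_mono_cond h0 fun ω ω' _ _ hh => by
      simp only [Prod.mk.injEq] at hh
      obtain ⟨q1, q2, q3, q4, q5⟩ := hy ω ω' hh.2.2
      simp only [Prod.mk.injEq]
      exact ⟨⟨q4, q2⟩, q1, q5⟩
  have t9 := CH_le_add h0 H g₀ (fun ω => (d ω, (a ω, (u ω, X ω))))
  have t10 : CH p g₀ (fun ω => (d ω, (a ω, (u ω, X ω)))) ≤
      CH p g₀ (fun ω => ((n ω, E ω), (zw ω, y ω))) :=
    CH_mono_cond h0 fun ω ω' _ _ hh => by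
      simp only [Prod.mk.injEq] at hh
      obtain ⟨q1, q2, q3, q4, q5⟩ := hy ω ω' hh.2.2.2
      simp only [Prod.mk.injEq]
      exact ⟨⟨q4, q2⟩, q1, q5⟩
  have t11 := CH_le_add h0 H g (fun ω => (g₀ ω, (d ω, (a ω, (u ω, X ω)))))
  have t12 : CH p g (fun ω => (g₀ ω, (d ω, (a ω, (u ω, X ω))))) ≤
      CH p g (fun ω => (((n ω, E ω), g₀ ω), (zw ω, y ω))) :=
    CH_mono_cond h0 fun ω ω' _ _ hh => by
      simp only [Prod.mk.injEq] at hh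
      obtain ⟨q1, q2, q3, q4, q5⟩ := hy ω ω' hh.2.2.2.2
      simp only [Prod.mk.injEq]
      exact ⟨⟨⟨q4, q2⟩, hh.1⟩, q1, q5⟩
  obtain ⟨Y, hY⟩ : ∃ Y : Ω → 𝓖 × 𝓞 × 𝓓 × 𝓐 × 𝓤 × 𝓩 × 𝓔 × 𝓡 × 𝓝 × 𝓑 × 𝓨,
    Y = fun ω => (g ω, (g₀ ω, (d ω, (a ω, (u ω, X ω))))) := ⟨_, rfl⟩
  have t11' : CH p H (fun ω => (g ω, (g₀ ω, (d ω, (a ω, (u ω, X ω)))))) = CH p H Y := by rw [hY]
  have hY' : ∀ ω ω', Y ω = Y ω' → g ω = g ω' ∧ d ω = d ω' ∧ a ω = a ω' ∧ u ω = u ω' ∧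
      X ω = X ω' := by
    intro ω ω' hh
    rw [hY] at hh
    simp only [Prod.mk.injEq] at hh
    exact ⟨hh.1, hh.2.2.1, hh.2.2.2.1, hh.2.2.2.2.1, hh.2.2.2.2.2⟩
  have v1 := CH_le_add h0 H (fun ω => (b ω, bu ω)) Y
  have v2 : CH p (fun ω => (b ω, bu ω)) Y ≤ CH p (fun ω => (b ω, bu ω))
      (fun ω => (a ω, (d ω, (g ω, (zx ω, (zw ω, (u ω, y ω))))))) :=
    CH_mono_cond h0 fun ω ω' _ _ hh => by
      obtain ⟨o1, o2, o3, o4, o5⟩ := hY' ω ω' hh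
      obtain ⟨q1, q2, q3, q4, q5⟩ := hy ω ω' o5
      simp only [Prod.mk.injEq]
      exact ⟨o3, o2, o1, q3, q1, o4, q5⟩
  have v3 := CH_le_add h0 H h1 (fun ω => ((b ω, bu ω), Y ω))
  have v4 : CH p h1 (fun ω => ((b ω, bu ω), Y ω)) ≤
      CH p h1 (fun ω => (((n ω, E ω), b ω), (zw ω, y ω))) :=
    CH_mono_cond h0 fun ω ω' _ _ hh => by
      simp only [Prod.mk.injEq] at hh
      obtain ⟨o1, o2, o3, o4, o5⟩ := hY' ω ω' hh.2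
      obtain ⟨q1, q2, q3, q4, q5⟩ := hy ω ω' o5
      simp only [Prod.mk.injEq]
      exact ⟨⟨⟨q4, q2⟩, hh.1.1⟩, q1, q5⟩
  have v5 := CH_le_add h0 H h2 (fun ω => (h1 ω, ((b ω, bu ω), Y ω)))
  have v6 : CH p h2 (fun ω => (h1 ω, ((b ω, bu ω), Y ω))) ≤
      CH p h2 (fun ω => (((n ω, h1 ω), bu ω), (zw ω, y ω))) :=
    CH_mono_cond h0 fun ω ω' _ _ hh => by
      simp only [Prod.mk.injEq] at hh
      obtain ⟨o1, o2, o3, o4, o5⟩ := hY' ω ω' hh.2.2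
      obtain ⟨q1, q2, q3, q4, q5⟩ := hy ω ω' o5
      simp only [Prod.mk.injEq]
      exact ⟨⟨⟨q4, hh.1⟩, hh.2.1.2⟩, q1, q5⟩
  have v7 : CH p H (fun ω => (h2 ω, (h1 ω, ((b ω, bu ω), Y ω)))) = 0 :=
    CH_eq_zero h0 fun ω ω' _ _ hh => by
      rw [hH]
      simp only [Prod.mk.injEq] at hh ⊢
      exact ⟨hh.2.1, hh.1⟩
  linarith

end ent

variable {m : ℕ} {𝓝 𝓕 : Type} {γ : ∀ J : ℕ, Fam m J → Type} {S : PCl m}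
  {y : ∀ (J : ℕ) (F : Fam m J), F.Ω → γ J F}

/-- **The pair of places is full** at `w`, given the record of `x`: from the fullness of the heights
`Q1`, `Q2` at an earlier window `b` given the near digits `Qn`; `Qe`: more digits of the place `v`. -/
theorem vfP_t2
    (hpos : ∀ (τ : ℝ) (J : ℕ) (F : Fam m J) (A : F.Ω → Prop), S.St τ J F A → 0 < Pe F.p A)
    {c : ℕ → Fin m} {r₀ v K : ℕ} {b w x : ℝ} (hwx : w ≤ x) (hx1 : x ≤ 1)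
    {Qn : Qt m 𝓝} {Qe Q1 Q2 : Qt m ℤ} {Qf : Qt m 𝓕} {p n n' : ℕ → ℝ}
    {Na Nb Nd Mu Mb θ₁ δ₁ δ₂ δ₂' δ₃ ε θ : ℝ}
    (hL : LowN S (fun J F => ptr F J) (vg b) y Qn (Q1.prod Q2) θ₁)
    (hE : FewD S (fun J F => ptr F J) (vg b) y Qn Qe δ₁)
    (hM : MIw S (fun J F => ptr F J) y b x Qf Qn ε)
    (f1 : Few S (fun J F => ptr F J) (vg b) y Qf Q1)
    (f2 : Few S (fun J F => ptr F J) (vg b) y Qf Q2)
    (g1 : Few S (fun J F => ptr F J) (vg w) y (Qn.prod Qe) (jetQ m c r₀ v w p (nd n n' w)))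
    (g2 : Few S (fun J F => ptr F J) (vg w) y (Qn.prod Qe)
      (qJet m ((range v).image c) (c v) 0 w (p v) Na))
    (g3 : Few S (fun J F => ptr F J) (vg w) y (Qn.prod Qe)
      (qJet m ((range v).image c) (c v) 1 w (p v) Nd))
    (g4 : FewD S (fun J F => ptr F J) (vg w) y (Qn.prod Qe)
      (qJet m ((range (v + 1)).image c) (c (v + 1)) 0 w (p (v + 1)) Mu) δ₂)
    (g5 : FewD S (fun J F => ptr F J) (vg w) y ((Qn.prod Qe).prod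
      (qJet m ((range (v + 1)).image c) (c (v + 1)) 0 w (p (v + 1)) Mu))
      (qJets m c (v + 1) (v + 2) (K + 2) (fun _ _ => w) (fun l _ => p l)
        (fun _ j' => Mu - (j' : ℝ) * w)) δ₂')
    (g6 : FewD S (fun J F => ptr F J) (vg w) y ((Qn.prod Qe).prod
      (qJet m ((range v).image c) (c v) 0 w (p v) Nb)) Q1 δ₃)
    (g7 : Few S (fun J F => ptr F J) (vg w) y ((Qn.prod Q1).prod
      (qJet m ((range (v + 1)).image c) (c (v + 1)) 0 w (p (v + 1)) Mb)) Q2)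
    (xn : Exs S Qn) (xe : Exs S Qe) (x1 : Exs S Q1) (x2 : Exs S Q2) (xf : Exs S Qf)
    (hθ : ((Nb - Na) + (Mb - Mu)) * Real.log 2 - θ < θ₁ - ε - δ₁ - δ₂ - δ₂' - δ₃) :
    VfP S y c r₀ v K w x p n n' Na Nb Nd Mu Mb θ := by
  obtain ⟨h, hh⟩ : ∃ h : ℝ, h = (θ₁ - ε - δ₁ - δ₂ - δ₂' - δ₃ -
    (((Nb - Na) + (Mb - Mu)) * Real.log 2 - θ)) / 13 := ⟨_, rfl⟩
  have hh0 : 0 < h := by rw [hh]; linarith
  obtain ⟨k1, hk1, e1, he1, H1⟩ := hL h hh0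
  obtain ⟨e2, he2, H2⟩ := hE.mx hpos h hh0
  obtain ⟨k3, hk3, e3, he3, H3⟩ := hM h hh0
  obtain ⟨e4, he4, H4⟩ := f1.mx hpos h hh0
  obtain ⟨e5, he5, H5⟩ := f2.mx hpos h hh0
  obtain ⟨e6, he6, H6⟩ := g1.mx hpos h hh0
  obtain ⟨e7, he7, H7⟩ := g2.mx hpos h hh0
  obtain ⟨e8, he8, H8⟩ := g3.mx hpos h hh0
  obtain ⟨e9, he9, H9⟩ := g4.mx hpos h hh0
  obtain ⟨e10, he10, H10⟩ := g5.mx hpos h hh0
  obtain ⟨e11, he11, H11⟩ := g6.mx hpos h hh0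
  obtain ⟨e12, he12, H12⟩ := g7.mx hpos h hh0
  obtain ⟨e₀, he₀, l1, l2, l3, l4, l5, l6, l7, l8, l9, l10, l11, l12⟩ : ∃ e₀ : ℝ, 0 < e₀ ∧
      e₀ ≤ e1 ∧ e₀ ≤ e2 ∧ e₀ ≤ e3 ∧ e₀ ≤ e4 ∧ e₀ ≤ e5 ∧ e₀ ≤ e6 ∧ e₀ ≤ e7 ∧ e₀ ≤ e8 ∧ e₀ ≤ e9 ∧
      e₀ ≤ e10 ∧ e₀ ≤ e11 ∧ e₀ ≤ e12 := by
    have key : ∀ a b c d : ℝ, 0 < a → 0 < b → 0 < c → 0 < d →
        ∃ e : ℝ, 0 < e ∧ e ≤ a ∧ e ≤ b ∧ e ≤ c ∧ e ≤ d := fun a b c d ha hb hc hd =>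
      ⟨min (min a b) (min c d), by positivity, (min_le_left _ _).trans (min_le_left _ _),
        (min_le_left _ _).trans (min_le_right _ _), (min_le_right _ _).trans (min_le_left _ _),
        (min_le_right _ _).trans (min_le_right _ _)⟩
    obtain ⟨u1, t0, t1, t2, t3, t4⟩ := key _ _ _ _ he1 he2 he3 he4
    obtain ⟨u2, t0', t5, t6, t7, t8⟩ := key _ _ _ _ he5 he6 he7 he8
    obtain ⟨u3, t0'', t9, t10, t11, t12⟩ := key _ _ _ _ he9 he10 he11 he12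
    obtain ⟨u, w0, w1, w2, w3, -⟩ := key _ _ _ _ t0 t0' t0'' one_pos
    exact ⟨u, w0, w1.trans t1, w1.trans t2, w1.trans t3, w1.trans t4, w2.trans t5, w2.trans t6,
      w2.trans t7, w2.trans t8, w3.trans t9, w3.trans t10, w3.trans t11, w3.trans t12⟩
  obtain ⟨Ka, Ma, hxn⟩ := xn e₀ he₀
  obtain ⟨Kb, Mb', hx1'⟩ := x1 e₀ he₀
  obtain ⟨Kc, Mc, hx2'⟩ := x2 e₀ he₀
  obtain ⟨Kd, Md, hxf⟩ := xf e₀ he₀
  obtain ⟨Ke, Me, hxe⟩ := xe e₀ he₀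
  refine ⟨min k3 (h / 2), by positivity, e₀, he₀, fun K₀ => ?_⟩
  obtain ⟨K', q0, q1, q2, q3, q4, q5⟩ : ∃ K' : ℕ, K₀ ≤ K' ∧ Ka ≤ K' ∧ Kb ≤ K' ∧ Kc ≤ K' ∧
      Kd ≤ K' ∧ Ke ≤ K' :=
    ⟨K₀ + Ka + Kb + Kc + Kd + Ke, by omega, by omega, by omega, by omega, by omega, by omega⟩
  refine Bas.mono 0 ((((((H1 K').and (H2 K')).and ((H3 K').and (H4 K'))).and
    (((H5 K').and (H6 K')).and ((H7 K').and (H8 K')))).and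
    (((H9 K').and (H10 K')).and ((H11 K').and (H12 K')))).and
    ((pos_bas hpos).and (hxe.and ((hxn.and hx1').and (hx2'.and hxf))))) ?_
  rintro J - F A ⟨⟨⟨⟨⟨H1, H2⟩, H3, H4⟩, ⟨H5, H6⟩, H7, H8⟩, ⟨H9, H10⟩, H11, H12⟩, hA, ⟨ue, hue, -⟩,
    ⟨⟨nn, hnn, -⟩, u1, hu1, -⟩, ⟨u2, hu2, -⟩, uf, huf, -⟩ V₁ V₂ z zx hz hzx u₀ a bb d g bu hu₀ ha
    hb hd hg hbu
  have hp := (isLaw_cond F.isLaw hA).nonneg
  have hJ0 : (0 : ℝ) ≤ J := Nat.cast_nonneg J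
  obtain ⟨Vb, zb, hzb⟩ := mx_any (fun J F => ptr F J) (vg b) (le_refl (0 : ℝ)) hA
  have Bz : ∀ {k : ℝ}, 0 ≤ k → Mx (fun J F => ptr F J) (vg b) k F A zb := fun hk => hzb.le' hk
  have Wz : Mx (fun J F => ptr F J) (vg w) (h / 2) F A z := hz.le' (min_le_right _ _)
  have Xn : ∀ {e : ℝ}, e₀ ≤ e → Qn.P K' e J F A nn := fun he => Qn.mono q1 he hnn
  have X1 : ∀ {e : ℝ}, e₀ ≤ e → Q1.P K' e J F A u1 := fun he => Q1.mono q2 he hu1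
  have X2 : ∀ {e : ℝ}, e₀ ≤ e → Q2.P K' e J F A u2 := fun he => Q2.mono q3 he hu2
  have Xf : ∀ {e : ℝ}, e₀ ≤ e → Qf.P K' e J F A uf := fun he => Qf.mono q4 he huf
  have Xe : ∀ {e : ℝ}, e₀ ≤ e → Qe.P K' e J F A ue := fun he => Qe.mono q5 he hue
  have hg0 : (qJet m ((range (v + 1)).image c) (c (v + 1)) 0 w (p (v + 1)) Mu).P K₀ e₀ J F A
      (fun ω => g ω (v + 1) 0) := by
    have h1 : (qJet m ((range (v + 1)).image c) (c (v + 1)) 0 w (p (v + 1))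
        (Mu - ((0 : ℕ) : ℝ) * w)).P K₀ e₀ J F A (fun ω => g ω (v + 1) 0) :=
      hg.1 (v + 1) le_rfl (by omega) 0 (by omega)
    have e1 : Mu - ((0 : ℕ) : ℝ) * w = Mu := by push_cast; ring
    rw [e1] at h1
    exact h1
  have m1 := H1 Vb zb (Bz hk1.le) nn (fun ω => (u1 ω, u2 ω)) (Xn l1) ⟨X1 l1, X2 l1⟩
  have m2 := H2 Vb zb (Bz (by positivity)) nn ue (Xn l2) (Xe l2)
  have m3 := H3 Vb V₂ zb zx (Bz hk3.le) (hzx.le' (min_le_left _ _)) uf nn (Xf l3) (Xn l3)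
  have m4 := H4 Vb zb (Bz (by positivity)) uf u1 (Xf l4) (X1 l4)
  have m5 := H5 Vb zb (Bz (by positivity)) uf u2 (Xf l5) (X2 l5)
  have m6 := H6 V₁ z Wz (fun ω => (nn ω, ue ω)) u₀ ⟨Xn l6, Xe l6⟩
    ((jetQ m c r₀ v w p (nd n n' w)).mono q0 l6 hu₀)
  have m7 := H7 V₁ z Wz (fun ω => (nn ω, ue ω)) a ⟨Xn l7, Xe l7⟩
    ((qJet m ((range v).image c) (c v) 0 w (p v) Na).mono q0 l7 ha)
  have m8 := H8 V₁ z Wz (fun ω => (nn ω, ue ω)) d ⟨Xn l8, Xe l8⟩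
    ((qJet m ((range v).image c) (c v) 1 w (p v) Nd).mono q0 l8 hd)
  have m9 := H9 V₁ z Wz (fun ω => (nn ω, ue ω)) (fun ω => g ω (v + 1) 0) ⟨Xn l9, Xe l9⟩
    ((qJet m ((range (v + 1)).image c) (c (v + 1)) 0 w (p (v + 1)) Mu).mono q0 l9 hg0)
  have m10 := H10 V₁ z Wz (fun ω => ((nn ω, ue ω), g ω (v + 1) 0)) g ⟨⟨Xn l10, Xe l10⟩,
    (qJet m ((range (v + 1)).image c) (c (v + 1)) 0 w (p (v + 1)) Mu).mono q0 l10 hg0⟩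
    ((qJets m c (v + 1) (v + 2) (K + 2) (fun _ _ => w) (fun l _ => p l)
        (fun _ j' => Mu - (j' : ℝ) * w)).mono q0 l10 hg)
  have m11 := H11 V₁ z Wz (fun ω => ((nn ω, ue ω), bb ω)) u1 ⟨⟨Xn l11, Xe l11⟩,
    (qJet m ((range v).image c) (c v) 0 w (p v) Nb).mono q0 l11 hb⟩ (X1 l11)
  have m12 := H12 V₁ z Wz (fun ω => ((nn ω, u1 ω), bu ω)) u2 ⟨⟨Xn l12, X1 l12⟩,
    (qJet m ((range (v + 1)).image c) (c (v + 1)) 0 w (p (v + 1)) Mb).mono q0 l12 hbu⟩ (X2 l12)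
  have m13 : CH (Pool.Agent.H49.Ent.cond F.p A True) z zx ≤ h * J := by
    refine (hzx.2 _ z (hz.1.mono ⟨fun t => t, fun _ _ => rfl⟩ ?_)).trans
      (mul_le_mul_of_nonneg_right ((min_le_right _ _).trans (by linarith)) hJ0)
    obtain ⟨φ, hφ⟩ := vg_mono hwx hx1 J F
    exact ⟨φ, fun ω _ => hφ ω⟩
  have key := pr_ent hp nn ue u1 u2 uf zx zb z u₀ a bb d (fun ω => g ω (v + 1) 0) g bu (y J F) m1
    m2 m3 m4 m5 m13 m6 m7 m8 m9 m10 m11 m12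
  refine le_trans ?_ key
  have e1 : (θ₁ - h) * J - (ε + h) * J - (δ₁ + h) * J - (δ₂ + h) * J - (δ₂' + h) * J -
      (δ₃ + h) * J - 7 * (h * J) = (θ₁ - ε - δ₁ - δ₂ - δ₂' - δ₃ - 13 * h) * J := by ring
  rw [e1]
  refine mul_le_mul_of_nonneg_right ?_ hJ0
  rw [hh]
  linarith

end Pool.FUL71
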