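import Pool.Agent.H71.FUL.Fud
import Pool.Agent.H71.FUL.Fug
import Pool.Agent.H71.FUL.Fup
import Pool.Agent.H71.CDX.Cdl

/-!
# The pair of places is full: few bits between the windows

`P2N`: the numbers of one box. The jets over labels of `w` from the near digits at `b` and the height
of the place `1`. `pr_jets`: the jets of the place `2` of all orders, from affine labels.
-/

set_option autoImplicit false

namespace Pool.FUL71

open Finset Real MvPolynomial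
open Pool.Agent.H49.Ent Pool.Agent.H32.Dense Pool.STK Pool.KA Pool.KSAT Pool.K2S Pool.PB Pool.S6C
open Pool.GEN Pool.RCD Pool.LA91 Pool.AVG96 Pool.AVG57 Pool.OWN68 Pool.CDX

/-- **The numbers** of one box. `P`: the near digits at `b`; `M₁`: the digits of the height of the
place `1` for the near path, `N₁`, `N₂`: the digits of the two heights; `Na`, `Nb`, `Nd`, `Mu`, `Mb`: the
digits at `w`; `p`: the precisions of the labels of `w`; `δ`: the mesh. -/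
structure P2N (sn : ℝ → ℕ → ℝ) (G : Set ℝ) (b w Λ : ℝ) (p : ℕ → ℝ)
    (P M₁ N₁ N₂ Na Nb Nd Mu Mb σ δ : ℝ) : Prop where
  σ0 : 0 < σ
  δ0 : 0 < δ
  gap : ∀ x, b ≤ x → x ≤ w → ∃ v ∈ G, |v - x| ≤ δ
  p2 : p 2 ≤ sn w 2
  PM : P ≤ M₁
  NN : Nb ≤ sn b 1 + N₁
  MuP : sn b 2 + P ≤ Mu
  a : Na ≤ sn b 1 + M₁
  a1 : Na + σ ≤ p 1 + Λ
  b1 : Nb + σ ≤ p 1 + Λ
  b2 : Nb + σ ≤ sn b 1 + Λ
  d : Nd ≤ sn b 1 - b + P
  d1 : Nd + w + σ ≤ p 1 + Λ
  LP : (w - b) + P + σ ≤ Λ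
  LM : M₁ + σ ≤ Λ
  LN : N₁ + σ ≤ Λ
  o0 : ∀ low ∈ G, ∀ up ∈ G, b ≤ low → low ≤ up → up ≤ w → up ≤ low + 3 * δ →
    sn up 1 + (sn b 2 + P - sn low 2) + 2 * σ ≤ sn b 1 + M₁
  o0w : sn w 2 ≤ sn b 2 + P
  o0p : sn w 1 + (sn b 2 + P - p 2) + 2 * σ ≤ sn b 1 + M₁
  o1 : ∀ low ∈ G, ∀ up ∈ G, b ≤ low → low ≤ up → up ≤ w → up ≤ low + 3 * δ →
    sn up 1 + (Mu - w + up - sn low 2) + 2 * σ ≤ sn b 1 + M₁
  o1' : ∀ low ∈ G, ∀ up ∈ G, b ≤ low → low ≤ up → up ≤ w → up ≤ low + 3 * δ →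
    sn up 1 + (Mu - w + up - sn low 2) + 2 * σ ≤ sn b 1 - b + P + up
  o1N : Mu - w ≤ sn b 2 - b + P
  o1p : sn w 1 + (Mu - p 2) + 2 * σ ≤ sn b 1 + M₁
  o1p' : sn w 1 + (Mu - p 2) + 2 * σ ≤ sn b 1 - b + P + w
  dn : ∀ low ∈ G, ∀ up ∈ G, b ≤ low → low ≤ up → up ≤ w → up ≤ low + 3 * δ →
    sn up 1 + (sn b 2 + N₂ - sn low 2) + 2 * σ ≤ sn b 1 + N₁
  dnN : sn b 2 + N₂ ≤ Mb
  dnw : sn w 2 ≤ sn b 2 + N₂
  dnp : sn w 1 + (sn b 2 + N₂ - p 2) + 2 * σ ≤ sn b 1 + N₁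
  Lu : Mu + σ ≤ sn b 2 + Λ
  Lu' : Mu + σ ≤ p 2 + Λ
  Ld : N₂ + σ ≤ Λ
  Ld' : sn b 2 + N₂ + σ ≤ p 2 + Λ

variable {m : ℕ} {γ : ∀ J : ℕ, Fam m J → Type} {S : PCl m} {c : ℕ → Fin m}
  {y : ∀ (J : ℕ) (F : Fam m J), F.Ω → γ J F} {s A B Λ : ℝ} {sn : ℝ → ℕ → ℝ} {G : Set ℝ}
  {b w x : ℝ} {p n n' : ℕ → ℝ} {P M₁ N₁ N₂ Na Nb Nd Mu Mb σ δ : ℝ}

theorem nq_0 : nq sn b P N₁ 1 0 = sn b 1 + N₁ := if_pos rfl

theorem nq_1 : nq sn b P N₁ 1 1 = sn b 1 - b + P := by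
  have : nq sn b P N₁ 1 1 = sn b 1 - ((1 : ℕ) : ℝ) * b + P := if_neg one_ne_zero
  rw [this, Nat.cast_one, one_mul]

/-- The height of the place `1` from the near digits and more digits. -/
theorem pull_h
    (hpos : ∀ (τ : ℝ) (J : ℕ) (F : Fam m J) (A : F.Ω → Prop), S.St τ J F A → 0 < Pe F.p A)
    {V : Type} {β : ∀ J : ℕ, Fam m J → Type} {g : ∀ (J : ℕ) (F : Fam m J), F.Ω → β J F}
    {Q' : Qt m V} (h : Few S (fun J F => ptr F J) g y
      (qJet m ((range 1).image c) (c 1) 0 b (sn b 1) (sn b 1 + N₁)) Q') :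
    Few S (fun J F => ptr F J) g y (nh m c sn b P N₁) Q' :=
  few_lmap hpos (fun u => u.2) (fun _ _ _ _ _ _ hu => hu.2) h

/-- One near jet. -/
theorem pull_n
    (hpos : ∀ (τ : ℝ) (J : ℕ) (F : Fam m J) (A : F.Ω → Prop), S.St τ J F A → 0 < Pe F.p A)
    {V : Type} {β : ∀ J : ℕ, Fam m J → Type} {g : ∀ (J : ℕ) (F : Fam m J), F.Ω → β J F}
    {Q' : Qt m V} {i j : ℕ} (hi : 1 ≤ i) (hi' : i < 3) (hj : j ≤ 1)
    (h : Few S (fun J F => ptr F J) g y
      (qJet m ((range i).image c) (c i) j b (sn b i) (ndb sn b P i j)) Q') :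
    Few S (fun J F => ptr F J) g y (jetQ m c 1 3 b (sn b) (ndb sn b P)) Q' :=
  few_lmap hpos (fun u => u i j) (fun _ _ _ _ _ _ hu => hu.1 i hi hi' j hj) h

theorem pull_n'
    (hpos : ∀ (τ : ℝ) (J : ℕ) (F : Fam m J) (A : F.Ω → Prop), S.St τ J F A → 0 < Pe F.p A)
    {V : Type} {β : ∀ J : ℕ, Fam m J → Type} {g : ∀ (J : ℕ) (F : Fam m J), F.Ω → β J F}
    {Q' : Qt m V} {i j : ℕ} (hi : 1 ≤ i) (hi' : i < 3) (hj : j ≤ 1)
    (h : Few S (fun J F => ptr F J) g y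
      (qJet m ((range i).image c) (c i) j b (sn b i) (ndb sn b P i j)) Q') :
    Few S (fun J F => ptr F J) g y (nh m c sn b P N₁) Q' :=
  few_lmap hpos (fun u => u.1 i j) (fun _ _ _ _ _ _ hu => hu.1.1 i hi hi' j hj) h

theorem ndb_0 {l : ℕ} : ndb sn b P l 0 = sn b l + P := by
  unfold ndb
  rw [Nat.cast_zero, zero_mul, sub_zero]

theorem ndb_1 {l : ℕ} : ndb sn b P l 1 = sn b l - b + P := by
  unfold ndb
  rw [Nat.cast_one, one_mul]

/-- More digits of the height of the place `1`. -/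
theorem more1 (h : GCh S (fun J F => ptr F J) y c 1 3 s A B Λ sn G) (hb : b ∈ G) (hA : A ≤ b)
    (hB : b < B) (hσ : 0 < σ) (hP : P + σ ≤ Λ) (hM : P ≤ M₁) :
    FewD S (fun J F => ptr F J) (vg b) y (jetQ m c 1 3 b (sn b) (ndb sn b P))
      (qJet m ((range 1).image c) (c 1) 0 b (sn b 1) (sn b 1 + M₁)) ((M₁ - P) * Real.log 2) := by
  have e1 : M₁ - P = sn b 1 + M₁ - (sn b 1 + P) := by ring
  rw [e1]
  refine more_digits h.pos (by linarith) (pull_n h.pos (i := 1) (j := 0) le_rfl (by norm_num)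
    (by norm_num) (h.jet1 hb hA hB le_rfl le_rfl hσ (by rw [ndb_0]) ?_ ?_))
  · rw [Nat.cast_zero, zero_mul]
    linarith
  · rw [Nat.cast_zero, zero_mul]
    linarith

namespace P2N

variable (T : P2N sn G b w Λ p P M₁ N₁ N₂ Na Nb Nd Mu Mb σ δ)
  (h : GCh S (fun J F => ptr F J) y c 1 3 s A B Λ sn G)

include T h

/-- The height of the place `1` over labels of `w`. -/
theorem ga (hw : w ∈ G) (hA : A ≤ b) (hbw : b ≤ w) (hB : w < B) :
    Few S (fun J F => ptr F J) (vg w) y (nh m c sn b P M₁)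
      (qJet m ((range 1).image c) (c 1) 0 w (p 1) Na) := by
  refine pull_h h.pos (h.jet1 hw (hA.trans hbw) hB hbw le_rfl T.σ0 T.a ?_ ?_)
  · rw [Nat.cast_zero, zero_mul]
    linarith [T.a, T.LM]
  · rw [Nat.cast_zero, zero_mul]
    linarith [T.a1]

/-- The velocity of the place `1` over labels of `w`. -/
theorem gd (hw : w ∈ G) (hA : A ≤ b) (hbw : b ≤ w) (hB : w < B) :
    Few S (fun J F => ptr F J) (vg w) y (nh m c sn b P M₁)
      (qJet m ((range 1).image c) (c 1) 1 w (p 1) Nd) := by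
  refine pull_n' h.pos (i := 1) (j := 1) le_rfl (by norm_num) le_rfl
    (h.jet1 hw (hA.trans hbw) hB hbw le_rfl T.σ0 (by rw [ndb_1]; exact T.d) ?_ ?_)
  · rw [Nat.cast_one, one_mul]
    linarith [T.d, T.LP]
  · rw [Nat.cast_one, one_mul]
    linarith [T.d1]

/-- The height of the place `2` over labels of `w`, near digits. -/
theorem gh0 (hb : b ∈ G) (hw : w ∈ G) (hA : A ≤ b) (hbw : b ≤ w) (hB : w < B) :
    Few S (fun J F => ptr F J) (vg w) y (nh m c sn b P M₁)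
      (qJet m ((range 2).image c) (c 2) 0 w (p 2) (sn b 2 + P)) := by
  refine pull2 h.pos (j := 0) (by norm_num) (i := 0) (by norm_num)
    (h.jet_up (j := 0) (by norm_num) hb hw hA hbw hB T.σ0 T.δ0 T.gap (by rw [ndb_0])
      (fun low hl up hu q1 q2 q3 q4 j' hj' => ?_) ?_ ?_ (fun j' hj' => ?_) T.p2
      (fun j' hj' => ?_) ?_)
  · obtain rfl : j' = 0 := by omega
    rw [nq_0, Nat.cast_zero, zero_mul]
    linarith [T.o0 low hl up hu q1 q2 q3 q4]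
  · rw [Nat.cast_zero, zero_mul]
    linarith [T.LP]
  · rw [Nat.cast_zero, zero_mul]
    linarith [T.o0w]
  · obtain rfl : j' = 0 := by omega
    rw [nq_0, Nat.cast_zero, zero_mul]
    linarith [T.LM]
  · obtain rfl : j' = 0 := by omega
    rw [nq_0, Nat.cast_zero, zero_mul]
    linarith [T.o0p]
  · rw [Nat.cast_zero, zero_mul]
    linarith [T.MuP, T.Lu']

/-- The velocity of the place `2` over labels of `w`. -/
theorem gh1 (hb : b ∈ G) (hw : w ∈ G) (hA : A ≤ b) (hbw : b ≤ w) (hB : w < B) :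
    Few S (fun J F => ptr F J) (vg w) y (nh m c sn b P M₁)
      (qJet m ((range 2).image c) (c 2) 1 w (p 2) (Mu - w)) := by
  have key : ∀ j' ≤ 1, ∀ X Y t : ℝ, X ≤ sn b 1 + M₁ → X ≤ sn b 1 - b + P + t → Y = t →
      X ≤ nq sn b P M₁ 1 j' + (j' : ℕ) * Y := by
    intro j' hj' X Y t h1 h2 h3
    rcases Nat.eq_zero_or_pos j' with h5 | h5
    · subst h5
      rw [nq_0, Nat.cast_zero, zero_mul]
      linarith
    · obtain rfl : j' = 1 := by omega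
      rw [nq_1, Nat.cast_one, one_mul]
      linarith
  refine pull2 h.pos (j := 1) le_rfl (i := 1) le_rfl
    (h.jet_up (j := 1) le_rfl hb hw hA hbw hB T.σ0 T.δ0 T.gap (by rw [ndb_1]; exact T.o1N)
      (fun low hl up hu q1 q2 q3 q4 j' hj' => ?_) ?_ ?_ (fun j' hj' => ?_) T.p2
      (fun j' hj' => ?_) ?_)
  · refine key j' hj' _ _ up ?_ ?_ rfl
    · rw [Nat.cast_one, one_mul]
      linarith [T.o1 low hl up hu q1 q2 q3 q4]
    · rw [Nat.cast_one, one_mul]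
      linarith [T.o1' low hl up hu q1 q2 q3 q4]
  · rw [Nat.cast_one, one_mul]
    linarith [T.Lu]
  · rw [Nat.cast_one, one_mul]
    linarith [T.MuP, T.o0w]
  · rcases Nat.eq_zero_or_pos j' with h5 | h5
    · subst h5
      rw [nq_0, Nat.cast_zero, zero_mul]
      linarith [T.LM]
    · obtain rfl : j' = 1 := by omega
      rw [nq_1, Nat.cast_one, one_mul]
      linarith [T.LP]
  · refine key j' hj' _ _ w ?_ ?_ rfl
    · rw [Nat.cast_one, one_mul]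
      linarith [T.o1p]
    · rw [Nat.cast_one, one_mul]
      linarith [T.o1p']
  · rw [Nat.cast_one, one_mul]
    linarith [T.Lu']

/-- The height of the place `2` over labels of `w`, given itself. -/
theorem gs0 (hb : b ∈ G) (hw : w ∈ G) (hA : A ≤ b) (hbw : b ≤ w) (hB : w < B) :
    Few S (fun J F => ptr F J) (vg w) y ((nh m c sn b P M₁).prod
      (qJet m ((range 2).image c) (c 2) 0 w (p 2) Mu))
      (qJet m ((range 2).image c) (c 2) 0 w (p 2) (Mu - ((0 : ℕ) : ℝ) * w)) := by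
  have hσ := T.σ0
  refine pull3 h.pos (j := 0) (by norm_num) (h.gjet (i := 2) (j := 0)
    (lv := fun _ => Mu - p 2 + σ) (σ₀ := σ) (p₀ := sn b) (by norm_num) (by norm_num) hw
    (hA.trans hbw) hB hbw le_rfl le_rfl (fun l a b' => ?_) hσ (fun _ _ _ => ?_)
    (fun l a b' j' hj' => ?_) (fun l a b' => ?_) (fun l a b' l' a' b'' => by omega) ?_ ?_
    (fun l a b' => ?_))
  · obtain rfl : l = 1 := by omega
    exact h.mono' (show 1 ≤ 1 by norm_num) (by norm_num) hb hw hA hbw hB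
  · linarith [T.MuP, T.o0w, T.p2]
  · obtain rfl : l = 1 := by omega
    obtain rfl : j' = 0 := by omega
    rw [nq_0, Nat.cast_zero, zero_mul]
    linarith [T.o1p]
  · obtain rfl : l = 1 := by omega
    linarith [T.o1p, T.LM]
  · rw [Nat.cast_zero, zero_mul, sub_zero]
  · rw [Nat.cast_zero, zero_mul, sub_zero, min_self]
    linarith [T.Lu']
  · rw [Nat.cast_zero, zero_mul, sub_zero, min_self]
    linarith

/-- The height of the place `1` over labels of `b`. -/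
theorem g6 (hw : w ∈ G) (hA : A ≤ b) (hbw : b ≤ w) (hB : w < B) :
    FewD S (fun J F => ptr F J) (vg w) y ((nh m c sn b P M₁).prod
      (qJet m ((range 1).image c) (c 1) 0 w (p 1) Nb))
      (qJet m ((range 1).image c) (c 1) 0 b (sn b 1) (sn b 1 + N₁))
      ((sn b 1 + N₁ - Nb) * Real.log 2) := by
  refine more_digits h.pos T.NN ?_
  refine few_lmap h.pos (fun u => u.2) (fun _ _ _ _ _ _ hu => hu.2)
    (h.jet1 hw (hA.trans hbw) hB le_rfl hbw T.σ0 le_rfl ?_ ?_)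
  · rw [Nat.cast_zero, zero_mul]
    linarith [T.b1]
  · rw [Nat.cast_zero, zero_mul]
    linarith [T.b2]

/-- The height of the place `2` over labels of `b`. -/
theorem g7 (hb : b ∈ G) (hw : w ∈ G) (hA : A ≤ b) (hbw : b ≤ w) (hB : w < B) :
    Few S (fun J F => ptr F J) (vg w) y ((nh m c sn b P N₁).prod
      (qJet m ((range 2).image c) (c 2) 0 w (p 2) Mb))
      (qJet m ((range 2).image c) (c 2) 0 b (sn b 2) (sn b 2 + N₂)) := by
  refine pull3 h.pos (j := 0) (by norm_num) (h.jet_dn hb hw hA hbw hB T.σ0 T.δ0 T.gap T.dnN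
    (fun low hl up hu q1 q2 q3 q4 => ?_) ?_ T.dnw ?_ T.p2 ?_ ?_)
  · rw [nq_0]
    exact T.dn low hl up hu q1 q2 q3 q4
  · linarith [T.Ld]
  · rw [nq_0]
    linarith [T.LN]
  · rw [nq_0]
    exact T.dnp
  · linarith [T.Ld']

end P2N

/-- The lower jets of the pair are no information. -/
theorem gu0
    (hpos : ∀ (τ : ℝ) (J : ℕ) (F : Fam m J) (A : F.Ω → Prop), S.St τ J F A → 0 < Pe F.p A)
    {U : Type} {Q : Qt m U} {β : ∀ J : ℕ, Fam m J → Type}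
    {g : ∀ (J : ℕ) (F : Fam m J), F.Ω → β J F} {v : ℕ} {N : ℕ → ℕ → ℝ} :
    Few S (fun J F => ptr F J) g y Q (jetQ m c v v w p N) :=
  few_qjets hpos fun i i0 i1 _ _ => by omega

/-- An error for one accuracy. -/
theorem f1_fewD {U U' : Type} {α β γ : ∀ J : ℕ, Fam m J → Type}
    {f : ∀ (J : ℕ) (F : Fam m J), F.Ω → α J F} {g : ∀ (J : ℕ) (F : Fam m J), F.Ω → β J F}
    {y : ∀ (J : ℕ) (F : Fam m J), F.Ω → γ J F} {Q : Qt m U} {Q' : Qt m U'} {e η : ℝ}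
    (he : 0 < e) (h : F1 S f g y Q Q' e η) : FewD S f g y Q Q' η := by
  intro x hx
  refine ⟨e, he, fun K => Bas.mono 0 (h K) ?_⟩
  rintro J - F A H u u' hu hu'
  obtain ⟨V, z, hz, h1⟩ := H u u' hu hu'
  exact ⟨V, z, hz, h1.trans (mul_le_mul_of_nonneg_right (by linarith) (Nat.cast_nonneg J))⟩

/-- **The jets of order `≥ 2` of the place `2`** over labels of `w`, from affine labels. -/
theorem pr_hi (h : GCh S (fun J F => ptr F J) y c 1 3 s A B Λ sn G) (hw : w ∈ G) (hA : A ≤ b)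
    (hbw : b ≤ w) (hB : w < B) {K : ℕ} {gp : ℝ} (hσ : 0 < σ) (hgp : 0 < gp)
    (k1 : sn w 1 + 30 * gp ≤ sn b 1 + M₁) (k2 : sn b 1 + M₁ + 30 * gp ≤ sn w 1 + Λ)
    (k3 : M₁ + σ ≤ Λ) (k3' : sn b 1 ≤ sn w 1) (k4 : sn b 1 + M₁ ≤ sn b 1 - b + P + w)
    (k5 : (w - b) + P + σ ≤ Λ) {pw : ℕ → ℝ} {Nf : ℕ → ℕ → ℝ} {Dg : ℕ → ℝ} {e₀ η₀ : ℝ}
    (he₀ : 0 < e₀) (hη₀ : 0 < η₀)
    (d1 : ∀ j : ℕ, 2 ≤ j → j ≤ K + 2 → sn b 1 + M₁ ≤ Dg j + (j : ℝ) * w)
    (d2 : ∀ j : ℕ, 2 ≤ j → j ≤ K + 2 → F1 S (fun J F => ptr F J) (vg w) y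
      (jetQ m c 1 1 w pw Nf) (qJet m ((range 1).image c) (c 1) j w (sn w 1) (Dg j)) e₀ η₀)
    {b₂ Pb : ℝ} (hA2 : AffL S ((range 2).image c) (c 2) b₂ Pb) (hb₂ : b₂ ≤ w)
    (k6 : Mu + gp ≤ min Pb (p 2) + Λ)
    (k7 : Mu + 11 * gp ≤ min Pb (p 2) + (sn b 1 + M₁ - sn w 1)) :
    ∃ e : ℝ, 0 < e ∧ ∀ j : ℕ, 2 ≤ j → j ≤ K + 2 → F1 S (fun J F => ptr F J) (vg w) y
      (nh m c sn b P M₁) (qJet m ((range 2).image c) (c 2) j w (p 2) (Mu - (j : ℕ) * w)) e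
      ((2 * (K + 2 + 1) : ℕ) * η₀ + η₀) := by
  obtain ⟨C₀, htm⟩ := h.tm
  have hwA := hA.trans hbw
  have hB1 := gch_B1 h
  obtain ⟨u₁, rd, hrd, hch⟩ := h.ch w hw hwA hB
  obtain ⟨e1, he1, H1⟩ := few_iff.1 (pull_h (P := P) (N₁ := M₁) h.pos (h.jet1 (j := 0) (x := b)
    (x' := w) (p := sn b 1) (p' := sn w 1) (N₁ := sn b 1 + M₁) (N₂ := sn b 1 + M₁) hw hwA hB hbw
    le_rfl hσ le_rfl (by
      rw [Nat.cast_zero, zero_mul]
      linarith) (by
      rw [Nat.cast_zero, zero_mul]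
      linarith))) η₀ hη₀
  obtain ⟨e2, he2, H2⟩ := few_iff.1 (pull_n' (P := P) (N₁ := M₁) h.pos (i := 1) (j := 1) le_rfl
    (by norm_num) le_rfl (h.jet1 (j := 1) (x := b)
    (x' := w) (p := sn b 1) (p' := sn w 1) (N₁ := ndb sn b P 1 1) (N₂ := sn b 1 - b + P) hw hwA
    hB hbw le_rfl hσ (by rw [ndb_1]) (by
      rw [Nat.cast_one, one_mul]
      linarith) (by
      rw [Nat.cast_one, one_mul]
      linarith))) η₀ hη₀
  obtain ⟨e, he, l0, l1, l2⟩ : ∃ e : ℝ, 0 < e ∧ e ≤ e₀ ∧ e ≤ e1 ∧ e ≤ e2 :=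
    ⟨min e₀ (min e1 e2), by positivity, min_le_left _ _, (min_le_right _ _).trans
      (min_le_left _ _), (min_le_right _ _).trans (min_le_right _ _)⟩
  have HJ : JO S (fun J F => ptr F J) (vg w) y (nh m c sn b P M₁) c 1 2 w (fun l => sn w l)
      (fun _ j => if j = 0 then sn b 1 + M₁ else if j = 1 then sn b 1 - b + P else Dg j) (K + 2)
      e η₀ := by
    intro l a b' j hj
    obtain rfl : l = 1 := by omega
    rcases Nat.eq_zero_or_pos j with h5 | h5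
    · subst h5
      exact H1.mono l1 le_rfl
    · rcases Nat.lt_or_ge j 2 with h6 | h6
      · obtain rfl : j = 1 := by omega
        exact H2.mono l2 le_rfl
      · have e3 : (if j = 0 then sn b 1 + M₁ else if j = 1 then sn b 1 - b + P else Dg j) =
            Dg j := by
          rw [if_neg (by omega), if_neg (by omega)]
        simp only [e3]
        refine F1.pull htm (fun _ _ _ => 0) (fun K' e' J F A' u hu => ?_)
          ((d2 j h6 hj).mono l0 le_rfl)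
        exact ⟨fun l a b' => absurd b' (by omega), fun _ _ _ _ _ => rfl⟩
  have HB : DgB 1 2 (fun l => sn w l) (fun _ => sn b 1 + M₁) Λ gp := by
    refine ⟨fun l a b' => ?_, fun l a b' => ?_, fun l a b' l' a' b'' => by omega⟩
    · obtain rfl : l = 1 := by omega
      exact k1
    · obtain rfl : l = 1 := by omega
      exact k2
  refine ⟨min e (gp / 8), lt_min he (by linarith), fun j hj2 hj => ?_⟩
  refine aff_src (Jm := K + 2) (N := fun _ => sn b 1 + M₁) htm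
    (hch.take (by norm_num) (by norm_num)) h.Λ0 (by linarith) hgp HB
    (Dg := fun _ j => if j = 0 then sn b 1 + M₁ else if j = 1 then sn b 1 - b + P else Dg j)
    (fun l a b' j' hj' => ?_) he hη₀.le HJ
    (fun l a b' j M => gch_exs h hw hwA hB a (by omega) j M) hA2 hb₂
    (Ni := Mu) (pt := p 2) k6 (fun l a b' => ?_) h.pt (gch_kn h hB.le) hj2 hj hη₀
  · rcases Nat.eq_zero_or_pos j' with h5 | h5
    · subst h5
      rw [if_pos rfl, Nat.cast_zero, zero_mul, add_zero]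
    · rcases Nat.lt_or_ge j' 2 with h6 | h6
      · obtain rfl : j' = 1 := by omega
        rw [if_neg one_ne_zero, if_pos rfl, Nat.cast_one, one_mul]
        exact k4
      · rw [if_neg (by omega), if_neg (by omega)]
        exact d1 j' h6 hj'
  · obtain rfl : l = 1 := by omega
    exact k7

/-- **The jets of the place `2`** over labels of `w`, given its height. -/
theorem P2N.g5 (T : P2N sn G b w Λ p P M₁ N₁ N₂ Na Nb Nd Mu Mb σ δ)
    (h : GCh S (fun J F => ptr F J) y c 1 3 s A B Λ sn G) (hb : b ∈ G) (hw : w ∈ G)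
    (hA : A ≤ b) (hbw : b ≤ w) (hB : w < B) {K : ℕ} {η₀ : ℝ} (hη₀ : 0 < η₀)
    (hh : ∃ e : ℝ, 0 < e ∧ ∀ j : ℕ, 2 ≤ j → j ≤ K + 2 → F1 S (fun J F => ptr F J) (vg w) y
      (nh m c sn b P M₁) (qJet m ((range 2).image c) (c 2) j w (p 2) (Mu - (j : ℕ) * w)) e
      ((2 * (K + 2 + 1) : ℕ) * η₀ + η₀)) :
    FewD S (fun J F => ptr F J) (vg w) y ((nh m c sn b P M₁).prod
      (qJet m ((range 2).image c) (c 2) 0 w (p 2) Mu))
      (qJets m c 2 3 (K + 2) (fun _ _ => w) (fun l _ => p l) (fun _ j' => Mu - (j' : ℝ) * w))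
      ((3 * (K + 2 + 1) : ℕ) * ((2 * (K + 2 + 1) : ℕ) * η₀ + η₀)) := by
  obtain ⟨C₀, htm⟩ := h.tm
  obtain ⟨η, hη⟩ : ∃ η : ℝ, η = ((2 * (K + 2 + 1) : ℕ) : ℝ) * η₀ + η₀ := ⟨_, rfl⟩
  have hη0 : 0 < η := by rw [hη]; positivity
  rw [← hη] at hh ⊢
  obtain ⟨e0, he0, H0⟩ := hh
  obtain ⟨e1, he1, H1⟩ := few_iff.1 (T.gs0 h hb hw hA hbw hB) η hη0
  obtain ⟨e2, he2, H2⟩ := few_iff.1 (Few.fst (Q₂ := qJet m ((range 2).image c) (c 2) 0 w (p 2) Mu)
    h.pos (T.gh1 h hb hw hA hbw hB)) η hη0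
  obtain ⟨e, he, l0, l1, l2⟩ : ∃ e : ℝ, 0 < e ∧ e ≤ e0 ∧ e ≤ e1 ∧ e ≤ e2 :=
    ⟨min e0 (min e1 e2), by positivity, min_le_left _ _, (min_le_right _ _).trans
      (min_le_left _ _), (min_le_right _ _).trans (min_le_right _ _)⟩
  refine f1_fewD he (F1.qjets htm hη0.le fun i i0 i1 j hj => ?_)
  obtain rfl : i = 2 := by omega
  rcases Nat.eq_zero_or_pos j with h5 | h5
  · subst h5
    exact H1.mono l1 le_rfl
  · rcases Nat.lt_or_ge j 2 with h6 | h6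
    · obtain rfl : j = 1 := by omega
      have e3 : Mu - ((1 : ℕ) : ℝ) * w = Mu - w := by rw [Nat.cast_one, one_mul]
      rw [e3]
      exact H2.mono l2 le_rfl
    · refine F1.pull htm (fun u => u.1) (fun K' e' J F A' u hu => hu.1)
        ((H0 j h6 hj).mono l0 le_rfl)

end Pool.FUL71
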